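import Pool.Agent.P.MP_ab3ecb_nt.AM.All

/-!
Let `E` be the elliptic curve `y ^ 2 = x ^ 3 + A x + B` over a number field `K`, let `Γ` be a
group of rational points of `E` of rank at most one, let `S` contain all but finitely many of the
finite places of `K`, and let `X` be the closed subvariety of `E ^ n` cut out by a set `I` of
multihomogeneous forms. There are finitely many cosets in `X(K) ∩ Γ ^ n` such that every family of
points of `X` over the completions at the places of `S` that is a limit of points of `Γ ^ n` is a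
limit of points of one of these cosets.
-/

namespace Pool.Agent.Results.MP_ab3ecb_nt.AdelicMLAll

open NumberField IsDedekindDomain Pool.Agent.P.MP_ab3ecb_nt.AM
open Pool.Agent.P.MP_ab3ecb_nt.TK (Pt Loc)
open scoped Classical

theorem result (K : Type) [Field K] [NumberField K] (A B : 𝓞 K)
    (hD : 4 * A ^ 3 + 27 * B ^ 2 ≠ 0) (Γ : AddSubgroup (Pt A B K))
    (hr : ∃ P : Γ, (AddSubgroup.zmultiples P).FiniteIndex)
    (S : Set (HeightOneSpectrum (𝓞 K))) (hS : Sᶜ.Finite) (n : ℕ)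
    (I : Set (MvPolynomial (Fin n × Fin 3) K))
    (hI : ∀ F ∈ I, ∃ d : Fin n → ℕ, F.IsWeightedHomogeneous (fun s => Pi.single s.1 1) d) :
    ∃ T : Set ((Fin n → Pt A B K) × AddSubgroup (Fin n → Pt A B K)), T.Finite ∧
      (∀ t ∈ T, ∀ h ∈ t.2, (∀ i, (t.1 + h) i ∈ Γ) ∧ On I (t.1 + h)) ∧
      ∀ a : ∀ v : S, Fin n → Loc A B v.1, (∀ v, On I (a v)) → InCl {Q | ∀ i, Q i ∈ Γ} a →
        ∃ t ∈ T, InCl {Q | Q - t.1 ∈ t.2} a := by
  obtain ⟨T, h1, h2, h3⟩ := r_TOP K A B hD Γ hr S hS n I hI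
  refine ⟨T, h1, h2, fun a ha hc => ?_⟩
  obtain ⟨t, ht, h4⟩ := h3 a ha ((r_CLO K A B n _ S a).1 hc)
  exact ⟨t, ht, (r_CLO K A B n _ S a).2 h4⟩

end Pool.Agent.Results.MP_ab3ecb_nt.AdelicMLAll
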