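import Pool.Agent.P.MP_ab3ecb_nt.AM.Iface

/-! Step ADD. -/

set_option autoImplicit false

namespace Pool.Agent.P.MP_ab3ecb_nt.AM

open Filter Topology NumberField IsDedekindDomain Finset Real Pool.Agent.P.MP_ab3ecb_nt.TK
open scoped Classical NNReal

namespace ADDx

/-- The chord formula in projective coordinates. -/
def tt {S : Type} [CommRing S] (x1 y1 z1 x2 y2 z2 : S) : Fin 3 → S :=
  ![(x2 * z1 - x1 * z2) * ((y2 * z1 - y1 * z2) ^ 2 * z1 * z2 - (x2 * z1 - x1 * z2) ^ 3 -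
      2 * (x2 * z1 - x1 * z2) ^ 2 * x1 * z2),
    (y2 * z1 - y1 * z2) * ((x2 * z1 - x1 * z2) ^ 2 * x1 * z2 -
      ((y2 * z1 - y1 * z2) ^ 2 * z1 * z2 - (x2 * z1 - x1 * z2) ^ 3 -
        2 * (x2 * z1 - x1 * z2) ^ 2 * x1 * z2)) - (x2 * z1 - x1 * z2) ^ 3 * y1 * z2,
    (x2 * z1 - x1 * z2) ^ 3 * z1 * z2]

lemma map_tt {S S' : Type} [CommRing S] [CommRing S'] (f : S →+* S') (x1 y1 z1 x2 y2 z2 : S)
    (j : Fin 3) : f (tt x1 y1 z1 x2 y2 z2 j) = tt (f x1) (f y1) (f z1) (f x2) (f y2) (f z2) j := by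
  fin_cases j <;> simp [tt, map_ofNat]

lemma main {R : Type} [CommRing R] (A B : R) (L : Type) [Field L] [Algebra R L] [DecidableEq L]
    (P Q : Pt A B L) (a b : L) : ∃ c : L, (∀ j, tt (a * rep P 0) (a * rep P 1) (a * rep P 2)
      (b * rep Q 0) (b * rep Q 1) (b * rep Q 2) j = c * rep (P + Q) j) ∧
      (a ≠ 0 → b ≠ 0 → P ≠ 0 → Q ≠ 0 → P ≠ Q → c ≠ 0) := by
  by_cases hP : P = 0
  · refine ⟨0, fun j => ?_, fun _ _ h => absurd hP h⟩
    subst hP
    by_cases hQ : Q = 0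
    · subst hQ; fin_cases j <;> simp [tt]
    · rw [rep_ne hQ]; fin_cases j <;> simp [tt]
  by_cases hQ : Q = 0
  · refine ⟨0, fun j => ?_, fun _ _ _ h => absurd hQ h⟩
    subst hQ
    rw [rep_ne hP]; fin_cases j <;> simp [tt]
  by_cases hPQ : P = Q
  · refine ⟨0, fun j => ?_, fun _ _ _ _ h => absurd hPQ h⟩
    subst hPQ
    rw [rep_ne hP]
    fin_cases j <;> simp only [tt] <;> simp <;> ring_nf <;> simp
  by_cases hx : TK.X P = TK.X Q
  · have h1 : P = -Q := (eq_or_neg hP hQ hx).resolve_left hPQ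
    have h2 : P + Q = 0 := by rw [h1, neg_add_cancel]
    have h3 : TK.Y Q - TK.Y P ≠ 0 := fun h => hPQ (pt_ext hP hQ hx (sub_eq_zero.1 h).symm)
    refine ⟨-(a ^ 4 * b ^ 4 * (TK.Y Q - TK.Y P) ^ 3), fun j => ?_, fun ha hb _ _ _ => ?_⟩
    · rw [h2, rep_ne hP, rep_ne hQ, hx, rep_zero]
      fin_cases j
      · show tt _ _ _ _ _ _ 0 = _ * 0
        simp only [tt, Matrix.cons_val_zero, Matrix.cons_val_one, Matrix.cons_val]
        ring
      · show tt _ _ _ _ _ _ 1 = _ * 1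
        simp only [tt, Matrix.cons_val_zero, Matrix.cons_val_one, Matrix.cons_val]
        ring
      · show tt _ _ _ _ _ _ 2 = _ * 0
        simp only [tt, Matrix.cons_val_zero, Matrix.cons_val_one, Matrix.cons_val]
        ring
    · exact neg_ne_zero.2 (mul_ne_zero (mul_ne_zero (pow_ne_zero _ ha) (pow_ne_zero _ hb))
        (pow_ne_zero _ h3))
  · have h2 : P + Q ≠ 0 := fun h => hx (by rw [eq_neg_of_add_eq_zero_left h, X_neg])
    obtain ⟨l, e1, e2, e3, -⟩ := add_spec hP hQ h2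
    have h3 : TK.X Q - TK.X P ≠ 0 := fun h => hx (sub_eq_zero.1 h).symm
    have e4 : TK.Y Q = TK.Y P + l * (TK.X Q - TK.X P) := by linear_combination e3
    refine ⟨a ^ 4 * b ^ 4 * (TK.X Q - TK.X P) ^ 3, fun j => ?_, fun ha hb _ _ _ => ?_⟩
    · rw [rep_ne h2, rep_ne hP, rep_ne hQ, e2, e1, e4]
      fin_cases j
      · show tt _ _ _ _ _ _ 0 = _ * (l ^ 2 - TK.X P - TK.X Q)
        simp only [tt, Matrix.cons_val_zero, Matrix.cons_val_one, Matrix.cons_val]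
        ring
      · show tt _ _ _ _ _ _ 1 = _ * -(l * (l ^ 2 - TK.X P - TK.X Q - TK.X P) + TK.Y P)
        simp only [tt, Matrix.cons_val_zero, Matrix.cons_val_one, Matrix.cons_val]
        ring
      · show tt _ _ _ _ _ _ 2 = _ * 1
        simp only [tt, Matrix.cons_val_zero, Matrix.cons_val_one, Matrix.cons_val]
        ring
    · exact mul_ne_zero (mul_ne_zero (pow_ne_zero _ ha) (pow_ne_zero _ hb)) (pow_ne_zero _ h3)

end ADDx

theorem p_ADD :
    S_ADD := by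
  refine ⟨ADDx.tt (MvPolynomial.X (0, 0)) (MvPolynomial.X (0, 1)) (MvPolynomial.X (0, 2))
    (MvPolynomial.X (1, 0)) (MvPolynomial.X (1, 1)) (MvPolynomial.X (1, 2)), ?_⟩
  intro R _ A B L _ _ _ P Q a b
  obtain ⟨c, h1, h2⟩ := ADDx.main A B L P Q a b
  refine ⟨c, fun j => ?_, h2⟩
  rw [← h1 j]
  refine (ADDx.map_tt (MvPolynomial.aeval
    (fun s : Fin 2 × Fin 3 => ![a * rep P s.2, b * rep Q s.2] s.1) :
      MvPolynomial (Fin 2 × Fin 3) ℤ →ₐ[ℤ] L).toRingHom _ _ _ _ _ _ j).trans ?_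
  simp

end Pool.Agent.P.MP_ab3ecb_nt.AM
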