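import Pool.Agent.P.MP_ab3ecb_nt.AM.Iface

/-! Step ASM. -/

set_option autoImplicit false

namespace Pool.Agent.P.MP_ab3ecb_nt.AM

open Filter Topology NumberField IsDedekindDomain Finset Real Pool.Agent.P.MP_ab3ecb_nt.TK
open scoped Classical NNReal

namespace ASMx

variable {R : Type} [CommRing R] {A B : R} {L : Type} [Field L] [Algebra R L]

theorem sym (P Q : Pt A B L) : P.sym2x Q =
    ![(xr P).1 * (xr Q).1, (xr P).1 * (xr Q).2 + (xr P).2 * (xr Q).1, (xr P).2 * (xr Q).2] := by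
  rcases P with _ | ⟨x, y, h⟩ <;> rcases Q with _ | ⟨x', y', h'⟩ <;> rfl

theorem bs : ((⟨0, 0, 0, A, B⟩ : WeierstrassCurve R).baseChange L).b₂ = 0 ∧
    ((⟨0, 0, 0, A, B⟩ : WeierstrassCurve R).baseChange L).b₄ = 2 * (A : L) ∧
    ((⟨0, 0, 0, A, B⟩ : WeierstrassCurve R).baseChange L).b₆ = 4 * (B : L) ∧
    ((⟨0, 0, 0, A, B⟩ : WeierstrassCurve R).baseChange L).b₈ = -(A : L) ^ 2 := by
  simp [WeierstrassCurve.b₂, WeierstrassCurve.b₄, WeierstrassCurve.b₆, WeierstrassCurve.b₈,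
    WeierstrassCurve.baseChange, Algebra.cast]

end ASMx

theorem p_ASM :
    S_ASM := by
  intro R _ A B L _ _ _ _ _ hD P Q p q ⟨a, ha, a1, a2⟩ ⟨b, hb, b1, b2⟩
  have := ell (L := L) hD
  obtain ⟨c, hc, h⟩ := R1.H.asm ((⟨0, 0, 0, A, B⟩ : WeierstrassCurve R).baseChange L) P Q
  obtain ⟨e2, e4, e6, e8⟩ := ASMx.bs (A := A) (B := B) (L := L)
  rw [R1.H.asm_eval, e2, e4, e6, e8, ASMx.sym, ASMx.sym] at h
  have h0 := congrFun h 0
  have h1 := congrFun h 1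
  have h2 := congrFun h 2
  simp only [Pi.smul_apply, smul_eq_mul, Matrix.cons_val_zero, Matrix.cons_val_one,
    Matrix.cons_val] at h0 h1 h2
  refine ⟨a ^ 2 * b ^ 2 * c, mul_ne_zero (mul_ne_zero (pow_ne_zero _ ha) (pow_ne_zero _ hb)) hc,
    ?_, ?_, ?_⟩
  · simp only [f0, g0, a1, a2, b1, b2]
    linear_combination a ^ 2 * b ^ 2 * h0
  · simp only [f1, g1, a1, a2, b1, b2]
    linear_combination a ^ 2 * b ^ 2 * h1
  · simp only [f2, g2, a1, a2, b1, b2]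
    linear_combination a ^ 2 * b ^ 2 * h2

end Pool.Agent.P.MP_ab3ecb_nt.AM
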