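import Pool.Agent.P.MP_ab3ecb_nt.AM.Iface

/-! Step CAN. -/

set_option autoImplicit false

namespace Pool.Agent.P.MP_ab3ecb_nt.AM

open Filter Topology NumberField IsDedekindDomain Finset Real Pool.Agent.P.MP_ab3ecb_nt.TK
open scoped Classical NNReal

theorem p_CAN :
    S_CAN := by
  intro K _ _ A B hD P hP
  have := ell hD (L := K)
  obtain ⟨q, C, hq, hC⟩ := R1.H.can _ P (nt_iff.1 hP)
  have hC0 : 0 ≤ C := (abs_nonneg _).trans (hC 0)
  refine ⟨q + C, by positivity, fun n => ?_⟩
  by_cases hn : n = 0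
  · subst hn
    have e : X ((0 : ℤ) • P) = 0 := by rw [zero_zsmul]; rfl
    rw [e, Height.logHeight₁_zero]
    simp
  · have h0 : n • P ≠ 0 := fun h => hn (hP n h)
    have h1 := (abs_le.1 (hC n)).2
    have e : (n • P).xRep = ![X (n • P), 1] := by
      generalize n • P = Q at h0
      cases Q with
      | zero => exact absurd rfl h0
      | some x y h => rfl
    rw [e, ← Height.logHeight₁_eq_logHeight] at h1
    have h2 : (1 : ℝ) ≤ (n : ℝ) ^ 2 := by
      have : (1 : ℤ) ≤ n ^ 2 := by
        have := sq_pos_of_ne_zero hn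
        omega
      exact_mod_cast this
    nlinarith [mul_le_mul_of_nonneg_left h2 hC0]

end Pool.Agent.P.MP_ab3ecb_nt.AM
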