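import Pool.Agent.P.MP_ab3ecb_nt.AM.Iface

/-! Step CLO. -/

set_option autoImplicit false

namespace Pool.Agent.P.MP_ab3ecb_nt.AM

open Filter Topology NumberField IsDedekindDomain Finset Real Pool.Agent.P.MP_ab3ecb_nt.TK
open scoped Classical NNReal

namespace CLOx

/-- The norm of a completion is not trivial. -/
noncomputable scoped instance nt {K : Type} [Field K] [NumberField K] (v : Pl K) :
    NontriviallyNormedField (Kv v) :=
  Valued.toNontriviallyNormedField (Kv v) (WithZero (Multiplicative ℤ))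

end CLOx

open CLOx in
theorem p_CLO (hCOC : S_COC) :
    S_CLO := by
  intro K _ _ A B n T S a
  constructor
  · intro hc
    rw [InCl, mem_closure_iff_clusterPt, ClusterPt, ← map_principal, ← Filter.push_pull',
      map_neBot_iff] at hc
    have hU := le_inf_iff.1 (Ultrafilter.of_le (comap (fun (Q : Fin n → Pt A B K) (v : S) i =>
      co (loc v.1 (Q i))) (𝓝 fun v i => co (a v i)) ⊓ 𝓟 T))
    refine ⟨_, le_principal_iff.1 hU.2, fun v i => ?_⟩
    have h1 := tendsto_pi_nhds.1 (tendsto_pi_nhds.1 (tendsto_iff_comap.2 hU.1) v) i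
    exact toO_of_co (L := Kv v.1) (P := fun Q : Fin n → Pt A B K => loc v.1 (Q i)) (T := a v i) h1
  · rintro ⟨U, h1, h2⟩
    refine mem_closure_of_tendsto (b := (U : Filter _)) (f := fun (Q : Fin n → Pt A B K) (v : S) i =>
      co (loc v.1 (Q i))) (tendsto_pi_nhds.2 fun v => tendsto_pi_nhds.2 fun i => ?_) ?_
    · exact hCOC A B (Kv v.1) _ U (fun Q : Fin n → Pt A B K => loc v.1 (Q i)) (a v i) (h2 v i)
    filter_upwards [h1] with Q hQ using Set.mem_image_of_mem _ hQ

end Pool.Agent.P.MP_ab3ecb_nt.AM
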