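import Pool.Agent.P.MP_ab3ecb_nt.AM.Iface

/-! Step CNT. -/

set_option autoImplicit false

namespace Pool.Agent.P.MP_ab3ecb_nt.AM

open Filter Topology NumberField IsDedekindDomain Finset Real Pool.Agent.P.MP_ab3ecb_nt.TK
open scoped Classical NNReal

theorem p_CNT (hLADD : S_LADD) (hLADI : S_LADI) :
    S_CNT := by
  intro R _ A B L _ _ _ _ _ hD T t hT ht
  obtain ⟨φ, ψ, hl, hφ, hψ⟩ := hLADD A B t ht
  set g : Polynomial L := φ.map (algebraMap R L) - Polynomial.C (X T) * ψ.map (algebraMap R L)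
    with hg
  have hT0 : T ≠ 0 := by simpa using nt_ne hT one_ne_zero
  have hev : ∀ Q : Pt A B L, Q ≠ 0 → (t : ℤ) • Q ≠ 0 →
      (g.eval (X Q) = 0 ↔ X ((t : ℤ) • Q) = X T) := by
    intro Q hQ htQ
    obtain ⟨h1, h2⟩ := (hLADI A B L hD Q t _ hQ (hl.aeval (X Q))).ne htQ
    simp only at h1 h2
    rw [hg, Polynomial.eval_sub, Polynomial.eval_mul, Polynomial.eval_C, Polynomial.eval_map_algebraMap,
      Polynomial.eval_map_algebraMap, h2, sub_eq_zero, mul_comm (X T)]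
    exact mul_right_inj' h1
  have ht' : (0 : ℤ) < t := by exact_mod_cast ht
  have hg0 : g ≠ 0 := by
    intro h0
    have h2 : (t : ℤ) • ((2 : ℤ) • T) ≠ 0 := by
      rw [← mul_smul]; exact nt_ne hT (by omega)
    have h3 := (hev _ (nt_ne hT two_ne_zero) h2).1 (by rw [h0, Polynomial.eval_zero])
    rcases eq_or_neg h2 hT0 h3 with h4 | h4
    · refine nt_ne hT (n := t * 2 - 1) (by omega) ?_
      rw [sub_smul, mul_smul, h4, one_smul, sub_self]
    · refine nt_ne hT (n := t * 2 + 1) (by omega) ?_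
      rw [add_smul, mul_smul, h4, one_smul, neg_add_cancel]
  have hdeg : g.natDegree ≤ 2 * t ^ 2 :=
    (Polynomial.natDegree_sub_le _ _).trans (max_le (Polynomial.natDegree_map_le.trans hφ)
      ((Polynomial.natDegree_C_mul_le _ _).trans (Polynomial.natDegree_map_le.trans hψ)))
  have hfib : ∀ x : L, ∃ s : Finset (Pt A B L), #s ≤ 2 ∧ ∀ Q, Q ≠ 0 → X Q = x → Q ∈ s := by
    intro x
    by_cases h : ∃ P : Pt A B L, P ≠ 0 ∧ X P = x
    · obtain ⟨P, hP, rfl⟩ := h
      refine ⟨{P, -P}, card_le_two, fun Q hQ hx => ?_⟩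
      simpa using eq_or_neg hQ hP hx
    · exact ⟨∅, by simp, fun Q hQ hx => absurd ⟨Q, hQ, hx⟩ h⟩
  choose fb hfb1 hfb2 using hfib
  refine ⟨(g.roots.toFinset.biUnion fb).filter fun Q => (t : ℤ) • Q = T, fun Q => ?_, ?_⟩
  · rw [mem_filter]
    refine ⟨fun h => h.2, fun h => ⟨?_, h⟩⟩
    have hQ : Q ≠ 0 := by
      rintro rfl
      exact hT0 (by rw [← h, smul_zero])
    refine mem_biUnion.2 ⟨X Q, ?_, hfb2 _ Q hQ rfl⟩
    rw [Multiset.mem_toFinset, Polynomial.mem_roots hg0]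
    exact (hev Q hQ (by rwa [h])).2 (by rw [h])
  · refine (card_filter_le _ _).trans ((card_biUnion_le_card_mul _ _ 2 fun x _ => hfb1 x).trans ?_)
    have := (Multiset.toFinset_card_le g.roots).trans ((Polynomial.card_roots' g).trans hdeg)
    omega

end Pool.Agent.P.MP_ab3ecb_nt.AM
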