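import Pool.Agent.P.MP_ab3ecb_nt.AM.Iface

/-! Step COC. -/

set_option autoImplicit false

namespace Pool.Agent.P.MP_ab3ecb_nt.AM

open Filter Topology NumberField IsDedekindDomain Finset Real Pool.Agent.P.MP_ab3ecb_nt.TK
open scoped Classical NNReal

namespace COCx

lemma inf {L ι : Type} [NormedField L] {l : Filter ι} {f : ι → OnePoint L}
    (h : ∀ r : ℝ, ∀ᶠ i in l, f i = OnePoint.infty ∨ ∃ x : L, f i = (x : OnePoint L) ∧ r ≤ ‖x‖) :
    Tendsto f l (𝓝 OnePoint.infty) := by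
  refine OnePoint.hasBasis_nhds_infty.tendsto_right_iff.2 fun s hs => ?_
  obtain ⟨r, hr⟩ := hs.2.isBounded.exists_norm_le
  filter_upwards [h (r + 1)] with i hi
  rcases hi with hi | ⟨x, hx, h1⟩
  · exact .inr hi
  · exact .inl ⟨x, fun h2 => by linarith [hr x h2], hx.symm⟩

lemma big {L : Type} [NormedField L] {x y a b : L} (h : y ^ 2 = x ^ 3 + a * x + b)
    (h1 : 1 + ‖a‖ + ‖b‖ ≤ ‖x‖) : ‖x‖ ≤ ‖y‖ := by
  have ha := norm_nonneg a
  have hb := norm_nonneg b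
  have h2 : ‖x‖ ^ 3 ≤ ‖y‖ ^ 2 + ‖a‖ * ‖x‖ + ‖b‖ := by
    have e : x ^ 3 = y ^ 2 - a * x - b := by rw [h]; ring
    rw [← norm_pow, e, ← norm_pow, ← norm_mul]
    exact (norm_sub_le _ _).trans (add_le_add_left (norm_sub_le _ _) _)
  have h3 : 1 ≤ ‖x‖ := by linarith
  have h4 : ‖x‖ ≤ ‖x‖ ^ 2 := by nlinarith
  have h5 : ‖x‖ ^ 2 * (‖a‖ + ‖b‖) ≤ ‖x‖ ^ 2 * (‖x‖ - 1) :=
    mul_le_mul_of_nonneg_left (by linarith) (by positivity)
  have h6 : ‖a‖ * ‖x‖ ≤ ‖a‖ * ‖x‖ ^ 2 := mul_le_mul_of_nonneg_left h4 ha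
  have h7 : ‖b‖ * 1 ≤ ‖b‖ * ‖x‖ ^ 2 := mul_le_mul_of_nonneg_left (h3.trans h4) hb
  exact (pow_le_pow_iff_left₀ (norm_nonneg x) (norm_nonneg y) two_ne_zero).1 (by nlinarith)

end COCx

theorem p_COC :
    S_COC := by
  intro R _ A B L ι _ _ _ l P Q h
  by_cases hQ : Q = 0
  · subst hQ
    simp only [sub_zero] at h
    rw [Lb.COx.co_zero]
    refine Tendsto.prodMk_nhds (mx := fun i => (co (P i)).1) (my := fun i => (co (P i)).2)
      (COCx.inf fun r => ?_) (COCx.inf fun r => ?_)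
    · filter_upwards [h r] with i hi
      by_cases h0 : P i = 0
      · exact .inl (by rw [h0, Lb.COx.co_zero])
      · exact .inr ⟨X (P i), by rw [Lb.COx.co_ne h0], hi.resolve_left h0⟩
    · filter_upwards [h r, h (1 + ‖(A : L)‖ + ‖(B : L)‖)] with i hi hi'
      by_cases h0 : P i = 0
      · exact .inl (by rw [h0, Lb.COx.co_zero])
      · exact .inr ⟨Y (P i), by rw [Lb.COx.co_ne h0],
          (hi.resolve_left h0).trans (COCx.big (eqn h0) (hi'.resolve_left h0))⟩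
  · obtain ⟨-, h1, h2, h3⟩ := lb (toA_const l hQ) h
    simp only [add_sub_cancel] at h1 h2 h3
    rw [Lb.COx.co_ne hQ]
    refine Tendsto.congr' (h1.mono fun i hi => (Lb.COx.co_ne hi).symm) ?_
    exact ((OnePoint.continuous_coe.tendsto _).comp h2).prodMk_nhds
      ((OnePoint.continuous_coe.tendsto _).comp h3)

end Pool.Agent.P.MP_ab3ecb_nt.AM
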