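import Pool.Agent.P.MP_ab3ecb_nt.AM.Iface

/-! Step COS. -/

set_option autoImplicit false

namespace Pool.Agent.P.MP_ab3ecb_nt.AM

open Filter Topology NumberField IsDedekindDomain Finset Real Pool.Agent.P.MP_ab3ecb_nt.TK
open scoped Classical NNReal

namespace COSx

variable {K : Type} [Field K] [NumberField K] {A B : 𝓞 K} {n k k' : ℕ}

omit [NumberField K] in
lemma pt_add (P : Pt A B K) (Q : Fin n → Pt A B K) (G : Fin n → Fin k → ℤ) (m m' : Fin k → ℤ) :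
    pt P (pt P Q G m) G m' = pt P Q G fun l => m l + m' l := by
  funext i
  simp only [pt, mul_add, sum_add_distrib, add_smul, add_assoc]

omit [NumberField K] in
lemma pt_comp (P : Pt A B K) (Q : Fin n → Pt A B K) (G : Fin n → Fin k → ℤ) (m : Fin k → ℤ)
    (H : Fin k → Fin k' → ℤ) (w : Fin k' → ℤ) :
    pt P (pt P Q G m) (fun i j => ∑ l, G i l * H l j) w =
      pt P Q G fun l => m l + ∑ j, H l j * w j := by
  funext i
  simp only [pt, mul_add, sum_add_distrib, add_smul, add_assoc, sum_mul, mul_sum, mul_assoc]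
  rw [sum_comm]

lemma all {P : Pt A B K} {Q : Fin n → Pt A B K} {G : Fin n → Fin k → ℤ} {S : Set (Pl K)}
    {I : Set (MvPolynomial (Fin n × Fin 3) K)} (h : ∀ m, On I (pt P Q G m)) :
    Con I S (Set.range (pt P Q G)) := by
  let φ : (Fin k → ℤ) →+ (Fin n → Pt A B K) := AddMonoidHom.mk'
    (fun m i => (∑ l, G i l * m l) • P) fun m m' => by
      funext i
      simp only [Pi.add_apply, mul_add, sum_add_distrib, add_smul]
  refine ⟨{(Q, φ.range)}, Set.finite_singleton _, ?_, fun a _ ⟨U, h1, h2⟩ =>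
    ⟨_, rfl, U, mem_of_superset h1 ?_, h2⟩⟩
  · rintro _ rfl _ ⟨m, rfl⟩
    exact ⟨⟨m, rfl⟩, h m⟩
  · rintro _ ⟨m, rfl⟩
    exact ⟨m, (add_sub_cancel_left Q (φ m)).symm⟩

lemma move (hDIVO : S_DIVO) (hD : 4 * A ^ 3 + 27 * B ^ 2 ≠ 0) {ι : Type} {l : Filter ι} (v : Pl K)
    (P : Pt A B K) {f : ι → Pt A B K} {a : Loc A B v} (e : ι → ℤ)
    (h : ToO l fun m => loc v (f m) - a) (h' : ∀ N : ℕ, 0 < N → ∀ᶠ i in l, (N : ℤ) ∣ e i) :
    ToO l fun m => loc v (f m + e m • P) - a := by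
  let _ : NontriviallyNormedField (Kv v) :=
    Valued.toNontriviallyNormedField (Kv v) (WithZero (Multiplicative ℤ))
  have h1 : ToO l fun m => e m • loc v P := hDIVO A B (Kv v) ι hD l (loc v P) e h'
  refine toO_congr (toO_add h h1) (.of_forall fun m => ?_)
  simp only [loc, map_add, map_zsmul]
  abel

end COSx

open COSx in
theorem p_COS (hREL : S_REL) (hPROJ : S_PROJ) (hDIVO : S_DIVO) :
    S_COS := by
  intro K _ _ A B hD P hP S hS n I hI k
  induction k using Nat.strong_induction_on with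
  | _ k ih =>
  intro Q₀ G
  by_cases h0 : ∀ m, On I (pt P Q₀ G m)
  · exact all h0
  simp only [on_iff, not_forall] at h0
  obtain ⟨m₀, F, hF, h0⟩ := h0
  obtain ⟨Q, hQ⟩ : ∃ Q, Q = pt P Q₀ G fun l => m₀ l - 1 := ⟨_, rfl⟩
  have hr : Set.range (pt P Q G) = Set.range (pt P Q₀ G) := by
    refine Set.Subset.antisymm ?_ ?_ <;> rintro _ ⟨m, rfl⟩
    · exact ⟨_, by rw [hQ, pt_add]⟩
    · exact ⟨fun l => m l - (m₀ l - 1), by simp only [hQ, pt_add, add_sub_cancel]⟩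
  rw [← hr]
  obtain ⟨E, hE, hE0, hE1⟩ := hREL K A B hD P hP S hS n k F Q G (hI F hF)
    (by simpa only [hQ, pt_add, sub_add_cancel] using h0)
  have key : ∀ e ∈ E, ∃ T : Set ((Fin n → Pt A B K) × AddSubgroup (Fin n → Pt A B K)),
      T.Finite ∧ (∀ t ∈ T, ∀ h ∈ t.2, t.1 + h ∈ Set.range (pt P Q G) ∧ On I (t.1 + h)) ∧
      ∀ a : ∀ v : S, Fin n → Loc A B v.1, (∀ v, On I (a v)) →
        ∀ U : Ultrafilter (Fin k → ℤ), Lim U (pt P Q G) a →
        (∀ N : ℕ, 0 < N → ∀ᶠ m : Fin k → ℤ in U, (N : ℤ) ∣ ∑ l, e.1 l * m l - e.2) →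
        ∃ t ∈ T, Apx {Q | Q - t.1 ∈ t.2} a := by
    intro e he
    obtain ⟨k', hk, H, m₁, p, g, g0, hg⟩ := hPROJ k e.1 e.2 (hE0 e he)
    obtain ⟨T, h1, h2, h3⟩ := ih k' hk (pt P Q G m₁) fun i j => ∑ l, G i l * H l j
    refine ⟨T, h1, fun t ht h hh => ⟨?_, (h2 t ht h hh).2⟩, fun a ha U hU hN => h3 a ha
      (Lim.apx (U := U) (f := fun m => pt P (pt P Q G m₁) (fun i j => ∑ l, G i l * H l j) (p m))
        (fun v i => ?_) (.of_forall fun m => ⟨_, rfl⟩))⟩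
    · obtain ⟨w, hw⟩ := (h2 t ht h hh).1
      exact ⟨_, by rw [← hw, pt_comp]⟩
    · have h4 := move hDIVO hD v.1 P (fun m => ∑ l, G i l * (m₁ l + ∑ j, H l j * p m j - m l))
        (hU v i) fun N N0 => by
          filter_upwards [hN (g * N) (Nat.mul_pos g0 N0)] with m hm
          exact dvd_sum fun l _ => (dvd_sub_comm.1 (hg N m (by exact_mod_cast hm) l)).mul_left _
      have h5 : ∀ m, pt P (pt P Q G m₁) (fun i j => ∑ l, G i l * H l j) (p m) i = pt P Q G m i +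
          (∑ l, G i l * (m₁ l + ∑ j, H l j * p m j - m l)) • P := fun m => by
        rw [pt_comp]
        simp only [pt, mul_sub, sum_sub_distrib, sub_smul]
        abel
      simpa only [h5] using h4
  choose! T h1 h2 h3 using key
  refine ⟨⋃ e ∈ E, T e, hE.biUnion h1, fun t ht => ?_, fun a ha hx => ?_⟩
  · obtain ⟨e, he, ht⟩ := Set.mem_iUnion₂.1 ht
    exact h2 e he t ht
  · obtain ⟨U, hU⟩ := hx.range
    obtain ⟨e, he, hN⟩ := hE1 a U (fun v => ha v F hF) hU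
    obtain ⟨t, ht, h4⟩ := h3 e he a ha U hU hN
    exact ⟨t, Set.mem_iUnion₂.2 ⟨e, he, ht⟩, h4⟩

end Pool.Agent.P.MP_ab3ecb_nt.AM
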