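import Pool.Agent.P.MP_ab3ecb_nt.AM.Iface

/-! Step COV. -/

set_option autoImplicit false

namespace Pool.Agent.P.MP_ab3ecb_nt.AM

open Filter Topology NumberField IsDedekindDomain Finset Real Pool.Agent.P.MP_ab3ecb_nt.TK
open scoped Classical NNReal

namespace COVx

noncomputable def e (θ : ℝ) : ℂ := Complex.exp (Complex.I * (2 * π * θ : ℝ))

theorem norm_e (θ : ℝ) : ‖e θ‖ = 1 := Complex.norm_exp_I_mul_ofReal _

theorem low (θ : ℝ) : 4 * |θ - round θ| ≤ ‖1 - e θ‖ := by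
  have h1 : e θ = e (θ - round θ) := by
    unfold e
    rw [Complex.exp_eq_exp_iff_exists_int]
    exact ⟨round θ, by push_cast; ring⟩
  have h2 := abs_sub_round θ
  have h3 : |2 * π * (θ - round θ) / 2| = π * |θ - round θ| := by
    rw [show 2 * π * (θ - round θ) / 2 = π * (θ - round θ) by ring, abs_mul, abs_of_pos pi_pos]
  have h4 := Real.mul_abs_le_abs_sin (x := 2 * π * (θ - round θ) / 2)
    (by rw [h3]; nlinarith [pi_pos])
  rw [h3, ← mul_assoc, div_mul_cancel₀ _ pi_ne_zero] at h4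
  rw [h1, norm_sub_rev, e, Complex.norm_exp_I_mul_ofReal_sub_one, norm_mul, Real.norm_eq_abs,
    Real.norm_eq_abs, abs_two]
  linarith

theorem geo (θ : ℝ) (N : ℕ) : ‖∑ j ∈ range N, e θ ^ j‖ ^ 2 * ‖1 - e θ‖ ^ 2 ≤ 4 := by
  rw [← mul_pow, ← norm_mul, geom_sum_mul_neg]
  have : ‖1 - e θ ^ N‖ ≤ 2 := (norm_sub_le _ _).trans (by rw [norm_pow, norm_e]; norm_num)
  nlinarith [norm_nonneg (1 - e θ ^ N)]

theorem par (hPAR : S_PAR) {κ : Type} [Fintype κ] {C M : ℕ} {ρ : κ → ℤ} (hM : 0 < M)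
    (h : ∀ ξ : κ → ℤ, (∀ i, |ξ i| ≤ C) → (M : ℤ) ∣ ∑ i, ξ i * ρ i → ξ = 0) (u : κ → ℝ)
    (n : κ → ℕ) (hn : ∀ i, n i ≤ C + 1) :
    ∑ h ∈ range M, ∏ i, ‖∑ j ∈ range (n i), e ((h * ρ i : ℝ) / M - u i) ^ j‖ ^ 2 =
      M * ∏ i, (n i : ℝ) := by
  have h1 := hPAR κ M ρ (Fintype.piFinset fun i => (range (n i)).map Nat.castEmbedding)
    (fun ξ => e (-∑ i, ξ i * u i)) hM fun ξ hξ ξ' hξ' hd => by
      refine sub_eq_zero.1 (h (ξ - ξ') (fun i => ?_) ?_)
      · obtain ⟨a, ha, e1⟩ := mem_map.1 (Fintype.mem_piFinset.1 hξ i)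
        obtain ⟨b, hb, e2⟩ := mem_map.1 (Fintype.mem_piFinset.1 hξ' i)
        have := mem_range.1 ha
        have := mem_range.1 hb
        have := hn i
        rw [Pi.sub_apply, ← e1, ← e2, Nat.castEmbedding_apply, Nat.castEmbedding_apply, abs_le]
        omega
      · simpa only [Pi.sub_apply, sub_mul, sum_sub_distrib] using hd
  simp only [norm_e, one_pow, sum_const, Fintype.card_piFinset, card_map, card_range,
    nsmul_eq_mul, mul_one, Nat.cast_prod] at h1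
  rw [← h1]
  refine sum_congr rfl fun h _ => ?_
  rw [prod_pow, ← norm_prod]
  congr 2
  have h2 : ∀ i, ∑ j ∈ range (n i), e ((h * ρ i : ℝ) / M - u i) ^ j =
      ∑ j ∈ (range (n i)).map (Nat.castEmbedding (R := ℤ)),
        Complex.exp (j * (Complex.I * (2 * π * ((h * ρ i : ℝ) / M - u i) : ℝ))) := fun i => by
    rw [sum_map]
    refine sum_congr rfl fun j _ => ?_
    rw [Nat.castEmbedding_apply, Int.cast_natCast, Complex.exp_nat_mul, e]
  simp only [h2]
  rw [prod_univ_sum]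
  refine sum_congr rfl fun ξ _ => ?_
  rw [← Complex.exp_sum, e, ← Complex.exp_add]
  congr 1
  push_cast
  rw [mul_sum, sum_div, mul_sum, ← sum_neg_distrib, mul_sum, mul_sum, ← sum_add_distrib]
  exact sum_congr rfl fun i _ => by ring

end COVx

theorem p_COV (hPAR : S_PAR) :
    S_COV := by
  intro κ _ ε hε
  obtain ⟨C, hC⟩ := exists_nat_ge ((Fintype.card κ : ℝ) / (4 * ε ^ 2))
  refine ⟨C, fun M ρ hM h u => ?_⟩
  by_contra hn
  push Not at hn
  have hM' : (0 : ℝ) < M := by exact_mod_cast hM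
  set D : ℕ → κ → ℕ → ℝ := fun m i a =>
    ‖∑ j ∈ range m, COVx.e ((a * ρ i : ℝ) / M - u i) ^ j‖ ^ 2 with hD
  have D0 : ∀ m i a, 0 ≤ D m i a := fun _ _ _ => sq_nonneg _
  have h1 : ∑ a ∈ range M, ∏ i, D (C + 1) i a = M * ∏ _ : κ, ((C + 1 : ℕ) : ℝ) :=
    COVx.par hPAR hM h u (fun _ => C + 1) fun _ => le_rfl
  have h2 : ∀ i, (∑ a ∈ range M, ∏ j ∈ univ.erase i, D (C + 1) j a) * ((C + 1 : ℕ) : ℝ) =
      M * ∏ _ : κ, ((C + 1 : ℕ) : ℝ) := fun i => by
    have h3 : ∑ a ∈ range M, ∏ j, D (if j = i then 1 else C + 1) j a = _ :=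
      COVx.par hPAR hM h u (fun j => if j = i then 1 else C + 1) fun j => by
        split_ifs <;> omega
    rw [← prod_erase_mul _ _ (mem_univ i), if_pos rfl, Nat.cast_one, mul_one,
      prod_congr rfl fun j hj => by rw [if_neg (ne_of_mem_erase hj)]] at h3
    rw [← prod_erase_mul _ _ (mem_univ i), ← mul_assoc, ← h3]
    congr 1
    refine sum_congr rfl fun a _ => ?_
    rw [← prod_erase_mul _ _ (mem_univ i), if_pos rfl, show D 1 i a = 1 by simp [hD], mul_one]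
    exact prod_congr rfl fun j hj => by rw [if_neg (ne_of_mem_erase hj)]
  have h4 : ∀ a ∈ range M, 4 * ε ^ 2 * ∏ i, D (C + 1) i a ≤
      ∑ i, ∏ j ∈ univ.erase i, D (C + 1) j a := fun a _ => by
    obtain ⟨i, hi⟩ := hn a fun i => round ((a * ρ i : ℝ) / M - u i)
    refine le_trans ?_ (single_le_sum (f := fun i => ∏ j ∈ univ.erase i, D (C + 1) j a)
      (fun i _ => prod_nonneg fun j _ => D0 _ _ _) (mem_univ i))
    rw [← mul_prod_erase _ _ (mem_univ i), ← mul_assoc]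
    refine mul_le_of_le_one_left (prod_nonneg fun j _ => D0 _ _ _) ?_
    have h5 := COVx.low ((a * ρ i : ℝ) / M - u i)
    have h6 : D (C + 1) i a * _ ≤ 4 := COVx.geo ((a * ρ i : ℝ) / M - u i) (C + 1)
    rw [sub_right_comm, Int.cast_natCast] at hi
    have h7 : (4 * ε) ^ 2 ≤ ‖1 - COVx.e ((a * ρ i : ℝ) / M - u i)‖ ^ 2 :=
      pow_le_pow_left₀ (by positivity) (by linarith) 2
    have h8 := mul_le_mul_of_nonneg_left h7 (D0 (C + 1) i a)
    linarith
  have h5 := mul_le_mul_of_nonneg_right (sum_le_sum h4) (Nat.cast_nonneg (α := ℝ) (C + 1))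
  rw [← mul_sum, h1, sum_comm, sum_mul] at h5
  simp only [h2] at h5
  rw [sum_const, card_univ, nsmul_eq_mul, mul_right_comm] at h5
  have h6 := le_of_mul_le_mul_right h5 (by positivity)
  rw [div_le_iff₀ (by positivity)] at hC
  push_cast at h6
  nlinarith [sq_pos_of_pos hε]

end Pool.Agent.P.MP_ab3ecb_nt.AM
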