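import Pool.Agent.P.MP_ab3ecb_nt.AM.Iface

/-! Step DEEP. -/

set_option autoImplicit false

namespace Pool.Agent.P.MP_ab3ecb_nt.AM

open Filter Topology NumberField IsDedekindDomain Finset Real Pool.Agent.P.MP_ab3ecb_nt.TK
open scoped Classical NNReal

namespace DEEPx

lemma dv {L : Type} [Field L] (w : Valuation L ℝ≥0) {a b : ℤ} (h : a ∣ b) : w b ≤ w a := by
  obtain ⟨c, rfl⟩ := h
  rw [Int.cast_mul, map_mul]
  exact mul_le_of_le_one_right' (v_z w c)

lemma pw {θ Λ : ℝ≥0} (h0 : 0 < θ) (h1 : θ ≤ 1) {a n : ℕ} (h : a ≤ n) :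
    Λ ^ n / θ ^ a ≤ (Λ / θ) ^ n := by
  rw [div_pow]
  exact div_le_div_of_nonneg_left zero_le (pow_pos h0 n) (pow_le_pow_of_le_one zero_le h1 h)

end DEEPx

theorem p_DEEP (hLIP : S_LIP) (hDIVL : S_DIVL) (hLOCB : S_LOCB) :
    S_DEEP := by
  intro R _ _ _ _ A B L _ _ _ _ _ _ hD w k c P Λ hP h1 hΛ hT hs
  have hE : E1 w ((c.M : ℤ) • P) := .inr hT
  have z1 := hE.Z_lt
  have z2 := v_Z hT
  have z0 : 0 < w (Z ((c.M : ℤ) • P)) := w.pos_iff.2 (Z_ne hT)
  have t0 : 0 < w (c.τ : L) := w.pos_iff.2 (Int.cast_ne_zero.2 c.τ_ne)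
  have t1 : w (c.τ : L) ≤ 1 := v_z w _
  have t2 : ∀ j, w (c.τ : L) ≤ w (c.t j : L) := fun j => by
    rw [← Int.cast_natCast]
    exact DEEPx.dv w ((dvd_prod_of_mem (fun j => (c.t j : ℤ)) (mem_univ j)).mul_left _)
  have t3 : w (c.τ : L) ≤ w ((2 * c.β.det : ℤ) : L) := DEEPx.dv w (dvd_mul_right _ _)
  have sT := hE.sm
  generalize hζ : w (Z ((c.M : ℤ) • P)) = ζ at z0 z1 z2 hs sT ⊢
  generalize w (c.τ : L) = θ at t0 t1 t2 t3 hs ⊢
  have x0 : 0 < w (X ((c.M : ℤ) • P)) := zero_lt_one.trans hT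
  have hQ : ∀ j, ∃ Q : Pt A B L, c.In P (j, Q) ∧ Sm w (ζ / θ) Q := fun j => by
    have a : 1 < w (X ((c.M : ℤ) • P)) * w (c.t j : L) ^ 3 := by
      rw [← z2, mul_comm]
      refine mul_lt_mul_of_pos_left (lt_of_le_of_lt ?_ (hs.trans_le (pow_le_pow_left' (t2 j) 3))) x0
      rw [sq]
      exact mul_le_mul_right (z1.le.trans h1) _
    obtain ⟨Q, b1, b2⟩ := hDIVL A B L hD w _ _ (c.ht j) a
    have b3 : 1 < w (X Q) := by
      refine a.trans_le (le_trans ?_ b2)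
      rw [mul_comm]
      exact mul_le_mul_left (pow_le_pow_of_le_one zero_le (by simpa using v_z w (c.t j))
        (by norm_num)) _
    refine ⟨Q, b1, .inr b3, ?_⟩
    rw [le_div_iff₀ t0]
    refine le_of_pow_le_pow_left₀ two_ne_zero zero_le (le_of_mul_le_mul_right ?_ x0)
    rw [z2, ← v_Z b3, mul_pow, mul_assoc]
    exact mul_le_mul_right ((mul_le_mul_left (pow_le_pow_left' (t2 j) 2) _).trans b2) _
  choose Q hQ sQ using hQ
  have c1 : ζ / θ * Λ ≤ 1 := by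
    rw [div_mul_eq_mul_div, div_le_one t0]
    exact hs.le.trans (pow_le_of_le_one zero_le t1 (by norm_num))
  replace sT : Sm w (ζ / θ) ((c.M : ℤ) • P) :=
    sT.mono ((le_div_iff₀ t0).2 (mul_le_of_le_one_right' t1))
  have y0 : ∀ j l, c.y P (j, Q j) l ≠ 0 := fun j l => by
    simpa using nt_ne ((hQ j).nt hP l) one_ne_zero
  have yd : ∀ j l, c.y P (j, Q j) l - c.y P (0, Q 0) l = c.u j l • Q j - c.u 0 l • Q 0 :=
    fun j l => add_sub_add_left_eq_sub _ _ _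
  refine ⟨Q, hQ, fun f hf j l => ?_, fun g hg j => ?_⟩
  · have a := hLOCB A B L w k _ (fun j l => c.y P (j, Q j) l) (fun j => c.t 0 * c.t j.succ) c.β _ Λ
      f sT h1 c1 y0 (fun j => hΛ _ (hQ j))
      (fun j l => by rw [yd]; exact sm_sub (sm_zsmul (sQ _) _) (sm_zsmul (sQ _) _))
      (fun j l => by
        have e0 : (c.t 0 : ℤ) • Q 0 = (c.M : ℤ) • P := hQ 0
        have e1 : (c.t j.succ : ℤ) • Q j.succ = (c.M : ℤ) • P := hQ j.succ
        rw [yd, Cfg.β, Matrix.of_apply, sub_smul, smul_sub]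
        congr 1
        · rw [← e1, smul_smul, smul_smul, mul_right_comm]
        · rw [← e0, smul_smul, smul_smul, mul_rotate]) hf j l
    rw [hζ] at a
    have b := (le_div_iff₀ (mul_pos z0 t0)).2
      ((mul_le_mul_right (mul_le_mul_right t3 _) _).trans a)
    have e : (ζ / θ) ^ 2 * Λ ^ (f.totalDegree + 6) / (ζ * θ) =
        ζ * (Λ ^ (f.totalDegree + 6) / θ ^ 3) := by
      field_simp
    rw [e] at b
    exact_mod_cast b.trans (mul_le_mul_right (DEEPx.pw t0 t1 (by omega)) _)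
  · obtain ⟨m, hm, hc⟩ := hg ((Λ + 1 + θ / ζ : ℝ≥0) : ℝ)
    have a : ∀ l, m l • P ≠ 0 ∧
        w (X (m l • P) - X (c.y P (j, Q j) l)) ≤ ζ / θ * Λ ^ 2 := fun l => by
      obtain ⟨e, he⟩ := hm l
      have s := sm_sub (sm_zsmul sT e) (sm_zsmul (sQ j) (c.u j l))
      have b := cl (y0 j l) h1 (hΛ _ (hQ j) l) s.1 ((mul_le_mul_left s.2 _).trans c1)
      rw [show c.y P (j, Q j) l + (e • (c.M : ℤ) • P - c.u j l • Q j) = m l • P by
        rw [Cfg.y, add_add_sub_cancel, smul_smul, ← add_smul, mul_comm, ← he, add_sub_cancel]] at b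
      exact ⟨b.1, b.2.1.trans (mul_le_mul_left s.2 _)⟩
    have a2 : ∀ l, w (X (m l • P)) ≤ Λ := fun l => by
      rw [← sub_add_cancel (X (m l • P)) (X (c.y P (j, Q j) l))]
      refine w.map_add_le ((a l).2.trans ?_) (hΛ _ (hQ j) l)
      rw [sq, ← mul_assoc]
      exact mul_le_of_le_one_left' c1
    rcases hc with ⟨l, hc | hc⟩ | hc
    · exact absurd hc (a l).1
    · exact absurd ((NNReal.coe_le_coe.1 hc).trans (a2 l))
        (not_le.2 ((lt_add_one Λ).trans_le le_self_add))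
    have b1 : w (MvPolynomial.aeval (fun l => X (m l • P)) g) ≤ ζ / θ := by
      have b2 : (Λ + 1 + θ / ζ) * w (MvPolynomial.aeval (fun l => X (m l • P)) g) ≤ 1 := by
        exact_mod_cast hc
      have b3 := (mul_le_mul_left le_add_self _).trans b2
      rwa [div_mul_eq_mul_div, div_le_one z0, mul_comm, ← le_div_iff₀ t0] at b3
    have b4 := (hLIP L w k g _ Λ _ _ _ le_rfl h1 (hΛ _ (hQ j)) a2 fun l => (a l).2).2.1
    have b5 : ζ / θ * Λ ^ (g.totalDegree + 2) ≤ ζ * (Λ / θ) ^ (g.totalDegree + 2) := by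
      rw [div_mul_comm, mul_comm, ← pow_one θ]
      exact mul_le_mul_right (by simpa using DEEPx.pw (a := 1) t0 t1 (by omega)) _
    rw [← sub_sub_cancel (MvPolynomial.aeval (fun l => X (m l • P)) g)
      (MvPolynomial.aeval (fun l => X (c.y P (j, Q j) l)) g)]
    refine le_trans (w.map_sub_le (b1.trans (le_mul_of_one_le_right' (one_le_pow₀ h1)))
      (b4.trans_eq ?_)) b5
    ring

end Pool.Agent.P.MP_ab3ecb_nt.AM
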