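import Pool.Agent.P.MP_ab3ecb_nt.AM.Iface

/-! Step DIVL. -/

set_option autoImplicit false

namespace Pool.Agent.P.MP_ab3ecb_nt.AM

open Filter Topology NumberField IsDedekindDomain Finset Real Pool.Agent.P.MP_ab3ecb_nt.TK
open scoped Classical NNReal

namespace DIVLx

variable {L : Type} [Field L] (w : Valuation L ℝ≥0)

lemma same [IsAlgClosed L] (p : Polynomial L) {β : ℝ≥0} (h : ∀ a, p.eval a = 0 → w a < β)
    {x y : L} (hx : w x = β) (hy : w y = β) : w (p.eval x) = w (p.eval y) := by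
  have e : ∀ x : L, w x = β → ∀ a ∈ p.roots, w (x - a) = β := fun x hx a ha => by
    rw [w.map_sub_eq_of_lt_left (hx ▸ h a (Polynomial.isRoot_of_mem_roots ha)), hx]
  rw [(IsAlgClosed.splits p).eval_eq_prod_roots, (IsAlgClosed.splits p).eval_eq_prod_roots,
    map_mul, map_mul, map_multiset_prod, map_multiset_prod, Multiset.map_map, Multiset.map_map]
  congr 2
  exact Multiset.map_congr rfl fun a ha => (e x hx a ha).trans (e y hy a ha).symm

lemma unit [IsAlgClosed L] : ∃ u : L, w u = 1 ∧ w (u - 1) = 1 := by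
  obtain ⟨u, hu⟩ := IsAlgClosed.exists_root
    (Polynomial.C 1 * Polynomial.X ^ 2 + Polynomial.C (-1) * Polynomial.X + Polynomial.C (-1) :
      Polynomial L) (by rw [Polynomial.degree_quadratic one_ne_zero]; norm_num)
  have h1 : u * (u - 1) = 1 := by
    have h2 := hu.eq_zero
    simp only [Polynomial.eval_add, Polynomial.eval_mul, Polynomial.eval_C, Polynomial.eval_pow,
      Polynomial.eval_X] at h2
    linear_combination h2
  have h2 : w u * w (u - 1) = 1 := by rw [← map_mul, h1, map_one]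
  have h3 : w u = 1 := by
    rcases lt_trichotomy (w u) 1 with h | h | h
    · rw [w.map_sub_eq_of_lt_right (by rwa [map_one]), map_one, mul_one] at h2
      exact h2
    · exact h
    · rw [w.map_sub_eq_of_lt_left (by rwa [map_one])] at h2
      exact absurd h2 (one_lt_mul'' h h).ne'
  exact ⟨u, h3, by rwa [h3, one_mul] at h2⟩

variable {R : Type} [CommRing R] [Algebra.IsIntegral ℤ R] {A B : R} [Algebra R L]

lemma xz {P : Pt A B L} (h : 1 < w (X P)) : w (X P * Z P ^ 2 - 1) < 1 := by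
  have h0 : P ≠ 0 := fun h0 => by simp [h0] at h
  have h1 := Y_ne h
  have e : X P * Z P ^ 2 - 1 = -(A * X P + B) / Y P ^ 2 := by
    rw [Z, eq_div_iff (pow_ne_zero 2 h1)]
    field_simp
    linear_combination -eqn h0
  have h2 : w (X P) < w (X P) ^ 3 := by
    simpa using pow_lt_pow_right₀ h (show 1 < 3 by norm_num)
  rw [e, map_div₀, map_pow, v_Y h, div_lt_one (zero_le.trans_lt h2), w.map_neg]
  refine w.map_add_lt (lt_of_le_of_lt ?_ h2) ((v_int w B).trans_lt (h.trans h2))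
  rw [map_mul]
  exact mul_le_of_le_one_left' (v_int w A)

variable [DecidableEq L]

lemma big {Q : Pt A B L} {t : ℕ} (h : 1 < w (X Q) * w t) :
    (t : ℤ) • Q ≠ 0 ∧ w (t ^ 2 * X ((t : ℤ) • Q) - X Q) < w (X Q) := by
  have ht : w t ≤ 1 := by simpa using v_z w t
  have h1 : 1 < w (X Q) := h.trans_le (mul_le_of_le_one_right' ht)
  have hE : E1 w Q := .inr h1
  have hz := v_Z h1
  have hz0 : 0 < w (Z Q) := w.pos_iff.2 (Z_ne h1)
  have h2 : w (Z Q) ^ 2 < w t := by
    have h3 := mul_lt_mul_of_pos_left h (pow_pos hz0 2)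
    rwa [mul_one, ← mul_assoc, hz, one_mul] at h3
  have h3 : w (Z ((t : ℤ) • Q) - t * Z Q) < w (t * Z Q) := by
    have h4 := z_zsmul hE t
    rw [Int.cast_natCast] at h4
    refine (h4.trans (pow_le_pow_of_le_one zero_le hE.Z_lt.le (show 3 ≤ 5 by norm_num))).trans_lt ?_
    rw [map_mul, pow_succ]
    exact mul_lt_mul_of_pos_right h2 hz0
  have h4 : w (Z ((t : ℤ) • Q)) = w (t * Z Q) := w.map_eq_of_sub_lt h3
  have h5 : (t : ℤ) • Q ≠ 0 := fun h0 => by
    rw [← h4, h0, Z_zero, map_zero] at h3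
    exact not_lt_zero h3
  have h6 : 1 < w (X ((t : ℤ) • Q)) := (sm_zsmul hE.sm t).1.resolve_left h5
  refine ⟨h5, ?_⟩
  have h7 := v_Z h6
  have h8 := xz w h6
  generalize (t : ℤ) • Q = Q' at h3 h4 h6 h7 h8
  have h9 : w ((t ^ 2 * X Q' - X Q) * Z Q ^ 2) < 1 := by
    rw [show (t ^ 2 * X Q' - X Q) * Z Q ^ 2 = X Q' * Z Q' ^ 2 - 1 - (X Q * Z Q ^ 2 - 1) -
      (Z Q' - t * Z Q) * (Z Q' + t * Z Q) * X Q' by ring]
    refine w.map_sub_lt (w.map_sub_lt h8 (xz w h1)) ?_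
    rw [map_mul, map_mul, ← h7, sq]
    refine mul_lt_mul_of_pos_right ?_ (zero_lt_one.trans h6)
    exact (mul_le_mul_right (w.map_add_le le_rfl h4.ge) _).trans_lt
      (mul_lt_mul_of_pos_right (h4 ▸ h3) (h4 ▸ zero_le.trans_lt h3))
  rw [map_mul, map_pow, ← hz, mul_comm] at h9
  exact lt_of_mul_lt_mul_left h9 zero_le

end DIVLx

open DIVLx in
theorem p_DIVL (hLADD : S_LADD) (hLADI : S_LADI) :
    S_DIVL := by
  intro R _ _ A B L _ _ _ _ _ _ hD w T t ht h
  by_contra hn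
  push Not at hn
  obtain ⟨φ, ψ, hl, -⟩ := hLADD A B t ht
  have hT : T ≠ 0 := fun h0 => by simp [h0] at h
  have hb : ∀ Q : Pt A B L, w t ^ 2 * w (X T) ≤ w (X Q) → 1 < w (X Q) * w t := fun Q hQ =>
    (h.trans_eq (by ring)).trans_le (mul_le_mul_left hQ (w t))
  have hp : ∀ x : L, ∃ Q : Pt A B L, X Q = x ∧
      Rp ((φ.map (algebraMap R L)).eval x, (ψ.map (algebraMap R L)).eval x) ((t : ℤ) • Q) :=
    fun x => by
      obtain ⟨Q, h0, rfl⟩ := exists_X hD x
      refine ⟨Q, rfl, hLADI A B L hD Q t _ h0 ?_⟩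
      rw [Polynomial.eval_map_algebraMap, Polynomial.eval_map_algebraMap]
      exact hl.aeval _
  generalize φ.map (algebraMap R L) = Φ at hp
  generalize ψ.map (algebraMap R L) = Ψ at hp
  have r1 : ∀ a, Ψ.eval a = 0 → w a < w t ^ 2 * w (X T) := fun a ha => by
    obtain ⟨Q, rfl, h1⟩ := hp a
    exact lt_of_not_ge fun h2 => (h1.ne (big w (hb Q h2)).1).1 ha
  have r2 : ∀ a, (Φ - Polynomial.C (X T) * Ψ).eval a = 0 → w a < w t ^ 2 * w (X T) :=
    fun a ha => by
      obtain ⟨Q, rfl, h1⟩ := hp a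
      refine lt_of_not_ge fun h2 => ?_
      have h3 := (big w (hb Q h2)).1
      obtain ⟨h4, h5⟩ := h1.ne h3
      rw [Polynomial.eval_sub, Polynomial.eval_mul, Polynomial.eval_C] at ha
      rcases eq_or_neg h3 hT (mul_left_cancel₀ h4 (by linear_combination ha - h5)) with h6 | h6
      · exact (hn Q h6).not_ge h2
      · exact (hn (-Q) (by rw [smul_neg, h6, neg_neg])).not_ge (by rwa [X_neg])
  have key : ∀ x, w x = w t ^ 2 * w (X T) → ∃ y : L, w (t ^ 2 * y - x) < w t ^ 2 * w (X T) ∧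
      Ψ.eval x ≠ 0 ∧ (Φ - Polynomial.C (X T) * Ψ).eval x = Ψ.eval x * (y - X T) := fun x hx => by
    obtain ⟨Q, rfl, h1⟩ := hp x
    obtain ⟨h2, h3⟩ := big w (hb Q hx.ge)
    obtain ⟨h4, h5⟩ := h1.ne h2
    refine ⟨_, hx ▸ h3, h4, ?_⟩
    rw [Polynomial.eval_sub, Polynomial.eval_mul, Polynomial.eval_C]
    linear_combination h5
  obtain ⟨u, u1, u2⟩ := unit w
  have x0 : w (t ^ 2 * X T) = w t ^ 2 * w (X T) := by rw [map_mul, map_pow]
  have x1 : w (u * (t ^ 2 * X T)) = w t ^ 2 * w (X T) := by rw [map_mul, u1, one_mul, x0]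
  obtain ⟨y0, a0, b0, c0⟩ := key _ x0
  obtain ⟨y1, a1, -, c1⟩ := key _ x1
  have e1 := same w _ r2 x0 x1
  rw [c0, c1, map_mul w (Ψ.eval _), map_mul w (Ψ.eval _), ← same w _ r1 x0 x1] at e1
  have e2 := mul_left_cancel₀ ((map_ne_zero w).2 b0) e1
  have e3 : w ((u - 1) * (t ^ 2 * X T)) = w t ^ 2 * w (X T) := by rw [map_mul, u2, one_mul, x0]
  have e4 := w.map_add_eq_of_lt_right (a1.trans_eq e3.symm)
  rw [e3, show t ^ 2 * y1 - u * (t ^ 2 * X T) + (u - 1) * (t ^ 2 * X T) = t ^ 2 * (y1 - X T) by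
    ring, map_mul, ← e2, ← map_mul, mul_sub] at e4
  exact a0.ne e4

end Pool.Agent.P.MP_ab3ecb_nt.AM
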