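import Pool.Agent.P.MP_ab3ecb_nt.AM.Iface

/-! Step DIVO. -/

set_option autoImplicit false

namespace Pool.Agent.P.MP_ab3ecb_nt.AM

open Filter Topology NumberField IsDedekindDomain Finset Real Pool.Agent.P.MP_ab3ecb_nt.TK
open scoped Classical NNReal

theorem p_DIVO (hULIM : S_ULIM) :
    S_DIVO := by
  intro R _ _ A B L ι _ _ _ _ _ _ _ hD l Q e he
  refine toO_iff.2 fun c hc => ?_
  obtain ⟨z, hz⟩ := hULIM A B L ℕ hD (hyperfilter ℕ) fun n => (n : ℤ) • Q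
  have h1 := toO_iff.1 hz c hc
  have h2 : {n : ℕ | Sm (NormedField.valuation (K := L)) c ((n : ℤ) • Q - z)}.Infinite :=
    fun hf => notMem_hyperfilter_of_finite hf h1
  obtain ⟨n, hn⟩ := h2.nonempty
  obtain ⟨m, hm, hnm⟩ := h2.exists_gt n
  have h3 := sm_sub hm hn
  rw [sub_sub_sub_cancel_right, ← sub_smul] at h3
  filter_upwards [he (m - n) (Nat.sub_pos_of_lt hnm)] with i hi
  obtain ⟨j, hj⟩ := hi
  rw [hj, mul_comm, mul_smul, Nat.cast_sub hnm.le]
  exact sm_zsmul h3 j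

end Pool.Agent.P.MP_ab3ecb_nt.AM
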