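import Pool.Agent.P.MP_ab3ecb_nt.AM.Iface

/-! Step EVB. -/

set_option autoImplicit false

namespace Pool.Agent.P.MP_ab3ecb_nt.AM

open Filter Topology NumberField IsDedekindDomain Finset Real Pool.Agent.P.MP_ab3ecb_nt.TK
open scoped Classical NNReal

theorem p_EVB :
    S_EVB := by
  intro K _ _ W σ _ p
  choose c c1 hc using W.int
  have h1 : (1 : ℝ) ≤ ∏ m ∈ p.support, c (p.coeff m) :=
    Finset.one_le_prod (fun m _ => c1 _)
  have h2 : ∀ m ∈ p.support, c (p.coeff m) ≤ ∏ m ∈ p.support, c (p.coeff m) := fun m hm => by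
    rw [← mul_prod_erase _ _ hm]
    exact le_mul_of_one_le_right (zero_le_one.trans (c1 _)) (Finset.one_le_prod fun m _ => c1 _)
  generalize ∏ m ∈ p.support, c (p.coeff m) = c0 at h1 h2
  refine ⟨(1 + #p.support) * c0, one_le_mul_of_one_le_of_one_le (by simp) h1, fun i x => ?_⟩
  have h3 : (1 : ℝ) ≤ ∏ l, max 1 (W.ab i (x l)) := Finset.one_le_prod fun l _ => le_max_left _ _
  have h4 : ∀ l, W.ab i (x l) ≤ ∏ l, max 1 (W.ab i (x l)) := fun l => by
    rw [← mul_prod_erase _ _ (mem_univ l)]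
    exact (le_max_right _ _).trans (le_mul_of_one_le_right (by positivity)
      (Finset.one_le_prod fun m _ => le_max_left _ _))
  generalize ∏ l, max 1 (W.ab i (x l)) = Y at h3 h4
  rw [MvPolynomial.aeval_def, MvPolynomial.eval₂_eq']
  refine (W.sum_le i _ _ (b := c0 ^ W.th i * Y ^ p.totalDegree) (by positivity)
    fun m hm => ?_).trans ?_
  · rw [map_mul, map_prod]
    refine mul_le_mul ((hc _ i).trans (pow_le_pow_left₀ (zero_le_one.trans (c1 _)) (h2 m hm) _))
      ?_ (prod_nonneg fun _ _ => (W.ab i).nonneg _) (by positivity)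
    calc ∏ l, W.ab i (x l ^ m l) ≤ ∏ l, Y ^ m l := prod_le_prod (fun _ _ => (W.ab i).nonneg _)
          fun l _ => by
            rw [map_pow]
            exact pow_le_pow_left₀ ((W.ab i).nonneg _) (h4 l) _
      _ ≤ _ := by
        rw [prod_pow_eq_pow_sum]
        refine pow_le_pow_right₀ h3 (le_trans (le_of_eq ?_) (MvPolynomial.le_totalDegree hm))
        exact (Finsupp.sum_fintype m (fun _ e => e) fun _ => rfl).symm
  · rw [mul_pow, mul_assoc]
    gcongr
    linarith

end Pool.Agent.P.MP_ab3ecb_nt.AM
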