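import Pool.Agent.P.MP_ab3ecb_nt.AM.Iface

/-! Step FIN. -/

set_option autoImplicit false

namespace Pool.Agent.P.MP_ab3ecb_nt.AM

open Filter Topology NumberField IsDedekindDomain Finset Real Pool.Agent.P.MP_ab3ecb_nt.TK
open scoped Classical NNReal

theorem p_FIN :
    S_FIN := by
  intro K _ _ A B hD P h S hS
  have := ell (L := K) hD
  have h0 : ¬ IsOfFinAddOrder P := fun h1 =>
    let ⟨n, h2, h3⟩ := isOfFinAddOrder_iff_zsmul_eq_zero.1 h1
    h2 (h n h3)
  obtain ⟨q, C, h1, h2⟩ := R1.H.can _ P h0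
  refine ⟨q, h1, fun N hN => ?_⟩
  have := hS.to_subtype
  obtain ⟨C', M, h3⟩ := R1.H.fin_lower _ h0 h2 (fun v : ↥Sᶜ => nv v.1)
    (fun v => R1.H.arch_far _ (algebraMap K (Kv v.1))) hN
  refine ⟨C' + #hS.toFinset * log⁺ M, fun J => ?_⟩
  obtain ⟨n, k1, k2, x, y, k3, k4, k5, k6⟩ := h3 J
  have e : ∑ᶠ v : FinitePlace K, log⁺ (v x) = ∑ᶠ v : Pl K, log⁺ (nv v x) :=
    (finsum_comp_equiv FinitePlace.equivHeightOneSpectrum.symm).symm
  have f : (Function.support fun v : Pl K => log⁺ (nv v x)).Finite := by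
    by_cases hx : x = 0
    · simp [hx, nv]
    · refine ((FinitePlace.hasFiniteMulSupport hx).preimage
        FinitePlace.equivHeightOneSpectrum.symm.injective.injOn).subset fun v hv h1 => hv ?_
      have : nv v x = 1 := h1
      simp [this]
  refine ⟨n, k1, k2, f.toFinset.filter (· ∈ S), fun v hv => (mem_filter.1 hv).2, ?_⟩
  rw [e, finsum_eq_sum _ f, ← sum_filter_add_sum_filter_not _ (· ∈ S)] at k5
  have k7 : ∑ v ∈ f.toFinset with v ∉ S, log⁺ (nv v x) ≤ #hS.toFinset * log⁺ M := by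
    refine (sum_le_card_nsmul _ _ (log⁺ M) fun v hv => posLog_le_posLog (norm_nonneg _)
      (k6 ⟨v, (mem_filter.1 hv).2⟩)).trans ?_
    rw [nsmul_eq_mul]
    refine mul_le_mul_of_nonneg_right (Nat.cast_le.2 (card_le_card fun v hv => ?_)) posLog_nonneg
    exact hS.mem_toFinset.2 (mem_filter.1 hv).2
  have k8 : X ((n : ℤ) • P) = x := by rw [k4]; rfl
  rw [k8]
  linarith

end Pool.Agent.P.MP_ab3ecb_nt.AM
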