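import Pool.Agent.P.MP_ab3ecb_nt.AM.Iface

/-! Step GAL. -/

set_option autoImplicit false

namespace Pool.Agent.P.MP_ab3ecb_nt.AM

open Filter Topology NumberField IsDedekindDomain Finset Real Pool.Agent.P.MP_ab3ecb_nt.TK
open scoped Classical NNReal

theorem p_GAL :
    S_GAL := by
  intro K _ _ α σ J x φ hG hφ
  set F := J.filter (fun a => φ (x a) ≠ 0) with hF
  have hfix : ∀ τ : Om K ≃ₐ[K] Om K, τ (∏ a ∈ F, φ (x a)) = ∏ a ∈ F, φ (x a) := by
    intro τ
    obtain ⟨e, he, hJ⟩ := hG τ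
    have h1 : ∀ a ∈ J, φ (x (e a)) = τ (φ (x a)) := by
      intro a ha
      rw [← hφ]
      congr 1
      funext l
      exact (hJ a ha).2 l
    have hmap : ∀ a ∈ F, e a ∈ F := by
      intro a ha
      rw [hF, mem_filter] at ha ⊢
      refine ⟨(hJ a ha.1).1, ?_⟩
      rw [h1 a ha.1]
      exact (map_ne_zero τ).2 ha.2
    have himg : F.image e = F := by
      apply eq_of_subset_of_card_le
      · intro b hb
        obtain ⟨a, ha, rfl⟩ := mem_image.1 hb
        exact hmap a ha
      · rw [card_image_of_injective _ he]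
    rw [map_prod]
    calc ∏ a ∈ F, τ (φ (x a)) = ∏ a ∈ F, φ (x (e a)) :=
          prod_congr rfl fun a ha => (h1 a (mem_filter.1 ha).1).symm
      _ = ∏ b ∈ F.image e, φ (x b) := by
          rw [prod_image fun a _ b _ h => he h]
      _ = _ := by rw [himg]
  have : IsGalois K (Om K) := {}
  obtain ⟨z, hz⟩ := (InfiniteGalois.mem_range_algebraMap_iff_fixed _).2 hfix
  refine ⟨z, ?_, hz⟩
  rintro rfl
  rw [map_zero] at hz
  exact (prod_ne_zero_iff.2 fun a ha => (mem_filter.1 ha).2) hz.symm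

end Pool.Agent.P.MP_ab3ecb_nt.AM
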