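import Pool.Agent.P.MP_ab3ecb_nt.AM.Iface

/-! Step GLOB. -/

set_option autoImplicit false

namespace Pool.Agent.P.MP_ab3ecb_nt.AM

open Filter Topology NumberField IsDedekindDomain Finset Real Pool.Agent.P.MP_ab3ecb_nt.TK
open scoped Classical NNReal

namespace GLOBx

variable {K : Type} [Field K] {A B : 𝓞 K} {k : ℕ}

/-- The action of an automorphism on the points. -/
noncomputable def act (τ : Om K ≃ₐ[K] Om K) : Pt A B (Om K) →+ Pt A B (Om K) :=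
  pm (τ.toAlgHom.restrictScalars (𝓞 K))

lemma act_bc (τ : Om K ≃ₐ[K] Om K) (P : Pt A B K) : act τ (bc (Om K) P) = bc (Om K) P :=
  pm_bc _ (fun x => τ.commutes x) P

lemma act_inj (τ : Om K ≃ₐ[K] Om K) : Function.Injective (act (A := A) (B := B) τ) :=
  pm_injective _

lemma X_act (τ : Om K ≃ₐ[K] Om K) (Q : Pt A B (Om K)) : X (act τ Q) = τ (X Q) := X_pm _ _

lemma act_in (τ : Om K ≃ₐ[K] Om K) {c : Cfg k} {P : Pt A B K} {j : Fin (k + 1)}
    {Q : Pt A B (Om K)} (h : c.In (bc (Om K) P) (j, Q)) : c.In (bc (Om K) P) (j, act τ Q) := by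
  have h1 := congrArg (act τ) h
  rw [map_zsmul, map_zsmul, act_bc] at h1
  exact h1

lemma act_y (τ : Om K ≃ₐ[K] Om K) (c : Cfg k) (P : Pt A B K) (j : Fin (k + 1))
    (Q : Pt A B (Om K)) (l : Fin k) :
    X (c.y (bc (Om K) P) (j, act τ Q) l) = τ (X (c.y (bc (Om K) P) (j, Q) l)) := by
  rw [← X_act, Cfg.y, Cfg.y, map_add, map_zsmul, map_zsmul, act_bc]

end GLOBx

open GLOBx in
theorem p_GLOB (hCNT : S_CNT) (hHB : S_HB) (hCAN : S_CAN) :
    S_GLOB := by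
  intro K _ _ W A B hD P hP k
  obtain ⟨C1, hC1, h1⟩ := hHB K W A B hD
  obtain ⟨C2, hC2, h2⟩ := hCAN K A B hD P hP
  refine ⟨4 * (k + 1) + (k + 1) * (k * (4 * (C1 + C2))), by positivity, fun c L hL => ?_⟩
  have hM : (c.M : ℤ) ≠ 0 := by exact_mod_cast c.hM.ne'
  choose T hT hc using fun j : Fin (k + 1) => hCNT A B (Om K) hD ((c.M : ℤ) • bc (Om K) P) (c.t j)
    (nt_zsmul (nt_bc hP) hM) (c.ht j)
  have hT' : ∀ j Q, Q ∈ T j ↔ c.In (bc (Om K) P) (j, Q) := hT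
  obtain ⟨J, hJ⟩ : ∃ J : Finset (Fin (k + 1) × Pt A B (Om K)),
      ∀ a, a ∈ J ↔ a.1 ∈ (univ : Finset (Fin (k + 1))) ∧ a.2 ∈ T a.1 :=
    ⟨(univ ×ˢ univ.biUnion T).filter fun a => a.2 ∈ T a.1, fun a => by
      simp only [mem_filter, mem_product, mem_univ, true_and, mem_biUnion]
      exact ⟨fun h => h.2, fun h => ⟨⟨_, h⟩, h⟩⟩⟩
  have hJ' : ∀ a, a ∈ J ↔ c.In (bc (Om K) P) a := fun a => by
    rw [hJ, hT']; simp
  have ht0 : ∀ j, (0 : ℝ) < c.t j := fun j => by exact_mod_cast c.ht j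
  have ht2 : ∀ j, (c.t j : ℝ) ^ 2 ≤ L ^ 2 := fun j => pow_le_pow_left₀ (ht0 j).le (hL.2 j) 2
  have hc' : ∀ j, (#(T j) : ℝ) ≤ 4 * (c.t j : ℝ) ^ 2 := fun j => by exact_mod_cast hc j
  have hL2 : 0 ≤ L ^ 2 := sq_nonneg L
  refine ⟨J, hJ', fun τ => ⟨fun a => (a.1, act τ a.2), fun a b hab => ?_, fun a ha =>
    ⟨(hJ' _).2 (act_in τ ((hJ' a).1 ha)), fun l => act_y τ c P a.1 a.2 l⟩⟩, ?_, ?_⟩
  · obtain ⟨h3, h4⟩ := Prod.ext_iff.1 hab
    exact Prod.ext h3 (act_inj τ h4)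
  · have e : (#J : ℝ) = ∑ j, (#(T j) : ℝ) := by
      rw [card_eq_sum_ones, Nat.cast_sum, sum_finset_product J univ T hJ]
      simp
    have e2 : ∑ j, (#(T j) : ℝ) ≤ ∑ _j : Fin (k + 1), 4 * L ^ 2 :=
      sum_le_sum fun j _ => (hc' j).trans (by linarith [ht2 j])
    rw [sum_const, card_univ, Fintype.card_fin, nsmul_eq_mul] at e2
    push_cast at e2
    have e3 : (0 : ℝ) ≤ (k + 1) * (k * (4 * (C1 + C2))) * L ^ 2 := by positivity
    rw [e]
    nlinarith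
  · have key : ∀ (j : Fin (k + 1)) (l : Fin k),
        Bd (fun i => ∑ Q ∈ T j, log⁺ (W.ab i (X (c.y (bc (Om K) P) (j, Q) l))))
          (4 * (C1 + C2) * L ^ 2) := fun j l => by
      have h3 := h1 _ (T j) (fun Q => c.y (bc (Om K) P) (j, Q) l) (c.b j l • P) (c.t j) (c.ht j)
        (nt_ne hP (c.hb j l))
        (fun τ => ⟨act τ, act_inj τ, fun Q hQ =>
          ⟨(hT' _ _).2 (act_in τ ((hT' _ _).1 hQ)), fun _ => act_y τ c P j Q l⟩⟩)
        (fun Q hQ => by rw [map_zsmul]; exact ((hT' _ _).1 hQ).smul l)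
      have h4 : ((c.b j l : ℝ)) ^ 2 ≤ L ^ 2 := by
        rw [← sq_abs]; exact pow_le_pow_left₀ (abs_nonneg _) (hL.1 j l) 2
      have h5 : C1 * (c.t j : ℝ) ^ 2 + Height.logHeight₁ (X (c.b j l • P)) ≤ (C1 + C2) * L ^ 2 := by
        have := h2 (c.b j l)
        nlinarith [mul_le_mul_of_nonneg_left (ht2 j) hC1, mul_le_mul_of_nonneg_left h4 hC2]
      have h6 : (0 : ℝ) < (c.t j : ℝ) ^ 2 := pow_pos (ht0 j) 2
      refine (h3.mul (inv_nonneg.2 h6.le)).mono (fun i => ?_) ?_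
      · rw [inv_mul_cancel_left₀ h6.ne']
      · rw [inv_mul_le_iff₀ h6]
        refine (mul_le_mul_of_nonneg_left h5 (Nat.cast_nonneg _)).trans ?_
        refine (mul_le_mul_of_nonneg_right (hc' j) (by positivity)).trans (le_of_eq ?_)
        ring
    refine (Bd.sum univ fun j _ => Bd.sum univ fun l _ => key j l).mono (fun i => le_of_eq ?_) ?_
    · rw [Plc.lam, sum_finset_product J univ T hJ]
      exact sum_congr rfl fun j _ => sum_comm
    · simp only [sum_const, card_univ, Fintype.card_fin, nsmul_eq_mul]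
      push_cast
      have e3 : (0 : ℝ) ≤ 4 * (k + 1) * L ^ 2 := by positivity
      nlinarith

end Pool.Agent.P.MP_ab3ecb_nt.AM
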