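import Pool.Agent.P.MP_ab3ecb_nt.AM.Iface

/-! Step HB. -/

set_option autoImplicit false

namespace Pool.Agent.P.MP_ab3ecb_nt.AM

open Filter Topology NumberField IsDedekindDomain Finset Real Pool.Agent.P.MP_ab3ecb_nt.TK
open scoped Classical NNReal

namespace HBx

lemma log_max (x : ℝ) (hx : 0 ≤ x) : log (max 1 x) = log⁺ x := by
  rcases le_total x 1 with h | h
  · rw [max_eq_left h, log_one, eq_comm, posLog_eq_zero_iff, abs_of_nonneg hx]; exact h
  · rw [max_eq_right h, posLog_eq_log (by rwa [abs_of_nonneg hx])]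

lemma logs {x q p s : ℝ} {t : ℕ} (hx : 0 ≤ x) (hq : 1 ≤ q) (hp : 0 < p) (hs : 0 ≤ s)
    (h : max 1 x ^ t ^ 2 ≤ q ^ (t ^ 2 - 1) * max (p * s) p) :
    (t : ℝ) ^ 2 * log⁺ x ≤ (t : ℝ) ^ 2 * log q + log⁺ s + log p := by
  have e : max (p * s) p = p * max 1 s := by
    rw [mul_max_of_nonneg _ _ hp.le, mul_one, max_comm]
  have h1 : (0 : ℝ) < max 1 x := lt_of_lt_of_le one_pos (le_max_left _ _)
  have h2 : (0 : ℝ) < max 1 s := lt_of_lt_of_le one_pos (le_max_left _ _)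
  have h3 : (0 : ℝ) < q := lt_of_lt_of_le one_pos hq
  have h4 : q ^ (t ^ 2 - 1) ≤ q ^ t ^ 2 := pow_le_pow_right₀ hq (Nat.sub_le _ _)
  rw [e] at h
  have h5 := log_le_log (pow_pos h1 _)
    (h.trans (mul_le_mul_of_nonneg_right h4 (mul_pos hp h2).le))
  rw [log_mul (pow_pos h3 _).ne' (mul_pos hp h2).ne', log_mul hp.ne' h2.ne', log_pow, log_pow,
    log_max x hx, log_max s hs] at h5
  push_cast at h5
  linarith

end HBx

theorem p_HB (hLADD : S_LADD) (hLADI : S_LADI) (hQUAD : S_QUAD) (hLADB : S_LADB) (hGAL : S_GAL) :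
    S_HB := by
  intro K _ _ W A B hD
  obtain ⟨κ, c, hκ, hc, hq⟩ := hQUAD K W A B hD
  have l2 : 0 ≤ log 2 := log_nonneg one_le_two
  have hC : 0 ≤ c + 3 * log 2 * W.d := add_nonneg hc.nonneg (by positivity)
  refine ⟨c + 3 * log 2 * W.d, hC, fun α J y T t ht hT hG hy => ?_⟩
  obtain ⟨φ, ψ, hL, -, -⟩ := hLADD A B t ht
  have hT' : bc (Om K) T ≠ 0 := mt bc_eq_zero.1 hT
  have hy0 : ∀ a ∈ J, y a ≠ 0 := fun a ha h => hT' (by rw [← hy a ha, h, smul_zero])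
  have hR : ∀ a ∈ J, Polynomial.aeval (X (y a)) ψ ≠ 0 ∧ Polynomial.aeval (X (y a)) φ =
      Polynomial.aeval (X (y a)) ψ * algebraMap K (Om K) (X T) := fun a ha => by
    have h1 := hLADI A B (Om K) hD (y a) t _ (hy0 a ha) (hL.aeval (X (y a)))
    rw [hy a ha] at h1
    have h2 := h1.ne hT'
    rwa [X_bc] at h2
  obtain ⟨z, hz, hz'⟩ := hGAL K α Unit J (fun a _ => X (y a))
    (fun u => Polynomial.aeval (u ()) ψ) hG fun τ u =>
      Polynomial.aeval_algHom_apply (τ.restrictScalars (𝓞 K)) (u ()) ψ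
  rw [filter_true_of_mem fun a ha => (hR a ha).1] at hz'
  have hρ : ∀ i, (1 : ℝ) ≤ 2 ^ W.th i := fun i => one_le_pow₀ one_le_two
  have hq1 : ∀ i, (1 : ℝ) ≤ κ i * (2 ^ W.th i) ^ 3 := fun i =>
    one_le_mul_of_one_le_of_one_le (hκ i) (one_le_pow₀ (hρ i))
  have hg : Bd (fun i => (#J : ℝ) * ((t : ℝ) ^ 2 * (log (κ i) + 3 * log 2 * W.th i) +
      log⁺ (W.ab i (algebraMap K (Om K) (X T)))))
      (#J * ((t : ℝ) ^ 2 * (c + 3 * log 2 * W.d) + Height.logHeight₁ (X T))) :=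
    (((hc.add (W.thd.mul (by positivity))).mul (by positivity)).add (W.ht (X T))).mul
      (by positivity)
  refine (W.pf_bd hz (fun i => mul_nonneg (by positivity)
    (sum_nonneg fun _ _ => posLog_nonneg)) (fun i => ?_) hg).mono (fun _ => le_rfl)
    (le_of_eq (by ring))
  rw [hz', map_prod, log_prod fun a ha => (W.ab i).ne_zero (hR a ha).1, mul_sum,
    ← nsmul_eq_mul, ← sum_const, ← sum_add_distrib]
  refine sum_le_sum fun a ha => ?_
  have h1 := hLADB A B (Om K) hD (W.ab i) (2 ^ W.th i) (κ i) (hρ i) (hκ i) (W.add_le i) (hq i)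
    (y a) t _ (hy0 a ha) (hL.aeval (X (y a)))
  simp only [(hR a ha).2, map_mul] at h1
  have h2 := HBx.logs ((W.ab i).nonneg _) (hq1 i) ((W.ab i).pos (hR a ha).1) ((W.ab i).nonneg _) h1
  rw [log_mul (lt_of_lt_of_le one_pos (hκ i)).ne' (by positivity), log_pow, log_pow] at h2
  push_cast at h2
  linarith

end Pool.Agent.P.MP_ab3ecb_nt.AM
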