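import Pool.Agent.P.MP_ab3ecb_nt.AM.Iface

/-! Step HYP. -/

set_option autoImplicit false

namespace Pool.Agent.P.MP_ab3ecb_nt.AM

open Filter Topology NumberField IsDedekindDomain Finset Real Pool.Agent.P.MP_ab3ecb_nt.TK
open scoped Classical NNReal

theorem p_HYP (hULIM : S_ULIM) :
    S_HYP := by
  intro K _ _ A B hD P n k F Q G g v a U hG hF hl ρ
  let _ : NontriviallyNormedField (Kv v) :=
    Valued.toNontriviallyNormedField (Kv v) (WithZero (Multiplicative ℤ))
  choose z hz using fun l : Fin k =>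
    hULIM A B (Kv v) (Fin k → ℤ) hD U fun m => m l • bc (Kv v) P
  simp only [← cls_bc (ab := nv v) (ab' := fun x : Kv v => ‖x‖) (fun _ => rfl)]
  by_cases h0 : ∃ l, z l = 0
  · obtain ⟨l, h0⟩ := h0
    filter_upwards [hz l ρ] with m hm
    rw [h0, sub_zero] at hm
    exact .inl ⟨l, hm⟩
  push Not at h0
  have h1 : (fun i => cmb (Q i) (G i) z) = a := funext fun i => by
    refine lim_unique (toO_congr (toO_sum univ fun l _ => toO_zsmul (hz l) fun _ => G i l)
      (.of_forall fun m => ?_)) (hl i)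
    simp only [loc, pt, cmb, map_add, map_zsmul, sum_smul, smul_sub, sum_sub_distrib, mul_smul,
      map_sum, add_sub_add_left_eq_sub]
  have h2 : Tendsto (fun (m : Fin k → ℤ) l => X (m l • bc (Kv v) P)) U (𝓝 fun l => X (z l)) :=
    tendsto_pi_nhds.2 fun l => by simpa using (lb (toA_const _ (h0 l)) (hz l)).2.2.1
  have h3 : Continuous fun x : Fin k → Kv v => ρ * ‖MvPolynomial.aeval x g‖ := by
    simp only [MvPolynomial.aeval_def, MvPolynomial.eval₂_eq_eval_map]
    exact (MvPolynomial.continuous_eval _).norm.const_mul ρ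
  have h4 := (h3.tendsto _).comp h2
  rw [hG z h0 (h1 ▸ hF), norm_zero, mul_zero] at h4
  exact (h4.eventually_le_const one_pos).mono fun m hm => .inr hm

end Pool.Agent.P.MP_ab3ecb_nt.AM
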