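import Pool.Agent.P.MP_ab3ecb_nt.AM.Iface

/-! Step IND. -/

set_option autoImplicit false

namespace Pool.Agent.P.MP_ab3ecb_nt.AM

open Filter Topology NumberField IsDedekindDomain Finset Real Pool.Agent.P.MP_ab3ecb_nt.TK
open scoped Classical NNReal

namespace INDx

lemma lemA (hLIO : S_LIO) (K : Type) [Field K] [NumberField K] (W : Plc K) (k : ℕ)
    (p : MvPolynomial (Fin k) (𝓞 K)) (E0 : ℕ) : ∃ E : ℝ, 0 ≤ E ∧
    ∀ (α : Type) (J : Finset α) (x : α → Fin k → Om K) (H : ℝ) (s : Finset W.ι)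
      (ζ ρ : W.ι → ℝ), Gal J x → Bd (W.lam J x) H → (#J : ℝ) ≤ H → (∀ i, 1 ≤ ρ i) →
      Bd (fun i => log (ρ i)) H →
      (∀ i ∈ s, 0 < ζ i ∧ ∃ a ∈ J, MvPolynomial.aeval (x a) p ≠ 0 ∧
        W.ab i (MvPolynomial.aeval (x a) p) ≤ ζ i * ρ i ^ E0) →
      ∑ i ∈ s, -log (ζ i) ≤ E * H := by
  obtain ⟨c, hc, h⟩ := hLIO K W (Fin k) p
  refine ⟨c + E0, by positivity, fun α J x H s ζ ρ hG hl hJ hρ hB hs => ?_⟩
  have h1 := h α J x H s (fun i => -log (ζ i) - E0 * log (ρ i)) hG hl hJ fun i hi => by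
    obtain ⟨h0, a, ha, h1, h2⟩ := hs i hi
    refine ⟨a, ha, h1, h2.trans (le_of_eq ?_)⟩
    have h3 : 0 < ρ i := lt_of_lt_of_le one_pos (hρ i)
    rw [show -(-log (ζ i) - E0 * log (ρ i)) = log (ζ i) + E0 * log (ρ i) by ring, exp_add,
      exp_log h0, exp_nat_mul, exp_log h3]
  rw [sum_sub_distrib, ← mul_sum] at h1
  have h2 := mul_le_mul_of_nonneg_left (hB s) (Nat.cast_nonneg (α := ℝ) E0)
  linarith

lemma lemV (hPD : S_PD) (hLIO : S_LIO) (K : Type) [Field K] [NumberField K] (W : Plc K)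
    (A B : 𝓞 K) (k : ℕ) (n : ℕ) : ∀ f : MvPolynomial (Fin k) (𝓞 K), f.totalDegree = n → f ≠ 0 →
    ∃ E : ℝ, 0 ≤ E ∧
    ∀ (α : Type) (J : Finset α) (x : α → Fin k → Om K) (H : ℝ) (s : Finset W.ι) (ζ ρ : W.ι → ℝ)
      (sel : W.ι → Fin (k + 1) → α), Gal J x → (∀ a ∈ J, ∀ l, x a l ^ 3 + A * x a l + B ≠ 0) →
      Bd (W.lam J x) H → (#J : ℝ) ≤ H → (∀ i, 1 ≤ ρ i) → Bd (fun i => log (ρ i)) H →
      (∀ i ∈ s, 0 < ζ i ∧ (∀ j, sel i j ∈ J) ∧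
        PB A B (W.ab i) (ζ i) (ρ i) (fun j => x (sel i j)) ∧
        ∀ j, MvPolynomial.aeval (x (sel i j)) f = 0) →
      ∑ i ∈ s, -log (ζ i) ≤ E * H := by
  induction n using Nat.strong_induction_on with
  | _ n ih =>
  intro f hn hf
  obtain ⟨-, h2, h3, -⟩ := hPD (𝓞 K) k f
  by_cases h0 : ∀ l, MvPolynomial.pderiv l f = 0
  · obtain ⟨c, rfl⟩ := h3 h0
    refine ⟨0, le_rfl, fun α J x H s ζ ρ sel _ _ _ _ _ _ hs => ?_⟩
    have he : s = ∅ := by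
      refine eq_empty_of_forall_notMem fun i hi => ?_
      have h4 := (hs i hi).2.2.2 0
      rw [MvPolynomial.aeval_C, IsScalarTower.algebraMap_apply (𝓞 K) K (Om K), map_eq_zero,
        FaithfulSMul.algebraMap_eq_zero_iff] at h4
      exact hf (by rw [h4, map_zero])
    simp [he]
  · obtain ⟨l, hl⟩ := not_forall.1 h0
    obtain ⟨E1, hE1, g1⟩ := ih _ (hn ▸ h2 l hl) _ rfl hl
    obtain ⟨E2, hE2, g2⟩ := lemA hLIO K W k (dl A B f l) (f.totalDegree + 6)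
    refine ⟨E2 + E1, by positivity, fun α J x H s ζ ρ sel hG hc hl' hJ hρ hB hs => ?_⟩
    rw [← sum_filter_add_sum_filter_not s
      (fun i => ∃ j, MvPolynomial.aeval (x (sel i j)) (dl A B f l) ≠ 0), add_mul]
    refine add_le_add (g2 α J x H _ ζ ρ hG hl' hJ hρ hB fun i hi => ?_)
      (g1 α J x H _ ζ ρ sel hG hc hl' hJ hρ hB fun i hi => ?_)
    · obtain ⟨hi, j, hj⟩ := mem_filter.1 hi
      obtain ⟨a1, a2, a3, a4⟩ := hs i hi
      exact ⟨a1, sel i j, a2 j, hj, a3 f a4 j l⟩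
    · obtain ⟨hi, hj⟩ := mem_filter.1 hi
      obtain ⟨a1, a2, a3, -⟩ := hs i hi
      refine ⟨a1, a2, a3, fun j => ?_⟩
      have h5 : MvPolynomial.aeval (x (sel i j)) (dl A B f l) = 0 := by
        by_contra h6
        exact hj ⟨j, h6⟩
      rw [dl, map_mul] at h5
      refine (mul_eq_zero.1 h5).resolve_left ?_
      simpa using hc _ (a2 j) l

end INDx

theorem p_IND (hPD : S_PD) (hLIO : S_LIO) :
    S_IND := by
  intro K _ _ W A B k f E0 hf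
  obtain ⟨E1, hE1, g1⟩ := INDx.lemV hPD hLIO K W A B k _ f rfl hf
  obtain ⟨E2, hE2, g2⟩ := INDx.lemA hLIO K W k f E0
  refine ⟨E2 + E1, by positivity, fun α J x H s ζ ρ sel hG hc hl' hJ hρ hB hs => ?_⟩
  rw [← sum_filter_add_sum_filter_not s
    (fun i => ∃ j, MvPolynomial.aeval (x (sel i j)) f ≠ 0), add_mul]
  refine add_le_add (g2 α J x H _ ζ ρ hG hl' hJ hρ hB fun i hi => ?_)
    (g1 α J x H _ ζ ρ sel hG hc hl' hJ hρ hB fun i hi => ?_)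
  · obtain ⟨hi, j, hj⟩ := mem_filter.1 hi
    obtain ⟨a1, a2, -, a4⟩ := hs i hi
    exact ⟨a1, sel i j, a2 j, hj, a4 j⟩
  · obtain ⟨hi, hj⟩ := mem_filter.1 hi
    obtain ⟨a1, a2, a3, -⟩ := hs i hi
    refine ⟨a1, a2, a3, fun j => ?_⟩
    by_contra h6
    exact hj ⟨j, h6⟩

end Pool.Agent.P.MP_ab3ecb_nt.AM
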