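import Pool.Agent.P.MP_ab3ecb_nt.AM.Iface

/-! Step INF. -/

set_option autoImplicit false

namespace Pool.Agent.P.MP_ab3ecb_nt.AM

open Filter Topology NumberField IsDedekindDomain Finset Real Pool.Agent.P.MP_ab3ecb_nt.TK
open scoped Classical NNReal

namespace INFx

theorem ex (K : Type) [Field K] [NumberField K] (p : Nat.Primes) :
    ∃ v : Pl K, v.asIdeal.comap (algebraMap ℤ (𝓞 K)) = Ideal.span {((p : ℕ) : ℤ)} := by
  have hp : Prime ((p : ℕ) : ℤ) := Nat.prime_iff_prime_int.mp p.2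
  have hm : (Ideal.span {((p : ℕ) : ℤ)}).IsMaximal :=
    Ideal.IsPrime.isMaximal ((Ideal.span_singleton_prime hp.ne_zero).mpr hp)
      (by simpa using hp.ne_zero)
  have hk : RingHom.ker (algebraMap ℤ (𝓞 K)) ≤ Ideal.span {((p : ℕ) : ℤ)} := by
    rw [(RingHom.injective_iff_ker_eq_bot _).mp (algebraMap ℤ (𝓞 K)).injective_int]
    exact bot_le
  obtain ⟨Q, hQ, hc⟩ := Ideal.exists_ideal_over_maximal_of_isIntegral (S := 𝓞 K) _ hk
  refine ⟨⟨Q, hQ.isPrime, ?_⟩, hc⟩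
  intro h0
  have h1 : ((p : ℕ) : ℤ) ∈ Q.comap (algebraMap ℤ (𝓞 K)) := by
    rw [hc]; exact Ideal.mem_span_singleton_self _
  rw [h0, Ideal.mem_comap, Ideal.mem_bot] at h1
  exact hp.ne_zero ((algebraMap ℤ (𝓞 K)).injective_int (by rw [h1, map_zero]))

end INFx

theorem p_INF :
    S_INF := by
  intro K _ _
  choose f hf using INFx.ex K
  refine Infinite.of_injective f ?_
  intro p q h
  have h1 : Ideal.span {((p : ℕ) : ℤ)} = Ideal.span {((q : ℕ) : ℤ)} := by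
    rw [← hf p, ← hf q, h]
  have h2 : ((p : ℕ) : ℤ) ∣ ((q : ℕ) : ℤ) := by
    rw [← Ideal.mem_span_singleton, h1]; exact Ideal.mem_span_singleton_self _
  exact Subtype.ext ((Nat.prime_dvd_prime_iff_eq p.2 q.2).mp (Int.natCast_dvd_natCast.mp h2))

end Pool.Agent.P.MP_ab3ecb_nt.AM
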