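import Pool.Agent.P.MP_ab3ecb_nt.AM.Iface

/-! Step KEY. -/

set_option autoImplicit false

namespace Pool.Agent.P.MP_ab3ecb_nt.AM

open Filter Topology NumberField IsDedekindDomain Finset Real Pool.Agent.P.MP_ab3ecb_nt.TK
open scoped Classical NNReal

theorem p_KEY (hPLC : S_PLC) (hFIN : S_FIN) (hLAT : S_LAT) (hSIZE : S_SIZE) (hKEYA : S_KEYA) :
    S_KEY := by
  intro K _ _ A B hD P hP S hS k g hg
  obtain ⟨W⟩ := hPLC K
  obtain ⟨E, E0, hE⟩ := hKEYA K W A B hD P hP k g hg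
  obtain ⟨q, q0, hq⟩ := hFIN K A B hD P hP S hS
  obtain ⟨C1, C10, hC1⟩ := hSIZE k
  obtain ⟨δ, δ0, δ1, hδ⟩ : ∃ δ : ℝ, 0 < δ ∧ δ ≤ 1 ∧ E * δ ≤ q / 2 := by
    refine ⟨min 1 (q / (2 * (E + 1))), lt_min one_pos (by positivity), min_le_left _ _, ?_⟩
    refine (mul_le_mul_of_nonneg_left (min_le_right _ _) E0).trans ?_
    rw [mul_div_assoc', div_le_div_iff₀ (by positivity) two_pos]
    nlinarith
  obtain ⟨C, hC⟩ := hLAT k δ δ0
  refine ⟨C, fun N hN => ?_⟩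
  obtain ⟨C', hC'⟩ := hq N hN
  obtain ⟨J, hJ⟩ := exists_nat_gt (2 * (|C'| + E * C1) / q)
  obtain ⟨M, h1, h2, s, h3, h4⟩ := hC' J
  have M0 : 0 < M := by omega
  refine ⟨M, M0, h2, fun r hr => by_contra fun hn => ?_⟩
  obtain ⟨c, rfl, rfl, hc⟩ := hC M r M0 hn
  have M1 : (1 : ℝ) ≤ c.M := by exact_mod_cast M0
  have h5 := hE c _ s hc fun v hv => hr v (h3 v hv)
  have h6 : δ * c.M ≤ c.M := mul_le_of_le_one_left (by positivity) δ1
  have h7 := hC1 c ⟨fun j l => (hc.1 j l).trans h6, fun j => (hc.2 j).trans h6⟩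
  have h8 : 2 * (|C'| + E * C1) < c.M * q := by
    rw [← div_lt_iff₀ q0]
    exact hJ.trans (by exact_mod_cast h1)
  have h9 : E * (δ * c.M) ^ 2 ≤ q / 2 * c.M ^ 2 := by
    rw [mul_pow, ← mul_assoc]
    refine mul_le_mul_of_nonneg_right ?_ (sq_nonneg _)
    nlinarith [mul_nonneg E0 δ0.le]
  have h10 := mul_le_mul_of_nonneg_left h7 E0
  nlinarith [le_abs_self C', abs_nonneg C']

end Pool.Agent.P.MP_ab3ecb_nt.AM
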