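import Pool.Agent.P.MP_ab3ecb_nt.AM.Iface

/-! Step KEYA. -/

set_option autoImplicit false

namespace Pool.Agent.P.MP_ab3ecb_nt.AM

open Filter Topology NumberField IsDedekindDomain Finset Real Pool.Agent.P.MP_ab3ecb_nt.TK
open scoped Classical NNReal

theorem p_KEYA (hTAU : S_TAU) (hIND : S_IND) (hGLOB : S_GLOB) (hDEEP : S_DEEP) :
    S_KEYA := by
  intro K _ _ W A B hD P hP k g hg
  obtain ⟨E, E0, hE⟩ := hIND K W A B k g (g.totalDegree + 2) hg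
  obtain ⟨C, C0, hC⟩ := hGLOB K W A B hD P hP k
  refine ⟨(2 * E + 6) * (C + W.d), by positivity, fun c L s hL hs => ?_⟩
  obtain ⟨J, hJ, hG, hn, hb⟩ := hC c L hL
  have hP' : NT (bc (Om K) P) := nt_bc hP
  have eT : ∀ v, nv v (X ((c.M : ℤ) • P)) = W.w v (X ((c.M : ℤ) • bc (Om K) P)) := fun v => by
    rw [← map_zsmul, X_bc, ← W.hw, W.hK]
  have hs' : ∀ v ∈ s, Hyp (fun x => (W.w v x : ℝ)) (bc (Om K) P) g c.M c.r := fun v hv ρ =>
    (hs v hv ρ).imp fun m hm => ⟨hm.1, (cls_bc (fun x => by rw [← W.hw, W.hK]) P g ρ m).2 hm.2⟩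
  simp only [eT]
  generalize bc (Om K) P = P' at *
  obtain ⟨x, hx⟩ : ∃ x, x = fun a l => X (c.y P' a l) := ⟨_, rfl⟩
  rw [← hx] at hG hb
  have hτ := hTAU K W c.τ c.τ_ne
  have l0 : 0 ≤ log |(c.τ : ℝ)| := log_nonneg (by exact_mod_cast Int.one_le_abs c.τ_ne)
  have d0 : 0 ≤ (W.d : ℝ) * log |(c.τ : ℝ)| := by positivity
  obtain ⟨ρ, hρ⟩ : ∃ ρ : W.ι → ℝ, ρ = fun i => exp (W.lam J x i + log⁺ (W.ab i (c.τ : Om K)⁻¹)) :=
    ⟨_, rfl⟩
  have ρ1 : ∀ i, 1 ≤ ρ i := fun i => by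
    rw [hρ]; exact one_le_exp (add_nonneg (W.lam_nonneg J x i) posLog_nonneg)
  have ρb : Bd (fun i => log (ρ i)) (C * L ^ 2 + W.d * log |(c.τ : ℝ)|) := by
    simpa only [hρ, log_exp] using hb.add hτ
  obtain ⟨Λ, hΛ⟩ : ∃ Λ : Pl K → ℝ≥0, ∀ v, (Λ v : ℝ) = exp (W.lam J x (W.e v)) :=
    ⟨fun v => .mk _ (exp_pos _).le, fun _ => rfl⟩
  have Λ1 : ∀ v, 1 ≤ Λ v := fun v => by
    rw [← NNReal.coe_le_coe, hΛ]; exact one_le_exp (W.lam_nonneg J x _)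
  have θ0 : ∀ v, (0 : ℝ) < W.w v (c.τ : Om K) := fun v => by
    rw [← W.hw]; exact (W.ab _).pos (by exact_mod_cast c.τ_ne)
  have θ1 : ∀ v, (W.w v (c.τ : Om K) : ℝ) ≤ 1 := fun v => v_z (W.w v) c.τ
  have eρ : ∀ v, ρ (W.e v) = Λ v / W.w v (c.τ : Om K) := fun v => by
    rw [hρ, hΛ]
    simp only [exp_add, map_inv₀, W.hw, NNReal.coe_inv]
    rw [posLog_eq_log (by rw [abs_of_pos (inv_pos.2 (θ0 v))]; exact one_le_inv₀ (θ0 v) |>.2 (θ1 v)),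
      exp_log (inv_pos.2 (θ0 v)), div_eq_mul_inv]
  obtain ⟨T, hT⟩ : ∃ T, T = (c.M : ℤ) • P' := ⟨_, rfl⟩
  have ζ0 : ∀ v, 1 < W.w v (X T) → (0 : ℝ) < W.w v (Z T) := fun v h => by
    rw [← W.hw]; exact (W.ab _).pos (Z_ne h)
  have eζ : ∀ v, 1 < W.w v (X T) → log⁺ (W.w v (X T) : ℝ) = 2 * -log (W.w v (Z T) : ℝ) :=
    fun v h => by
      have h1 : (1 : ℝ) < W.w v (X T) := h
      have h2 : (W.w v (Z T) : ℝ) ^ 2 * W.w v (X T) = 1 := by exact_mod_cast v_Z h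
      have h3 := congrArg log h2
      rw [log_mul (pow_pos (ζ0 v h) 2).ne' (by linarith), log_pow, log_one] at h3
      rw [posLog_eq_log (by rw [abs_of_pos (by linarith)]; exact h1.le)]
      push_cast at h3
      linarith
  obtain ⟨dp, hdp⟩ : ∃ dp : Pl K → Prop, ∀ v, dp v ↔
      1 < W.w v (X T) ∧ W.w v (Z T) * Λ v < W.w v (c.τ : Om K) ^ 3 := ⟨_, fun _ => Iff.rfl⟩
  have key : ∀ i, ∃ sel : Fin (k + 1) → Fin (k + 1) × Pt A B (Om K),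
      i ∈ (s.filter dp).map ⟨W.e, W.einj⟩ → 0 < W.ab i (Z T) ∧ (∀ j, sel j ∈ J) ∧
        PB A B (W.ab i) (W.ab i (Z T)) (ρ i) (fun j => x (sel j)) ∧
        ∀ j, W.ab i (MvPolynomial.aeval (x (sel j)) g) ≤
          W.ab i (Z T) * ρ i ^ (g.totalDegree + 2) := by
    intro i
    by_cases hi : i ∈ (s.filter dp).map ⟨W.e, W.einj⟩
    swap
    · exact ⟨fun j => (j, 0), fun h => absurd h hi⟩
    obtain ⟨v, hv, rfl⟩ := mem_map.1 hi
    obtain ⟨h1, h2⟩ := mem_filter.1 hv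
    obtain ⟨h3, h4⟩ := (hdp v).1 h2
    obtain ⟨Q, q1, q2, q3⟩ := hDEEP A B (Om K) hD (W.w v) k c P' (Λ v) hP' (Λ1 v) (fun a ha l => by
      rw [← NNReal.coe_le_coe, hΛ, ← W.hw]
      refine le_trans ?_ (exp_le_exp.2 (W.le_lam x _ ((hJ a).2 ha) l))
      rw [hx, posLog_eq_log_max_one ((W.ab _).nonneg _), exp_log (by positivity)]
      exact le_max_right _ _) (hT ▸ h3) (hT ▸ h4)
    have ea : ⇑(W.ab (W.e v)) = fun x => (W.w v x : ℝ) := funext (W.hw v)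
    refine ⟨fun j => (j, Q j), fun _ => ?_⟩
    simp only [Function.Embedding.coeFn_mk, ea, eρ, hx, hT]
    exact ⟨hT ▸ ζ0 v h3, fun j => (hJ _).2 (q1 j), q2, fun j => by
      exact_mod_cast q3 g (hs' v h1) j⟩
  choose sel hsel using key
  have h1 := hE _ J x _ _ (fun i => W.ab i (Z T)) ρ sel hG (fun a ha l => by
    have h2 := ((hJ a).1 ha).nt hP' l
    rw [hx, ← eqn (P := c.y P' a l) fun h => one_ne_zero (h2 1 (by rw [h, smul_zero]))]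
    exact pow_ne_zero 2 fun h => two_ne_zero (h2 2 (two_of_Y h)))
    (hb.mono (fun _ => le_rfl) (le_add_of_nonneg_right d0)) (by linarith) ρ1 ρb hsel
  simp only [sum_map, Function.Embedding.coeFn_mk, W.hw] at h1
  have h2 := ρb.comp W.einj (s.filter fun v => ¬ dp v)
  have h3 : ∑ v ∈ s.filter dp, log⁺ (W.w v (X T) : ℝ) =
      2 * ∑ v ∈ s.filter dp, -log (W.w v (Z T) : ℝ) := by
    rw [mul_sum]
    exact sum_congr rfl fun v hv => eζ v ((hdp v).1 (mem_filter.1 hv).2).1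
  have h4 : ∑ v ∈ s.filter fun v => ¬ dp v, log⁺ (W.w v (X T) : ℝ) ≤
      6 * ∑ v ∈ s.filter fun v => ¬ dp v, log (ρ (W.e v)) := by
    rw [mul_sum]
    refine sum_le_sum fun v hv => ?_
    by_cases h5 : 1 < W.w v (X T)
    · have h6 : (W.w v (c.τ : Om K) : ℝ) ^ 3 ≤ W.w v (Z T) * Λ v := by
        exact_mod_cast not_lt.1 fun h => (mem_filter.1 hv).2 ((hdp v).2 ⟨h5, h⟩)
      have h7 : (1 : ℝ) ≤ Λ v := Λ1 v
      have h8 := log_le_log (pow_pos (θ0 v) 3) h6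
      rw [log_pow, log_mul (ζ0 v h5).ne' (by linarith)] at h8
      rw [eζ v h5, eρ, log_div (by linarith) (θ0 v).ne']
      push_cast at h8
      linarith [log_nonneg h7]
    · rw [(posLog_eq_zero_iff _).2 (by
        rw [abs_of_nonneg (NNReal.coe_nonneg _)]; exact_mod_cast not_lt.1 h5)]
      linarith [log_nonneg (ρ1 (W.e v))]
  rw [← hT, ← sum_filter_add_sum_filter_not s dp, h3]
  have h5 : C * L ^ 2 + W.d * log |(c.τ : ℝ)| ≤ (C + W.d) * (L ^ 2 + log |(c.τ : ℝ)|) := by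
    nlinarith [mul_nonneg C0 l0, mul_nonneg (Nat.cast_nonneg (α := ℝ) W.d) (sq_nonneg L)]
  rw [mul_assoc]
  refine le_trans ?_ (mul_le_mul_of_nonneg_left h5 (by positivity))
  linarith

end Pool.Agent.P.MP_ab3ecb_nt.AM
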