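import Pool.Agent.P.MP_ab3ecb_nt.AM.Iface

/-! Step LADB. -/

set_option autoImplicit false

namespace Pool.Agent.P.MP_ab3ecb_nt.AM

open Filter Topology NumberField IsDedekindDomain Finset Real Pool.Agent.P.MP_ab3ecb_nt.TK
open scoped Classical NNReal

namespace LADBx

variable {L : Type} [Field L] {ab : AbsoluteValue L ℝ} {ρ : ℝ}

theorem mix (h1 : 1 ≤ ρ) (ha : ∀ y z, ab (y + z) ≤ ρ * max (ab y) (ab z)) {t u v w : L} {n : ℝ}
    (e : t * t = v * t + -(u * w)) (hu : ab u ≤ n) (hv : ab v ≤ n) (hw : ab w ≤ n) :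
    ab t ≤ ρ * n := by
  have n0 : 0 ≤ n := (ab.nonneg _).trans hu
  rcases le_or_gt (ab t) n with h | h
  · exact h.trans (le_mul_of_one_le_left n0 h1)
  · have h2 := ha (v * t) (-(u * w))
    rw [← e, ab.map_neg, map_mul, map_mul, map_mul] at h2
    have h3 : max (ab v * ab t) (ab u * ab w) ≤ n * ab t :=
      max_le (mul_le_mul_of_nonneg_right hv (ab.nonneg _))
        (mul_le_mul hu (hw.trans h.le) (ab.nonneg _) n0)
    have h4 := h2.trans (mul_le_mul_of_nonneg_left h3 (by linarith))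
    rw [← mul_assoc] at h4
    exact le_of_mul_le_mul_right h4 (n0.trans_lt h)

theorem prod (h1 : 1 ≤ ρ) (ha : ∀ y z, ab (y + z) ≤ ρ * max (ab y) (ab z)) (p q : L × L) :
    max (ab p.1) (ab p.2) * max (ab q.1) (ab q.2) ≤
      ρ * n3 ab (p.1 * q.1) (p.1 * q.2 + p.2 * q.1) (p.2 * q.2) := by
  set n := n3 ab (p.1 * q.1) (p.1 * q.2 + p.2 * q.1) (p.2 * q.2)
  have hu : ab (p.1 * q.1) ≤ n := le_max_left _ _
  have hv : ab (p.1 * q.2 + p.2 * q.1) ≤ n := (le_max_left _ _).trans (le_max_right _ _)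
  have hw : ab (p.2 * q.2) ≤ n := (le_max_right _ _).trans (le_max_right _ _)
  have h2 : n ≤ ρ * n := le_mul_of_one_le_left ((ab.nonneg _).trans hu) h1
  rcases max_choice (ab p.1) (ab p.2) with a | a <;>
    rcases max_choice (ab q.1) (ab q.2) with b | b <;> rw [a, b, ← map_mul]
  · exact hu.trans h2
  · exact mix h1 ha (by ring) hu hv hw
  · exact mix h1 ha (by ring) hu hv hw
  · exact hw.trans h2

end LADBx

theorem p_LADB (hASM : S_ASM) (hLADI : S_LADI) :
    S_LADB := by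
  intro R _ A B L _ _ _ _ _ hD ab ρ κ h1 hκ ha hq Q t p hQ hl
  obtain ⟨c, hc⟩ : ∃ c, c = κ * ρ ^ 3 := ⟨_, rfl⟩
  obtain ⟨h, hh⟩ : ∃ h, h = max 1 (ab (X Q)) := ⟨_, rfl⟩
  have h2 : 1 ≤ h := hh ▸ le_max_left _ _
  have h3 : ab (X Q) ≤ h := hh ▸ le_max_right _ _
  have c1 : 1 ≤ c := hc ▸ one_le_mul_of_one_le_of_one_le hκ (one_le_pow₀ h1)
  have c0 : 0 < c := by linarith
  have h0 : 0 < h := by linarith
  have n0 : ∀ p : L × L, 0 ≤ max (ab p.1) (ab p.2) := fun p => le_max_of_le_left (ab.nonneg _)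
  have sq : ∀ (p q : L × L) (m : ℝ), 0 ≤ m →
      n3 ab (f0 (A : L) B p q) (f1 (A : L) B p q) (f2 p q) ≤ ρ * m →
      (max (ab p.1) (ab p.2) * max (ab q.1) (ab q.2)) ^ 2 ≤ c * m := fun p q m _ hm => by
    refine (pow_le_pow_left₀ (mul_nonneg (n0 p) (n0 q)) (LADBx.prod h1 ha p q) 2).trans ?_
    rw [mul_pow, hc, show κ * ρ ^ 3 * m = ρ ^ 2 * (κ * (ρ * m)) by ring]
    exact mul_le_mul_of_nonneg_left ((hq _ _ _).trans
      (mul_le_mul_of_nonneg_left hm (by linarith))) (by positivity)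
  have key : c * h ^ t ^ 2 ≤ c ^ t ^ 2 * max (ab p.1) (ab p.2) := by
    induction hl with
    | one => simp [hh, max_comm]
    | @dbl k p _ ih =>
      have a1 := sq p p _ (n0 (f0 (A : L) B p p, f1 (A : L) B p p)) (by
        rw [show f2 p p = 0 by unfold f2 g2; ring, n3, map_zero, max_eq_left (ab.nonneg _)]
        exact le_mul_of_one_le_left (n0 (_, _)) h1)
      have a2 := pow_le_pow_left₀ (by positivity) ih 4
      refine le_of_mul_le_mul_left ?_ c0
      calc c * (c * h ^ (2 * k) ^ 2) ≤ c ^ 2 * (c * (c * h ^ (2 * k) ^ 2)) :=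
            le_mul_of_one_le_left (by positivity) (one_le_pow₀ c1)
        _ = (c * h ^ k ^ 2) ^ 4 := by ring
        _ ≤ c ^ (2 * k) ^ 2 * (max (ab p.1) (ab p.2) * max (ab p.1) (ab p.2)) ^ 2 :=
            a2.trans_eq (by ring)
        _ ≤ _ := (mul_le_mul_of_nonneg_left a1 (by positivity)).trans_eq (by ring)
    | @stp k p q l1 l2 ih ih' =>
      obtain ⟨d, -, e0, e1, e2⟩ := hASM A B L hD _ _ p q (hLADI A B L hD Q _ p hQ l1)
        (hLADI A B L hD Q _ q hQ l2)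
      rw [show ((k + 1 : ℕ) : ℤ) • Q - (k : ℤ) • Q = Q by
        rw [← sub_smul]; simp, xr_ne hQ] at e0 e1 e2
      obtain ⟨r, hr⟩ : ∃ r : L × L, r = (f1 (A : L) B p q - X Q * f2 p q, f2 p q) := ⟨_, rfl⟩
      have r1 : ab r.1 ≤ max (ab r.1) (ab r.2) := le_max_left _ _
      have r2 : ab r.2 ≤ max (ab r.1) (ab r.2) := le_max_right _ _
      have r3 : max (ab r.1) (ab r.2) ≤ h * max (ab r.1) (ab r.2) := le_mul_of_one_le_left (n0 r) h2
      have r4 : h * max (ab r.1) (ab r.2) ≤ ρ * (h * max (ab r.1) (ab r.2)) :=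
        le_mul_of_one_le_left ((n0 r).trans r3) h1
      have a1 := sq p q _ ((n0 r).trans r3) (by
        rw [show f0 (A : L) B p q = X Q * r.1 by rw [hr, e0, e1, e2]; ring,
          show f1 (A : L) B p q = r.1 + X Q * r.2 by rw [hr]; ring,
          show f2 p q = r.2 by rw [hr]]
        refine max_le ?_ (max_le ((ha _ _).trans (mul_le_mul_of_nonneg_left
          (max_le (r1.trans r3) ?_) (by linarith))) ((r2.trans r3).trans r4))
        · rw [map_mul]; exact (mul_le_mul h3 r1 (ab.nonneg _) h0.le).trans r4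
        · rw [map_mul]; exact mul_le_mul h3 r2 (ab.nonneg _) h0.le)
      have a2 := pow_le_pow_left₀ (by positivity)
        (mul_le_mul ih ih' (by positivity) (mul_nonneg (by positivity) (n0 p))) 2
      rw [← hr]
      refine le_of_mul_le_mul_left ?_ (show 0 < c ^ 2 * h by positivity)
      calc c ^ 2 * h * (c * h ^ (2 * k + 1) ^ 2) ≤ c * (c ^ 2 * h * (c * h ^ (2 * k + 1) ^ 2)) :=
            le_mul_of_one_le_left (by positivity) c1
        _ = (c * h ^ (k + 1) ^ 2 * (c * h ^ k ^ 2)) ^ 2 := by ring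
        _ ≤ c ^ (2 * k + 1) ^ 2 * c * (max (ab p.1) (ab p.2) * max (ab q.1) (ab q.2)) ^ 2 :=
            a2.trans_eq (by ring)
        _ ≤ _ := (mul_le_mul_of_nonneg_left a1 (by positivity)).trans_eq (by ring)
  rw [← hc, ← hh]
  obtain ⟨m, hm⟩ : ∃ m, t ^ 2 = m + 1 := ⟨t ^ 2 - 1, by have := pow_pos hl.pos 2; omega⟩
  rw [hm] at key ⊢
  rw [Nat.add_sub_cancel]
  refine le_of_mul_le_mul_left (key.trans_eq ?_) c0
  ring

end Pool.Agent.P.MP_ab3ecb_nt.AM
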