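import Pool.Agent.P.MP_ab3ecb_nt.AM.Iface

/-! Step LADI. -/

set_option autoImplicit false

namespace Pool.Agent.P.MP_ab3ecb_nt.AM

open Filter Topology NumberField IsDedekindDomain Finset Real Pool.Agent.P.MP_ab3ecb_nt.TK
open scoped Classical NNReal

theorem p_LADI (hASM : S_ASM) :
    S_LADI := by
  intro R _ A B L _ _ _ _ _ hD Q t p hQ h
  induction h with
  | one => exact ⟨1, one_ne_zero, by simp [xr_ne hQ], by simp [xr_ne hQ]⟩
  | @dbl k p _ ih =>
    obtain ⟨c, c0, e0, e1, -⟩ := hASM A B L hD _ _ p p ih ih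
    rw [sub_self, xr_zero, ← add_zsmul] at e0 e1
    rw [show ((2 * k : ℕ) : ℤ) = k + k by push_cast; ring]
    exact ⟨c, c0, by simpa using e0, by simpa using e1⟩
  | @stp k p q _ _ ih ih' =>
    obtain ⟨c, c0, -, e1, e2⟩ := hASM A B L hD _ _ p q ih ih'
    have e : ((k + 1 : ℕ) : ℤ) • Q - (k : ℤ) • Q = Q := by
      rw [Nat.cast_succ, add_zsmul, one_zsmul, add_sub_cancel_left]
    rw [e, xr_ne hQ, ← add_zsmul] at e1 e2
    rw [show ((2 * k + 1 : ℕ) : ℤ) = ((k + 1 : ℕ) : ℤ) + k by push_cast; ring]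
    refine ⟨c, c0, ?_, by simpa using e2⟩
    show f1 _ _ p q - X Q * f2 p q = _
    rw [e1, e2]
    ring

end Pool.Agent.P.MP_ab3ecb_nt.AM
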