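import Pool.Agent.P.MP_ab3ecb_nt.AM.Iface

/-! Step LAT. -/

set_option autoImplicit false

namespace Pool.Agent.P.MP_ab3ecb_nt.AM

open Filter Topology NumberField IsDedekindDomain Finset Real Pool.Agent.P.MP_ab3ecb_nt.TK
open scoped Classical NNReal

namespace LATx

lemma prod_le {a b ε : ℝ} (ha : |a| ≤ ε) (hb : |b| ≤ ε) : |a * b| ≤ ε * ε := by
  rw [abs_mul]
  exact mul_le_mul ha hb (abs_nonneg _) ((abs_nonneg _).trans ha)

lemma est {η ε s p q x y : ℝ} (hη : 0 < η) (hε : ε ≤ η) (hs : s = 0 ∨ s = 1)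
    (hp : |p - η| ≤ ε) (hq : |q - η| ≤ ε) (hx : |x - η * (1 + s)| ≤ ε) (hy : |y - η| ≤ ε) :
    |p * x - q * y - η ^ 2 * s| ≤ (6 + s) * (η * ε) := by
  have h0 : 0 ≤ ε := (abs_nonneg _).trans hp
  have h1 := abs_le.1 (prod_le hp hx)
  have h2 := abs_le.1 (prod_le hq hy)
  have h3 : ε * ε ≤ η * ε := mul_le_mul_of_nonneg_right hε h0
  obtain ⟨a1, a2⟩ := abs_le.1 hp
  obtain ⟨b1, b2⟩ := abs_le.1 hq
  obtain ⟨c1, c2⟩ := abs_le.1 hx
  obtain ⟨d1, d2⟩ := abs_le.1 hy
  have a1' := mul_le_mul_of_nonneg_left a1 hη.le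
  have a2' := mul_le_mul_of_nonneg_left a2 hη.le
  have b1' := mul_le_mul_of_nonneg_left b1 hη.le
  have b2' := mul_le_mul_of_nonneg_left b2 hη.le
  have c1' := mul_le_mul_of_nonneg_left c1 hη.le
  have c2' := mul_le_mul_of_nonneg_left c2 hη.le
  have d1' := mul_le_mul_of_nonneg_left d1 hη.le
  have d2' := mul_le_mul_of_nonneg_left d2 hη.le
  rcases hs with rfl | rfl <;> rw [abs_le] <;> constructor <;> linarith [h1.1, h1.2, h2.1, h2.2]

lemma det_ne {k : ℕ} {η ε m : ℝ} (hη : 0 < η) (hε : 0 < ε) (hm : 0 < m)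
    (he : η = (7 * k + 7) * ε) (β : Matrix (Fin k) (Fin k) ℤ)
    (h : ∀ j l, |(β j l : ℝ) / m - η ^ 2 * (if j = l then 1 else 0)| ≤
      (6 + (if j = l then 1 else 0)) * (η * ε)) : β.det ≠ 0 := by
  have key : (β.map (Int.cast : ℤ → ℝ)).det ≠ 0 := by
    refine det_ne_zero_of_sum_row_lt_diag fun j => ?_
    have hk : (1 : ℝ) ≤ k := by exact_mod_cast j.pos
    have hp : 0 < η * ε := mul_pos hη hε
    have h1 : ∑ l ∈ univ.erase j, ‖β.map (Int.cast : ℤ → ℝ) j l‖ ≤ k * (6 * (η * ε) * m) := by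
      refine (Finset.sum_le_card_nsmul _ _ (6 * (η * ε) * m) fun l hl => ?_).trans ?_
      · have := h j l
        rw [if_neg (ne_of_mem_erase hl).symm, mul_zero, sub_zero, add_zero, abs_div,
          abs_of_pos hm, div_le_iff₀ hm] at this
        simpa using this
      · rw [nsmul_eq_mul]
        refine mul_le_mul_of_nonneg_right ?_ (by positivity)
        have : (univ.erase j).card ≤ k := by simpa using Finset.card_erase_le (s := univ) (a := j)
        exact_mod_cast this
    have h2 : 7 * k * (η * ε) * m ≤ (β j j : ℝ) := by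
      have := (abs_le.1 (h j j)).1
      rw [if_pos rfl] at this
      rw [← le_div_iff₀ hm]
      have h3 : η ^ 2 = (7 * k + 7) * (η * ε) := by
        rw [sq]
        nth_rewrite 2 [he]
        ring
      linarith
    have h3 : 0 < k * (η * ε * m) := by positivity
    refine h1.trans_lt (lt_of_lt_of_le ?_ (h2.trans ?_))
    · linarith
    · exact le_abs_self _
  intro h0
  apply key
  have := (Int.castRingHom ℝ).map_det β
  rw [h0, map_zero] at this
  exact this.symm

end LATx

theorem p_LAT (hCOV : S_COV) :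
    S_LAT := by
  intro k δ hδ
  obtain ⟨η, hηd⟩ : ∃ η : ℝ, δ = 3 * η := ⟨δ / 3, by ring⟩
  have hη : 0 < η := by linarith
  obtain ⟨ε, he⟩ : ∃ ε : ℝ, η = (7 * k + 7) * ε := ⟨η / (7 * k + 7), by field_simp⟩
  have hk : (0 : ℝ) ≤ k := Nat.cast_nonneg k
  have hε : 0 < ε := by
    by_contra hc
    nlinarith
  have hεη : ε < η := by nlinarith
  obtain ⟨C, hC⟩ := hCOV (Option (Fin k)) ε hε
  refine ⟨C, fun M r hM hR => ?_⟩
  have hm : (0 : ℝ) < M := by exact_mod_cast hM
  have hcov := hC M (fun i => i.elim 1 r) hM fun ξ h1 h2 => by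
    by_contra h0
    refine hR ⟨fun l => ξ (some l), -ξ none, ?_, fun l => h1 _, by rw [abs_neg]; exact h1 _, ?_⟩
    · by_contra h3
      push Not at h3
      apply h0
      funext i
      cases i with
      | none => simpa using h3.2
      | some l => exact congrFun h3.1 l
    · rw [Fintype.sum_option] at h2
      simpa [add_comm] using h2
  choose h n hn using fun j : Fin (k + 1) =>
    hcov fun i => i.elim η fun l => η * (1 + if j = l.succ then 1 else 0)
  have hb : ∀ j l, |((h j * r l - n j (some l) * M : ℤ) : ℝ) / M -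
      η * (1 + if j = l.succ then 1 else 0)| ≤ ε := fun j l => by
    have := hn j (some l)
    simp only [Option.elim_some] at this
    convert this using 3
    push_cast
    field_simp
  have ht : ∀ j, |((h j - n j none * M : ℤ) : ℝ) / M - η| ≤ ε := fun j => by
    have := hn j none
    simp only [Option.elim_none] at this
    convert this using 3
    push_cast
    field_simp
  have ht0 : ∀ j, 0 < h j - n j none * M := fun j => by
    have h1 := (abs_le.1 (ht j)).1
    have h2 : (0 : ℝ) < ((h j - n j none * M : ℤ) : ℝ) / M := by linarith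
    exact_mod_cast (div_pos_iff_of_pos_right hm).1 h2
  have htc : ∀ j, ((h j - n j none * M).toNat : ℤ) = h j - n j none * M := fun j =>
    Int.toNat_of_nonneg (ht0 j).le
  refine ⟨⟨M, r, fun j l => h j * r l - n j (some l) * M, fun j l => n j none * r l - n j (some l),
    fun j => (h j - n j none * M).toNat, hM, fun j => ?_, fun j l h0 => ?_, fun j l => ?_, ?_⟩,
    rfl, rfl, fun j l => ?_, fun j => ?_⟩
  · have := ht0 j
    omega
  · have h1 := (abs_le.1 (hb j l)).1
    rw [h0] at h1
    split_ifs at h1 <;> simp at h1 <;> linarith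
  · rw [htc]
    ring
  · refine LATx.det_ne hη hε hm he _ fun j l => ?_
    have hs : (if j = l then (1 : ℝ) else 0) = 0 ∨ (if j = l then (1 : ℝ) else 0) = 1 := by
      split_ifs <;> simp
    have h1 := hb j.succ l
    have h2 := hb 0 l
    rw [if_neg (Fin.succ_ne_zero l).symm, add_zero, mul_one] at h2
    simp only [Fin.succ_inj] at h1
    convert LATx.est hη hεη.le hs (ht 0) (ht j.succ) h1 h2 using 3
    rw [Matrix.of_apply, htc, htc]
    push_cast
    field_simp
    ring
  · have h1 := abs_le.1 (hb j l)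
    have h2 : |((h j * r l - n j (some l) * M : ℤ) : ℝ) / M| ≤ δ := by
      rw [abs_le]
      split_ifs at h1 <;> constructor <;> linarith [h1.1, h1.2]
    rwa [abs_div, abs_of_pos hm, div_le_iff₀ hm] at h2
  · have h1 := (abs_le.1 (ht j)).2
    have h2 : ((h j - n j none * M : ℤ) : ℝ) / M ≤ δ := by linarith
    rw [div_le_iff₀ hm, ← htc] at h2
    exact_mod_cast h2

end Pool.Agent.P.MP_ab3ecb_nt.AM
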