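import Pool.Agent.P.MP_ab3ecb_nt.AM.Iface

/-! Step LIO. -/

set_option autoImplicit false

namespace Pool.Agent.P.MP_ab3ecb_nt.AM

open Filter Topology NumberField IsDedekindDomain Finset Real Pool.Agent.P.MP_ab3ecb_nt.TK
open scoped Classical NNReal

theorem p_LIO (hEVB : S_EVB) (hGAL : S_GAL) :
    S_LIO := by
  intro K _ _ W σ _ p
  obtain ⟨c, c1, hc⟩ := hEVB K W σ p
  have c0 := log_nonneg c1
  refine ⟨log c * W.d + p.totalDegree, by positivity, fun α J x H s η hG hb hn hs => ?_⟩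
  obtain ⟨z, z0, hz⟩ := hGAL K α σ J x (fun y => MvPolynomial.aeval y p) hG fun τ y =>
    (MvPolynomial.comp_aeval_apply y (τ.toAlgHom.restrictScalars (𝓞 K)) p).symm
  have H0 := hb.nonneg
  have t0 : ∀ i a, 0 ≤ log c * W.th i + p.totalDegree * ∑ l, log⁺ (W.ab i (x a l)) := fun i a =>
    add_nonneg (by positivity) (mul_nonneg (Nat.cast_nonneg _) (sum_nonneg fun _ _ => posLog_nonneg))
  have h1 : ∀ i a, MvPolynomial.aeval (x a) p ≠ 0 → log (W.ab i (MvPolynomial.aeval (x a) p)) ≤
      log c * W.th i + p.totalDegree * ∑ l, log⁺ (W.ab i (x a l)) := fun i a ha => by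
    refine (log_le_log ((W.ab i).pos ha) (hc i (x a))).trans_eq ?_
    rw [log_mul (by positivity) (by positivity), log_pow, log_pow, log_prod fun _ _ => by positivity,
      mul_comm]
    simp only [posLog_eq_log_max_one ((W.ab i).nonneg _)]
  have h2 : ∀ i, log (W.ab i (algebraMap K (Om K) z)) =
      ∑ a ∈ J.filter (fun a => MvPolynomial.aeval (x a) p ≠ 0),
        log (W.ab i (MvPolynomial.aeval (x a) p)) := fun i => by
    rw [hz, map_prod, log_prod fun a ha => ((W.ab i).pos (mem_filter.1 ha).2).ne']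
  have h3 : ∀ i, ∑ a ∈ J.filter (fun a => MvPolynomial.aeval (x a) p ≠ 0),
      (log c * W.th i + p.totalDegree * ∑ l, log⁺ (W.ab i (x a l))) ≤
      H * (log c * W.th i) + p.totalDegree * W.lam J x i := fun i => by
    refine (sum_le_sum_of_subset_of_nonneg (filter_subset _ _) fun a _ _ => t0 i a).trans ?_
    rw [sum_add_distrib, sum_const, ← mul_sum, nsmul_eq_mul]
    exact add_le_add (mul_le_mul_of_nonneg_right hn (by positivity)) le_rfl
  refine (W.pf_le z0 s (fun i hi => le_trans ?_ (h3 i)) (fun i => le_trans ?_ (h3 i))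
    (((W.thd.mul c0).mul H0).add (hb.mul (Nat.cast_nonneg p.totalDegree)))).trans_eq (by ring)
  · obtain ⟨a, ha, h4, h5⟩ := hs i hi
    have h6 : a ∈ J.filter fun a => MvPolynomial.aeval (x a) p ≠ 0 := mem_filter.2 ⟨ha, h4⟩
    have h7 := log_le_log ((W.ab i).pos h4) h5
    rw [log_exp] at h7
    rw [h2, ← add_sum_erase _ _ h6, ← add_sum_erase _ _ h6]
    have h8 := sum_le_sum fun b (hb : b ∈ (J.filter fun a => MvPolynomial.aeval (x a) p ≠ 0).erase a) =>
      h1 i b (mem_filter.1 (mem_of_mem_erase hb)).2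
    linarith [t0 i a]
  · rw [h2]
    exact sum_le_sum fun a ha => h1 i a (mem_filter.1 ha).2

end Pool.Agent.P.MP_ab3ecb_nt.AM
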