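import Pool.Agent.P.MP_ab3ecb_nt.AM.Iface

/-! Step LIP. -/

set_option autoImplicit false

namespace Pool.Agent.P.MP_ab3ecb_nt.AM

open Filter Topology NumberField IsDedekindDomain Finset Real Pool.Agent.P.MP_ab3ecb_nt.TK
open scoped Classical NNReal

namespace LIPx

variable {R : Type} [CommRing R] {L : Type} [Field L] [Algebra R L] (w : Valuation L ℝ≥0)
  {k : ℕ} (Λ δ : ℝ≥0) (x x' : Fin k → L)

/-- The differential. -/
noncomputable def df (f : MvPolynomial (Fin k) R) : L :=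
  ∑ l, MvPolynomial.aeval x (MvPolynomial.pderiv l f) * (x' l - x l)

/-- The five bounds. -/
def Good (f : MvPolynomial (Fin k) R) (D : ℕ) : Prop :=
  w (MvPolynomial.aeval x f) ≤ Λ ^ D ∧ w (MvPolynomial.aeval x' f) ≤ Λ ^ D ∧
    w (MvPolynomial.aeval x' f - MvPolynomial.aeval x f) ≤ δ * Λ ^ D ∧
    w (df x x' f) ≤ δ * Λ ^ D ∧
    w (MvPolynomial.aeval x' f - MvPolynomial.aeval x f - df x x' f) ≤ δ ^ 2 * Λ ^ D

variable {w Λ δ x x'}

lemma df_add (f g : MvPolynomial (Fin k) R) : df x x' (f + g) = df x x' f + df x x' g := by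
  simp only [df, map_add, add_mul, sum_add_distrib]

lemma df_mul (f g : MvPolynomial (Fin k) R) : df x x' (f * g) =
    df x x' f * MvPolynomial.aeval x g + MvPolynomial.aeval x f * df x x' g := by
  simp only [df, MvPolynomial.pderiv_mul, map_add, map_mul, sum_mul, mul_sum, ← sum_add_distrib]
  exact sum_congr rfl fun l _ => by ring

lemma df_C (a : R) : df x x' (MvPolynomial.C a : MvPolynomial (Fin k) R) = 0 := by
  simp [df]

lemma df_X (l : Fin k) : df x x' (MvPolynomial.X l : MvPolynomial (Fin k) R) = x' l - x l := by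
  rw [df, sum_eq_single l]
  · simp
  · intro j _ hj
    rw [MvPolynomial.pderiv_X_of_ne hj.symm]; simp
  · simp

lemma Good.mono (hΛ : 1 ≤ Λ) {f : MvPolynomial (Fin k) R} {D E : ℕ} (h : Good w Λ δ x x' f D)
    (hD : D ≤ E) : Good w Λ δ x x' f E := by
  have h1 : Λ ^ D ≤ Λ ^ E := pow_le_pow_right₀ hΛ hD
  obtain ⟨a, b, c, d, e⟩ := h
  exact ⟨a.trans h1, b.trans h1, c.trans (by gcongr), d.trans (by gcongr), e.trans (by gcongr)⟩

lemma good_C [Algebra.IsIntegral ℤ R] (a : R) :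
    Good w Λ δ x x' (MvPolynomial.C a : MvPolynomial (Fin k) R) 0 := by
  have h : w (algebraMap R L a) ≤ 1 := v_int w a
  refine ⟨?_, ?_, ?_, ?_, ?_⟩ <;> simp [df_C, h]

lemma good_X (hΛ : 1 ≤ Λ) (hx : ∀ l, w (x l) ≤ Λ) (hx' : ∀ l, w (x' l) ≤ Λ)
    (hd : ∀ l, w (x' l - x l) ≤ δ) (l : Fin k) :
    Good w Λ δ x x' (MvPolynomial.X l : MvPolynomial (Fin k) R) 1 := by
  have h : w (x' l - x l) ≤ δ * Λ := (hd l).trans (le_mul_of_one_le_right zero_le hΛ)
  refine ⟨?_, ?_, ?_, ?_, ?_⟩ <;> simp [df_X, h, hx l, hx' l]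

lemma Good.add {f g : MvPolynomial (Fin k) R} {D : ℕ} (h : Good w Λ δ x x' f D)
    (h' : Good w Λ δ x x' g D) : Good w Λ δ x x' (f + g) D := by
  obtain ⟨a, b, c, d, e⟩ := h
  obtain ⟨a', b', c', d', e'⟩ := h'
  refine ⟨?_, ?_, ?_, ?_, ?_⟩
  · rw [map_add]; exact w.map_add_le a a'
  · rw [map_add]; exact w.map_add_le b b'
  · convert w.map_add_le c c' using 2
    simp only [map_add]; ring
  · rw [df_add]; exact w.map_add_le d d'
  · convert w.map_add_le e e' using 2
    simp only [map_add, df_add]; ring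

lemma Good.mul {f g : MvPolynomial (Fin k) R} {D E : ℕ} (h : Good w Λ δ x x' f D)
    (h' : Good w Λ δ x x' g E) : Good w Λ δ x x' (f * g) (D + E) := by
  obtain ⟨a, b, c, d, e⟩ := h
  obtain ⟨a', b', c', d', e'⟩ := h'
  have m : ∀ {y z : L} {p q r : ℝ≥0}, w y ≤ p → w z ≤ q → p * q = r → w (y * z) ≤ r := by
    intro y z p q r h1 h2 h3
    rw [map_mul, ← h3]; exact mul_le_mul' h1 h2
  refine ⟨?_, ?_, ?_, ?_, ?_⟩
  · rw [map_mul]; exact m a a' (by ring)
  · rw [map_mul]; exact m b b' (by ring)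
  · convert w.map_add_le (m c b' (r := δ * Λ ^ (D + E)) (by ring)) (m a c' (by ring)) using 2
    simp only [map_mul]; ring
  · rw [df_mul]; exact w.map_add_le (m d a' (by ring)) (m a d' (by ring))
  · convert w.map_add_le (w.map_add_le (m e b' (r := δ ^ 2 * Λ ^ (D + E)) (by ring))
      (m a e' (by ring))) (m d c' (by ring)) using 2
    simp only [map_mul, df_mul]; ring

lemma Good.pow [Algebra.IsIntegral ℤ R] {f : MvPolynomial (Fin k) R} (h : Good w Λ δ x x' f 1)
    (n : ℕ) : Good w Λ δ x x' (f ^ n) n := by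
  induction n with
  | zero => simpa using good_C (w := w) (Λ := Λ) (δ := δ) (x := x) (x' := x') (1 : R)
  | succ n ih => rw [pow_succ]; exact ih.mul h

lemma good_prod [Algebra.IsIntegral ℤ R] {α : Type} (s : Finset α)
    (f : α → MvPolynomial (Fin k) R) (D : α → ℕ) (h : ∀ a ∈ s, Good w Λ δ x x' (f a) (D a)) :
    Good w Λ δ x x' (∏ a ∈ s, f a) (∑ a ∈ s, D a) := by
  induction s using Finset.induction_on with
  | empty => simpa using good_C (w := w) (Λ := Λ) (δ := δ) (x := x) (x' := x') (1 : R)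
  | insert a s ha ih =>
    rw [prod_insert ha, sum_insert ha]
    exact (h a (mem_insert_self _ _)).mul (ih fun b hb => h b (mem_insert_of_mem hb))

lemma good_sum [Algebra.IsIntegral ℤ R] (hΛ : 1 ≤ Λ) {α : Type} (s : Finset α)
    (f : α → MvPolynomial (Fin k) R) (D : ℕ) (h : ∀ a ∈ s, Good w Λ δ x x' (f a) D) :
    Good w Λ δ x x' (∑ a ∈ s, f a) D := by
  induction s using Finset.induction_on with
  | empty =>
    simpa using (good_C (w := w) (Λ := Λ) (δ := δ) (x := x) (x' := x') (0 : R)).mono hΛ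
      (Nat.zero_le D)
  | insert a s ha ih =>
    rw [sum_insert ha]
    exact (h a (mem_insert_self _ _)).add (ih fun b hb => h b (mem_insert_of_mem hb))

end LIPx

open LIPx in
theorem p_LIP :
    S_LIP := by
  intro R _ _ L _ _ w k f D Λ δ x x' hD hΛ hx hx' hd
  have h : Good w Λ δ x x' f D := by
    rw [f.as_sum]
    refine good_sum hΛ _ _ _ fun m hm => ?_
    rw [MvPolynomial.monomial_eq]
    refine ((good_C _).mul (good_prod m.support _ (fun l => m l) fun l _ =>
      (good_X hΛ hx hx' hd l).pow _)).mono hΛ ?_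
    rw [zero_add]
    exact (MvPolynomial.le_totalDegree hm).trans hD
  exact ⟨h.1, h.2.2.1, h.2.2.2.2⟩

end Pool.Agent.P.MP_ab3ecb_nt.AM
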