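import Pool.Agent.P.MP_ab3ecb_nt.AM.Iface

/-! Step NORM. -/

set_option autoImplicit false

namespace Pool.Agent.P.MP_ab3ecb_nt.AM

open Filter Topology NumberField IsDedekindDomain Finset Real Pool.Agent.P.MP_ab3ecb_nt.TK
open scoped Classical NNReal

namespace NORMx

open MvPolynomial (aeval supported)

variable {K : Type} [Field K] {k : ℕ}

/-- All pairs of coordinates satisfy the equation. -/
def Cv (a b : K) {L : Type} [Field L] [Algebra K L] (w : Fin k × Fin 2 → L) : Prop :=
  ∀ l, w (l, 1) ^ 2 = w (l, 0) ^ 3 + algebraMap K L a * w (l, 0) + algebraMap K L b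

/-- The cubic in the first coordinate. -/
noncomputable def cu (a b : K) (l : Fin k) : MvPolynomial (Fin k × Fin 2) K :=
  MvPolynomial.X (l, 0) ^ 3 + MvPolynomial.C a * MvPolynomial.X (l, 0) + MvPolynomial.C b

lemma agree {σ S : Type} [CommRing S] [Algebra K S] {T : Set σ} {H : MvPolynomial σ K}
    (hH : H ∈ supported K T) (f g : MvPolynomial σ K →ₐ[K] S)
    (h : ∀ s ∈ T, f (MvPolynomial.X s) = g (MvPolynomial.X s)) : f H = g H := by
  rw [MvPolynomial.supported_eq_adjoin_X] at hH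
  refine (Algebra.adjoin_le (S := AlgHom.equalizer f g) ?_) hH
  rintro _ ⟨s, hs, rfl⟩
  exact h s hs

lemma cu_mem (a b : K) (l : Fin k) {T : Set (Fin k × Fin 2)} (h : (l, 0) ∈ T) :
    cu a b l ∈ supported K T := by
  have h1 : (MvPolynomial.X (l, 0) : MvPolynomial (Fin k × Fin 2) K) ∈ supported K T :=
    MvPolynomial.X_mem_supported.2 h
  exact add_mem (add_mem (pow_mem h1 3) (mul_mem (Subalgebra.algebraMap_mem _ a) h1))
    (Subalgebra.algebraMap_mem _ b)

lemma split (a b : K) (l : Fin k) {T : Set (Fin k × Fin 2)} (h : (l, 0) ∈ T)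
    {H : MvPolynomial (Fin k × Fin 2) K} (hH : H ∈ supported K (insert (l, 1) T)) :
    ∃ p ∈ supported K T, ∃ q ∈ supported K T, ∃ c, H = p + q * MvPolynomial.X (l, 1) +
      c * (MvPolynomial.X (l, 1) ^ 2 - cu a b l) := by
  rw [MvPolynomial.supported_eq_adjoin_X] at hH
  induction hH using Algebra.adjoin_induction with
  | mem x hx =>
    obtain ⟨s, hs | hs, rfl⟩ := hx
    · exact ⟨0, zero_mem _, 1, one_mem _, 0, by rw [hs]; ring⟩
    · exact ⟨_, MvPolynomial.X_mem_supported.2 hs, 0, zero_mem _, 0, by ring⟩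
  | algebraMap r => exact ⟨_, Subalgebra.algebraMap_mem _ r, 0, zero_mem _, 0, by ring⟩
  | add x y _ _ hx hy =>
    obtain ⟨p, hp, q, hq, c, rfl⟩ := hx
    obtain ⟨p', hp', q', hq', c', rfl⟩ := hy
    exact ⟨_, add_mem hp hp', _, add_mem hq hq', c + c', by ring⟩
  | mul x y _ _ hx hy =>
    obtain ⟨p, hp, q, hq, c, rfl⟩ := hx
    obtain ⟨p', hp', q', hq', c', rfl⟩ := hy
    refine ⟨_, add_mem (mul_mem hp hp') (mul_mem (mul_mem hq hq') (cu_mem a b l h)), _,
      add_mem (mul_mem hp hq') (mul_mem hq hp'), q * q' + c * (p' + q' * MvPolynomial.X (l, 1)) +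
      c' * (p + q * MvPolynomial.X (l, 1) + c * (MvPolynomial.X (l, 1) ^ 2 - cu a b l)), by ring⟩

lemma parity {F : Type} [Field F] (a b : F) {p q : Polynomial F}
    (h : p ^ 2 = q ^ 2 * (Polynomial.X ^ 3 + Polynomial.C a * Polynomial.X + Polynomial.C b)) :
    p = 0 ∧ q = 0 := by
  have h3 : (Polynomial.X ^ 3 + Polynomial.C a * Polynomial.X + Polynomial.C b :
      Polynomial F).natDegree = 3 := by compute_degree!
  have h4 : (Polynomial.X ^ 3 + Polynomial.C a * Polynomial.X + Polynomial.C b :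
      Polynomial F) ≠ 0 := fun h5 => by rw [h5] at h3; simp at h3
  have hq : q = 0 := by
    by_contra hq
    have h5 := congrArg Polynomial.natDegree h
    rw [Polynomial.natDegree_mul (pow_ne_zero 2 hq) h4, h3, Polynomial.natDegree_pow,
      Polynomial.natDegree_pow] at h5
    omega
  rw [hq] at h
  exact ⟨by simpa using h, hq⟩

lemma ev_cu {a b : K} {L : Type} [Field L] [Algebra K L] {w : Fin k × Fin 2 → L} (hw : Cv a b w)
    (l : Fin k) : aeval w (cu a b l) = w (l, 1) ^ 2 := by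
  simp [cu, hw l]

lemma step {F : Type} [Field F] [Algebra K F] [IsAlgClosed F] (a b : K) (l : Fin k)
    {T : Set (Fin k × Fin 2)} (h1 : (l, 1) ∉ T) {p q : MvPolynomial (Fin k × Fin 2) K}
    (hp : p ∈ supported K T) (hq : q ∈ supported K T) {w : Fin k × Fin 2 → F} (hw : Cv a b w)
    (h : aeval w p ≠ 0 ∨ aeval w q ≠ 0) :
    ∃ w' : Fin k × Fin 2 → F, Cv a b w' ∧ aeval w' (p ^ 2 - q ^ 2 * cu a b l) ≠ 0 := by
  let φ : MvPolynomial (Fin k × Fin 2) K →ₐ[K] Polynomial F :=
    aeval fun s => if s = (l, 0) then Polynomial.X else Polynomial.C (w s)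
  have key : ∀ (w' : Fin k × Fin 2 → F), (∀ s, s.1 ≠ l → w' s = w s) → ∀ r ∈ supported K T,
      aeval w' r = (φ r).eval (w' (l, 0)) := fun w' hw' r hr => by
    refine agree hr (aeval w') (((Polynomial.aeval (w' (l, 0))).restrictScalars K).comp φ) ?_
    rintro ⟨m, i⟩ hs
    by_cases hm : m = l
    · subst hm
      obtain rfl : i = 0 := by
        by_contra hi
        exact h1 (by rwa [show i = 1 by omega] at hs)
      simp [φ]
    · simp [φ, hm, hw' (m, i) hm]
  have hD : φ p ^ 2 - φ q ^ 2 * (Polynomial.X ^ 3 + Polynomial.C (algebraMap K F a) *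
      Polynomial.X + Polynomial.C (algebraMap K F b)) ≠ 0 := fun h2 => by
    obtain ⟨h3, h4⟩ := parity _ _ (sub_eq_zero.1 h2)
    rw [key w (fun _ _ => rfl) p hp, key w (fun _ _ => rfl) q hq, h3, h4] at h
    simp at h
  obtain ⟨t, ht⟩ := not_forall.1 fun h2 => hD (Polynomial.zero_of_eval_zero _ h2)
  obtain ⟨y, hy⟩ := IsAlgClosed.exists_pow_nat_eq
    (t ^ 3 + algebraMap K F a * t + algebraMap K F b) two_pos
  let w' : Fin k × Fin 2 → F := fun s => if s.1 = l then ![t, y] s.2 else w s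
  have e0 : w' (l, 0) = t := by simp [w']
  have e1 : w' (l, 1) = y := by simp [w']
  have e2 : ∀ s, s.1 ≠ l → w' s = w s := fun s hs => if_neg hs
  have hw' : Cv a b w' := fun m => by
    by_cases hm : m = l
    · rw [hm, e0, e1, hy]
    · rw [e2 (m, 0) hm, e2 (m, 1) hm, hw m]
  refine ⟨w', hw', ?_⟩
  rw [map_sub, map_mul, map_pow, map_pow, key w' e2 p hp, key w' e2 q hq, ev_cu hw', e0, e1, hy]
  simpa using ht

lemma main {F : Type} [Field F] [Algebra K F] [IsAlgClosed F] (a b : K) (s : Finset (Fin k)) :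
    ∀ H ∈ supported K {p : Fin k × Fin 2 | p.2 = 0 ∨ p.1 ∈ s},
      (∃ w : Fin k × Fin 2 → F, Cv a b w ∧ aeval w H ≠ 0) →
      ∃ g : MvPolynomial (Fin k) K, g ≠ 0 ∧ ∀ (L : Type) [Field L] [Algebra K L]
        (w : Fin k × Fin 2 → L), Cv a b w → aeval w H = 0 → aeval (fun l => w (l, 0)) g = 0 := by
  induction s using Finset.induction_on with
  | empty =>
    rintro H hH ⟨w, -, hw⟩
    have key : ∀ (L : Type) [Field L] [Algebra K L] (w : Fin k × Fin 2 → L),
        aeval w H = aeval (fun l => w (l, 0)) (MvPolynomial.rename Prod.fst H) :=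
      fun L _ _ w => by
        refine agree hH (aeval w) ((aeval fun l => w (l, 0)).comp (MvPolynomial.rename Prod.fst)) ?_
        rintro ⟨m, i⟩ hs
        obtain rfl : i = 0 := by simpa using hs
        simp
    refine ⟨MvPolynomial.rename Prod.fst H, fun h => hw ?_, fun L _ _ w _ h => key L w ▸ h⟩
    rw [key, h, map_zero]
  | insert l s hl ih =>
    rintro H hH ⟨w, hw, hw0⟩
    have h0 : (l, (0 : Fin 2)) ∈ {p : Fin k × Fin 2 | p.2 = 0 ∨ p.1 ∈ s} := Or.inl rfl
    obtain ⟨p, hp, q, hq, c, rfl⟩ := split a b l h0 (MvPolynomial.supported_mono (by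
      rintro ⟨m, i⟩ hm
      by_cases hi : i = 0
      · exact Or.inr (Or.inl hi)
      · rcases Finset.mem_insert.1 (hm.resolve_left hi) with h | h
        · exact Or.inl (Prod.ext h (show i = 1 by omega))
        · exact Or.inr (Or.inr h)) hH)
    have ev : ∀ (L : Type) [Field L] [Algebra K L] (w : Fin k × Fin 2 → L), Cv a b w →
        aeval w (p + q * MvPolynomial.X (l, 1) + c * (MvPolynomial.X (l, 1) ^ 2 - cu a b l)) =
        aeval w p + aeval w q * w (l, 1) := fun L _ _ w hw => by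
      simp [ev_cu hw]
    obtain ⟨g, hg, hg'⟩ := ih _ (sub_mem (pow_mem hp 2) (mul_mem (pow_mem hq 2) (cu_mem a b l h0)))
      (step a b l (by simp [hl]) hp hq hw (by
        by_contra h
        rw [not_or, not_not, not_not] at h
        rw [ev F w hw, h.1, h.2] at hw0
        simp at hw0))
    refine ⟨g, hg, fun L _ _ w hw h => hg' L w hw ?_⟩
    rw [ev L w hw] at h
    rw [map_sub, map_mul, map_pow, map_pow, ev_cu hw]
    linear_combination (aeval w p - aeval w q * w (l, 1)) * h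

end NORMx

theorem p_NORM :
    S_NORM := by
  intro K _ _ A B _ k H z₀ h0 hH
  have cv : ∀ (L : Type) [Field L] [Algebra K L] (z : Fin k → Pt A B L), (∀ l, z l ≠ 0) →
      NORMx.Cv (A : K) (B : K) (xy z) := fun L _ _ z hz l => eqn (hz l)
  obtain ⟨g, hg, hg'⟩ := NORMx.main (F := Om K) (A : K) (B : K) Finset.univ H
    (by simp) ⟨algebraMap K (Om K) ∘ xy z₀, fun l => by
      have := congrArg (algebraMap K (Om K)) (cv K z₀ h0 l)
      simpa using this, by
      rw [MvPolynomial.aeval_algebraMap_apply]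
      simpa using hH⟩
  exact ⟨g, hg, fun L _ _ z hz h => hg' L (xy z) (cv L z hz) h⟩

end Pool.Agent.P.MP_ab3ecb_nt.AM
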