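import Pool.Agent.P.MP_ab3ecb_nt.AM.Iface

/-! Step PAR. -/

set_option autoImplicit false

namespace Pool.Agent.P.MP_ab3ecb_nt.AM

open Filter Topology NumberField IsDedekindDomain Finset Real Pool.Agent.P.MP_ab3ecb_nt.TK
open scoped Classical NNReal

namespace PARx

theorem geo (M : ℕ) (hM : 0 < M) (d : ℤ) :
    ∑ h ∈ range M, Complex.exp (2 * π * Complex.I * (h * (d : ℂ) / M)) =
      if (M : ℤ) ∣ d then (M : ℂ) else 0 := by
  have hM' : (M : ℂ) ≠ 0 := by exact_mod_cast hM.ne'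
  have e : ∀ h : ℕ, Complex.exp (2 * π * Complex.I * (h * (d : ℂ) / M)) =
      Complex.exp (2 * π * Complex.I * ((d : ℂ) / M)) ^ h := by
    intro h
    rw [← Complex.exp_nat_mul]
    congr 1
    ring
  simp only [e]
  split_ifs with hd
  · obtain ⟨c, rfl⟩ := hd
    have : Complex.exp (2 * π * Complex.I * ((((M : ℤ) * c : ℤ) : ℂ) / M)) = 1 := by
      rw [Complex.exp_eq_one_iff]
      refine ⟨c, ?_⟩
      push_cast
      field_simp
    rw [this]
    simp
  · have h1 : Complex.exp (2 * π * Complex.I * ((d : ℂ) / M)) ≠ 1 := by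
      intro h
      rw [Complex.exp_eq_one_iff] at h
      obtain ⟨n, hn⟩ := h
      apply hd
      refine ⟨n, ?_⟩
      have h2 : (2 * π * Complex.I : ℂ) ≠ 0 := Complex.two_pi_I_ne_zero
      have h3 : (d : ℂ) / M = n := by
        apply mul_left_cancel₀ h2
        rw [hn]; ring
      rw [div_eq_iff hM'] at h3
      have h4 : (d : ℂ) = ((M : ℤ) * n : ℤ) := by
        rw [h3]; push_cast; ring
      exact_mod_cast h4
    have h2 : Complex.exp (2 * π * Complex.I * ((d : ℂ) / M)) ^ M = 1 := by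
      rw [← Complex.exp_nat_mul, Complex.exp_eq_one_iff]
      refine ⟨d, ?_⟩
      field_simp
    rw [geom_sum_eq h1, h2]
    simp

theorem cj (M h : ℕ) (d e : ℤ) :
    Complex.exp (2 * π * Complex.I * (h * (d : ℂ) / M)) *
      (starRingEnd ℂ) (Complex.exp (2 * π * Complex.I * (h * (e : ℂ) / M))) =
      Complex.exp (2 * π * Complex.I * (h * ((d - e : ℤ) : ℂ) / M)) := by
  rw [← Complex.exp_conj, ← Complex.exp_add]
  congr 1
  simp only [map_mul, map_div₀, Complex.conj_I, Complex.conj_ofReal, map_natCast, map_intCast,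
    map_ofNat]
  push_cast
  ring

end PARx

theorem p_PAR :
    S_PAR := by
  intro κ _ M ρ s a hM hinj
  apply Complex.ofReal_injective
  have sq : ∀ z : ℂ, ((‖z‖ ^ 2 : ℝ) : ℂ) = z * (starRingEnd ℂ) z := by
    intro z
    rw [Complex.mul_conj, Complex.normSq_eq_norm_sq]
  rw [Complex.ofReal_sum, Complex.ofReal_mul, Complex.ofReal_sum]
  simp only [sq]
  have step : ∀ h : ℕ, (∑ ξ ∈ s, a ξ *
      Complex.exp (2 * π * Complex.I * (h * (∑ i, ξ i * ρ i : ℤ) / M))) *
      (starRingEnd ℂ) (∑ ξ ∈ s, a ξ *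
      Complex.exp (2 * π * Complex.I * (h * (∑ i, ξ i * ρ i : ℤ) / M))) =
      ∑ ξ ∈ s, ∑ ξ' ∈ s, a ξ * (starRingEnd ℂ) (a ξ') *
        Complex.exp (2 * π * Complex.I *
          (h * ((∑ i, ξ i * ρ i - ∑ i, ξ' i * ρ i : ℤ) : ℂ) / M)) := by
    intro h
    rw [map_sum, sum_mul_sum]
    refine sum_congr rfl fun ξ _ => sum_congr rfl fun ξ' _ => ?_
    rw [← PARx.cj, map_mul]
    ring
  simp only [step]
  rw [sum_comm, mul_sum]
  refine sum_congr rfl fun ξ hξ => ?_
  rw [sum_comm]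
  simp only [← mul_sum, PARx.geo M hM]
  rw [sum_eq_single ξ]
  · simp [mul_comm]
  · intro ξ' hξ' hne
    rw [if_neg, mul_zero]
    intro hd
    exact hne (hinj ξ hξ ξ' hξ' hd).symm
  · intro h
    exact absurd hξ h

end Pool.Agent.P.MP_ab3ecb_nt.AM
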