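import Pool.Agent.P.MP_ab3ecb_nt.AM.Iface

/-! Step PD. -/

set_option autoImplicit false

namespace Pool.Agent.P.MP_ab3ecb_nt.AM

open Filter Topology NumberField IsDedekindDomain Finset Real Pool.Agent.P.MP_ab3ecb_nt.TK
open scoped Classical NNReal

namespace PDx

open MvPolynomial

theorem step {R : Type} [CommRing R] {k : ℕ} (f : MvPolynomial (Fin k) R) (l : Fin k)
    (m : Fin k →₀ ℕ) (hm : m ∈ (pderiv l f).support) :
    (m.sum fun _ e => e) + 1 ≤ f.totalDegree := by
  have h1 : m + Finsupp.single l 1 ∈ f.support := by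
    rw [MvPolynomial.mem_support_iff] at hm ⊢
    intro h
    apply hm
    rw [coeff_pderiv, h, zero_mul]
  have h2 := le_totalDegree h1
  rw [Finsupp.sum_add_index' (fun _ => rfl) (fun _ _ _ => rfl), Finsupp.sum_single_index rfl] at h2
  exact h2

theorem le {R : Type} [CommRing R] {k : ℕ} (f : MvPolynomial (Fin k) R) (l : Fin k) :
    (pderiv l f).totalDegree ≤ f.totalDegree :=
  Finset.sup_le fun m hm => (Nat.le_succ _).trans (step f l m hm)

theorem lt {R : Type} [CommRing R] {k : ℕ} (f : MvPolynomial (Fin k) R) (l : Fin k)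
    (h : pderiv l f ≠ 0) : (pderiv l f).totalDegree < f.totalDegree := by
  obtain ⟨m, hm, he⟩ := Finset.exists_mem_eq_sup (pderiv l f).support
    (MvPolynomial.support_nonempty.mpr h) (fun s => s.sum fun _ e => e)
  have := step f l m hm
  unfold totalDegree at this ⊢
  omega

theorem const {R : Type} [CommRing R] [IsDomain R] [CharZero R] {k : ℕ}
    (f : MvPolynomial (Fin k) R) (h : ∀ l, pderiv l f = 0) : ∃ c, f = C c := by
  refine ⟨coeff 0 f, ?_⟩
  ext m
  rw [coeff_C]
  split_ifs with h0
  · rw [h0]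
  · obtain ⟨l, hl⟩ : ∃ l, m l ≠ 0 := by
      by_contra hc
      push Not at hc
      exact h0 (Finsupp.ext fun l => (hc l).symm)
    have h1 := coeff_pderiv (i := l) f (m - Finsupp.single l 1)
    have h2 : m - Finsupp.single l 1 + Finsupp.single l 1 = m :=
      tsub_add_cancel_of_le (Finsupp.single_le_iff.mpr (Nat.one_le_iff_ne_zero.mpr hl))
    rw [h l, h2, coeff_zero] at h1
    exact (mul_eq_zero.mp h1.symm).resolve_right (Nat.cast_add_one_ne_zero _)

theorem cub {R : Type} [CommRing R] [Nontrivial R] {k : ℕ} (A B : R) (l : Fin k) :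
    (MvPolynomial.X l ^ 3 + C A * MvPolynomial.X l + C B :
      MvPolynomial (Fin k) R).totalDegree ≤ 3 := by
  refine (totalDegree_add _ _).trans (max_le ((totalDegree_add _ _).trans (max_le ?_ ?_)) ?_)
  · rw [totalDegree_X_pow]
  · refine (totalDegree_mul _ _).trans ?_
    rw [totalDegree_C, totalDegree_X]
    omega
  · rw [totalDegree_C]
    omega

end PDx

theorem p_PD :
    S_PD := by
  intro R _ _ _ k f
  refine ⟨PDx.le f, PDx.lt f, PDx.const f, fun A B l => ?_⟩
  unfold dl
  have h1 := PDx.cub (k := k) A B l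
  have h2 := PDx.le f l
  refine (MvPolynomial.totalDegree_mul _ _).trans ?_
  omega

end Pool.Agent.P.MP_ab3ecb_nt.AM
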