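import Pool.Agent.P.MP_ab3ecb_nt.AM.Iface

/-! Step PROJ. -/

set_option autoImplicit false

namespace Pool.Agent.P.MP_ab3ecb_nt.AM

open Filter Topology NumberField IsDedekindDomain Finset Real Pool.Agent.P.MP_ab3ecb_nt.TK
open scoped Classical NNReal

theorem p_PROJ :
    S_PROJ := by
  intro k a c ha
  obtain ⟨f, hf⟩ : ∃ f : (Fin k → ℤ) →ₗ[ℤ] ℤ, ∀ m, f m = ∑ l, a l * m l :=
    ⟨∑ l, a l • LinearMap.proj l, fun m => by simp⟩
  obtain ⟨g0, hg0⟩ := (IsPrincipalIdealRing.principal (LinearMap.range f)).principal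
  have hd : ∀ m, (g0.natAbs : ℤ) ∣ f m := fun m => Int.natAbs_dvd.2
    (Ideal.mem_span_singleton.1 (hg0.le (LinearMap.mem_range_self f m)))
  obtain ⟨lam, hl⟩ : (g0.natAbs : ℤ) ∈ LinearMap.range f :=
    hg0.ge (Ideal.mem_span_singleton.2 (Int.dvd_natAbs.2 dvd_rfl))
  have g1 : g0 ≠ 0 := by
    rintro rfl
    refine ha (funext fun l => ?_)
    have := hd (Pi.single l 1)
    simpa [hf, Pi.single_apply] using this
  have g2 : (g0.natAbs : ℤ) ≠ 0 := by simpa using g1
  have hk : Module.finrank ℤ (LinearMap.ker f) < k := by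
    have h1 := (LinearMap.ker f).finrank_quotient_add_finrank
    have : Nontrivial (LinearMap.range f) :=
      ⟨⟨lam |> f.rangeRestrict, 0, fun e => g2 (hl ▸ congrArg Subtype.val e)⟩⟩
    have h2 : 0 < Module.finrank ℤ (LinearMap.range f) := Module.finrank_pos
    rw [f.quotKerEquivRange.finrank_eq, Module.finrank_fin_fun] at h1
    omega
  have hm : ∀ m, m - (f m / g0.natAbs) • lam ∈ LinearMap.ker f := fun m => by
    rw [LinearMap.mem_ker, map_sub, map_smul, hl, smul_eq_mul, Int.ediv_mul_cancel (hd m), sub_self]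
  let b := Module.finBasis ℤ (LinearMap.ker f)
  refine ⟨_, hk, fun l j => (b j).1 l, (c / g0.natAbs) • lam, fun m j => b.repr ⟨_, hm m⟩ j,
    g0.natAbs, Int.natAbs_pos.2 g1, fun N m hN l => ?_⟩
  have h1 := congrArg (fun v : LinearMap.ker f => v.1 l) (b.sum_repr ⟨_, hm m⟩)
  simp only [Submodule.coe_sum, Finset.sum_apply, Submodule.coe_smul, Pi.smul_apply, smul_eq_mul,
    Pi.sub_apply] at h1
  rw [← hf] at hN
  obtain ⟨t, ht⟩ := hN
  obtain ⟨u, hu⟩ := hd m
  have hc : c = g0.natAbs * (u - N * t) := by linear_combination hu - ht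
  rw [sum_congr rfl fun j _ => mul_comm _ _, h1, hc, hu, Int.mul_ediv_cancel_left _ g2,
    Int.mul_ediv_cancel_left _ g2, Pi.smul_apply, smul_eq_mul]
  exact ⟨t * lam l, by ring⟩

end Pool.Agent.P.MP_ab3ecb_nt.AM
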