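import Pool.Agent.P.MP_ab3ecb_nt.AM.Iface

/-! Step QUAD. -/

set_option autoImplicit false

namespace Pool.Agent.P.MP_ab3ecb_nt.AM

open Filter Topology NumberField IsDedekindDomain Finset Real Pool.Agent.P.MP_ab3ecb_nt.TK
open scoped Classical NNReal

namespace QUADx

/-- The coefficients of the quadratic forms. -/
def co {S : Type} [CommRing S] (a b c : S) : Fin 3 → Fin 3 → Fin 6 → S :=
  ![![![-8 * a ^ 3 - 27 * b ^ 2, -2 * a ^ 2 * b - 10 * b * c, a * b ^ 2,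
        3 * a ^ 2 * c - 3 * a * b ^ 2, 3 * a * b * c - 3 * b ^ 3, 0],
      ![a ^ 2 * b + 5 * b * c, -2 * a * b ^ 2 - 10 * c ^ 2, a * b * c, 3 * a * b * c - 3 * b ^ 3,
        3 * a * c ^ 2 - 3 * b ^ 2 * c, 0],
      ![-8 * a ^ 2 * c + 7 * a * b ^ 2, -6 * a * b * c + 6 * b ^ 3, -8 * a * c ^ 2 + 8 * b ^ 2 * c,
        0, 0, 0]],
    ![![0, 96 * b, 0, -64 * c, 16 * a * b, 0],
      ![-48 * b, 32 * c, 0, 16 * a * b, 16 * a * c, 0],
      ![0, -32 * a * b, -12 * b ^ 2, -8 * a ^ 3 - 27 * b ^ 2, 0, 0]],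
    ![![0, 0, 0, -12, 0, -32 * a],
      ![0, 6, 0, 0, -5 * a, -27 * b],
      ![0, 0, -8 * a, 0, -12 * b, a ^ 2 - 28 * c]]]

lemma ident {R L : Type} [CommRing R] [Field L] [Algebra R L] (A B : R) (u v w : L) (r : Fin 3) :
    ((-16 * (4 * A ^ 3 + 27 * B ^ 2) : R) : L) * ![u, v, w] r ^ 4 =
      ∑ p : Fin 3 × Fin 6, ((co (2 * A) (4 * B) (-A ^ 2) r p.1 p.2 : R) : L) *
        (![u, v, w] (![0, 0, 0, 1, 1, 2] p.2) * ![u, v, w] (![0, 1, 2, 1, 2, 2] p.2) *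
          ![g0 (A : L) B u v w, g1 (A : L) B u v w, g2 u v w] p.1) := by
  fin_cases r <;> simp [Fintype.sum_prod_type, Fin.sum_univ_succ, co, g0, g1, g2, map_ofNat] <;> ring

lemma le_n3 {L : Type} (ab : L → ℝ) (u v w : L) (r : Fin 3) : ab (![u, v, w] r) ≤ n3 ab u v w := by
  fin_cases r <;> simp [n3]

lemma n3_eq {L : Type} (ab : L → ℝ) (u v w : L) : ∃ r : Fin 3, n3 ab u v w = ab (![u, v, w] r) := by
  rcases max_choice (ab u) (max (ab v) (ab w)) with h | h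
  · exact ⟨0, h⟩
  rcases max_choice (ab v) (ab w) with h1 | h1
  exacts [⟨1, h.trans h1⟩, ⟨2, h.trans h1⟩]

end QUADx

theorem p_QUAD (hEVB : S_EVB) :
    S_QUAD := by
  intro K _ _ W A B hD
  choose ci c1 hc using W.int
  have hΔ : (-16 * (4 * A ^ 3 + 27 * B ^ 2) : 𝓞 K) ≠ 0 := mul_ne_zero (by norm_num) hD
  have hi := fun (u v w : Om K) r => QUADx.ident A B u v w r
  generalize (-16 * (4 * A ^ 3 + 27 * B ^ 2) : 𝓞 K) = Δ at hΔ hi
  generalize QUADx.co (2 * A) (4 * B) (-A ^ 2) = a at hi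
  obtain ⟨c, e1, e2, e3⟩ : ∃ c : ℝ, 1 ≤ c ∧ ci Δ ≤ c ∧ ∀ r j l, ci (a r j l) ≤ c := by
    obtain ⟨c, h⟩ := (Set.finite_range fun p : Fin 3 × Fin 3 × Fin 6 => ci (a p.1 p.2.1 p.2.2)).bddAbove
    exact ⟨max (ci Δ) c, le_max_of_le_left (c1 Δ), le_max_left _ _,
      fun r j l => le_max_of_le_right (h ⟨(r, j, l), rfl⟩)⟩
  have d0 : ∀ i, 0 < W.ab i (Δ : Om K) := fun i => (W.ab i).pos (by exact_mod_cast hΔ)
  have k1 : ∀ i, 1 ≤ (18 * c) ^ W.th i / W.ab i (Δ : Om K) := fun i => (one_le_div (d0 i)).2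
    ((hc Δ i).trans (pow_le_pow_left₀ (zero_le_one.trans (c1 Δ)) (by linarith) _))
  refine ⟨fun i => (18 * c) ^ W.th i / W.ab i (Δ : Om K), log (18 * c) * W.d, k1, ?_,
    fun i u v w => ?_⟩
  · refine W.pf_bd (x := (Δ : K)⁻¹) (inv_ne_zero (by exact_mod_cast hΔ))
      (fun i => log_nonneg (k1 i)) (fun i => le_of_eq ?_) (W.thd.mul (log_nonneg (by linarith)))
    rw [log_div (by positivity) (d0 i).ne', log_pow, map_inv₀, map_inv₀, log_inv, mul_comm]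
    rfl
  obtain ⟨N, hN⟩ : ∃ N, N = n3 (W.ab i) u v w := ⟨_, rfl⟩
  obtain ⟨G, hG⟩ : ∃ G, G = n3 (W.ab i) (g0 (A : Om K) B u v w) (g1 (A : Om K) B u v w)
    (g2 u v w) := ⟨_, rfl⟩
  have n1 := fun r => QUADx.le_n3 (W.ab i) u v w r
  have n2 := fun r => QUADx.le_n3 (W.ab i) (g0 (A : Om K) B u v w) (g1 (A : Om K) B u v w)
    (g2 u v w) r
  rw [← hN] at n1
  rw [← hG] at n2
  have N0 : 0 ≤ N := ((W.ab i).nonneg _).trans (n1 0)
  have G0 : 0 ≤ G := ((W.ab i).nonneg _).trans (n2 0)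
  have h1 : ∀ r, W.ab i (Δ : Om K) * W.ab i (![u, v, w] r) ^ 4 ≤
      (18 * c) ^ W.th i * (N * N * G) := fun r => by
    rw [← map_pow, ← map_mul, hi u v w r]
    refine (W.sum_le i univ _ (b := c ^ W.th i * (N * N * G)) (by positivity)
      fun p _ => ?_).trans_eq (by simp [mul_pow, mul_assoc])
    rw [map_mul, map_mul, map_mul]
    refine mul_le_mul ((hc _ i).trans (pow_le_pow_left₀ (zero_le_one.trans (c1 _)) (e3 _ _ _) _))
      (mul_le_mul (mul_le_mul (n1 _) (n1 _) ((W.ab i).nonneg _) N0) (n2 _) ((W.ab i).nonneg _)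
        (by positivity)) (by positivity) (by positivity)
  have h2 : W.ab i (Δ : Om K) * N ^ 4 ≤ (18 * c) ^ W.th i * (N * N * G) := by
    rcases QUADx.n3_eq (W.ab i) u v w with ⟨r, h⟩
    have := h1 r
    rwa [← h, ← hN] at this
  rw [← hN, ← hG, div_mul_eq_mul_div, le_div_iff₀ (d0 i)]
  rcases N0.eq_or_lt with h | h
  · rw [← h]; simp only [zero_pow two_ne_zero, zero_mul]; positivity
  · exact le_of_mul_le_mul_left (a := N * N) (by linarith) (mul_pos h h)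

end Pool.Agent.P.MP_ab3ecb_nt.AM
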