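import Pool.Agent.P.MP_ab3ecb_nt.AM.Iface

/-! Step RAT. -/

set_option autoImplicit false

namespace Pool.Agent.P.MP_ab3ecb_nt.AM

open Filter Topology NumberField IsDedekindDomain Finset Real Pool.Agent.P.MP_ab3ecb_nt.TK
open scoped Classical NNReal

namespace RATx

variable {K : Type} [Field K] [NumberField K] {A B : 𝓞 K} {k : ℕ}

/-- The statement for one pair. -/
def Good (P Q : Pt A B K) (b : Fin k → ℤ) : Prop :=
  ∃ G : Fin 3 → MvPolynomial (Fin k × Fin 2) K,
    (∀ (L : Type) [Field L] [Algebra K L] (z : Fin k → Pt A B L), (∀ l, z l ≠ 0) →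
      ∃ c : L, ∀ j, MvPolynomial.aeval (xy z) (G j) = c * rep (cmb Q b z) j) ∧
    ∃ c : K, c ≠ 0 ∧ ∀ j, MvPolynomial.aeval (xy fun _ => P) (G j) =
      c * rep (Q + (∑ l, b l) • P) j

lemma const (P Q : Pt A B K) : Good P Q (0 : Fin k → ℤ) := by
  refine ⟨fun j => MvPolynomial.C (rep Q j), fun L _ _ z _ => ⟨1, fun j => ?_⟩, 1, one_ne_zero,
    fun j => ?_⟩
  · simp [cmb, rep_bc]
  · simp

omit [NumberField K] in
lemma cmb_single {L : Type} [Field L] [Algebra K L] (z : Fin k → Pt A B L) (l : Fin k) (e : ℤ) :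
    cmb (0 : Pt A B K) (Pi.single l e) z = e • z l := by
  rw [cmb, map_zero, zero_add, sum_eq_single l (fun i _ hi => by simp [hi]) (by simp)]
  simp

lemma single {P : Pt A B K} (hP : P ≠ 0) (l : Fin k) {e : ℤ} (he : e = 1 ∨ e = -1) :
    Good P 0 (Pi.single l e) := by
  have key : ∀ (L : Type) [Field L] [Algebra K L] (z : Fin k → Pt A B L), z l ≠ 0 → ∀ j,
      MvPolynomial.aeval (xy z) ((![MvPolynomial.X (l, 0), e • MvPolynomial.X (l, 1), 1] :
        Fin 3 → MvPolynomial (Fin k × Fin 2) K) j) = 1 * rep (e • z l) j := by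
    intro L _ _ z hz j
    rcases he with rfl | rfl
    · rw [one_smul (M := ℤ) (z l), rep_ne hz]
      fin_cases j <;> simp [xy]
    · rw [neg_one_smul ℤ (z l), rep_ne (neg_ne_zero.2 hz)]
      fin_cases j <;> simp [xy]
  refine ⟨![MvPolynomial.X (l, 0), e • MvPolynomial.X (l, 1), 1], fun L _ _ z hz =>
    ⟨1, fun j => ?_⟩, 1, one_ne_zero, fun j => ?_⟩
  · rw [cmb_single]; exact key L z (hz l) j
  · have := key K (fun _ => P) hP j
    simpa using this

omit [NumberField K] in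
lemma add (hADD : S_ADD) {P Q Q' : Pt A B K} {b b' : Fin k → ℤ} (h : Good P Q b)
    (h' : Good P Q' b') (h1 : Q + (∑ l, b l) • P ≠ 0) (h2 : Q' + (∑ l, b' l) • P ≠ 0)
    (h3 : Q + (∑ l, b l) • P ≠ Q' + (∑ l, b' l) • P) : Good P (Q + Q') (b + b') := by
  obtain ⟨T, hT⟩ := hADD
  obtain ⟨G, hG, c, hc, hGc⟩ := h
  obtain ⟨G', hG', c', hc', hGc'⟩ := h'
  have sub : ∀ (L : Type) [Field L] [Algebra K L] (z : Fin k → Pt A B L) (U U' : Pt A B L)
      (a a' : L), (∀ j, MvPolynomial.aeval (xy z) (G j) = a * rep U j) →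
      (∀ j, MvPolynomial.aeval (xy z) (G' j) = a' * rep U' j) → ∀ j,
      MvPolynomial.aeval (xy z) (MvPolynomial.aeval
        (fun s : Fin 2 × Fin 3 => ![G s.2, G' s.2] s.1) (T j) : MvPolynomial (Fin k × Fin 2) K) =
      MvPolynomial.aeval (fun s : Fin 2 × Fin 3 => ![a * rep U s.2, a' * rep U' s.2] s.1) (T j) := by
    intro L _ _ z U U' a a' e e' j
    have := MvPolynomial.comp_aeval_apply (fun s : Fin 2 × Fin 3 => ![G s.2, G' s.2] s.1)
      (MvPolynomial.aeval (xy z) : MvPolynomial (Fin k × Fin 2) K →ₐ[K] L).toRingHom.toIntAlgHom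
      (T j)
    refine this.trans ?_
    congr 2
    funext s
    obtain ⟨i, s⟩ := s
    fin_cases i
    · exact e s
    · exact e' s
  refine ⟨fun j => MvPolynomial.aeval (fun s : Fin 2 × Fin 3 => ![G s.2, G' s.2] s.1) (T j),
    fun L _ _ z hz => ?_, ?_⟩
  · obtain ⟨a, ha⟩ := hG L z hz
    obtain ⟨a', ha'⟩ := hG' L z hz
    obtain ⟨e, he, -⟩ := hT A B L (cmb Q b z) (cmb Q' b' z) a a'
    refine ⟨e, fun j => ?_⟩
    rw [sub L z _ _ a a' ha ha', he]
    congr 2
    simp only [cmb, map_add, Pi.add_apply, add_smul, sum_add_distrib]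
    abel
  · obtain ⟨e, he, he0⟩ := hT A B K (Q + (∑ l, b l) • P) (Q' + (∑ l, b' l) • P) c c'
    refine ⟨e, he0 hc hc' h1 h2 h3, fun j => ?_⟩
    rw [sub K _ _ _ c c' hGc hGc', he]
    congr 2
    simp only [Pi.add_apply, add_smul, sum_add_distrib]
    abel

lemma step (hADD : S_ADD) {P : Pt A B K} (hP : NT P) {b : Fin k → ℤ} (h : ∀ Q, Good P Q b)
    (l : Fin k) {e : ℤ} (he : e = 1 ∨ e = -1) (Q : Pt A B K) : Good P Q (b + Pi.single l e) := by
  have hP0 : P ≠ 0 := by simpa using nt_ne hP one_ne_zero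
  obtain ⟨n, hn⟩ : ∃ n : ℤ, ∀ m : ℤ, n < m → Q + m • P ≠ 0 := by
    by_cases h0 : ∃ n : ℤ, Q + n • P = 0
    · obtain ⟨n, h0⟩ := h0
      refine ⟨n, fun m hm h1 => ?_⟩
      have := hP (m - n) (by rw [sub_smul, sub_eq_zero]; exact add_left_cancel (h1.trans h0.symm))
      omega
    · exact ⟨0, fun m _ h1 => h0 ⟨m, h1⟩⟩
  set s := ∑ l, b l with hs
  obtain ⟨a, ha⟩ : ∃ a : ℤ, 0 < a ∧ n + 1 < a + s := ⟨|n| + |s| + 2, by positivity, by
    have := le_abs_self n
    have := neg_abs_le s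
    omega⟩
  have e1 : ∑ i, (Pi.single l e : Fin k → ℤ) i = e := by simp
  have e2 : ∑ i, (b + Pi.single l e : Fin k → ℤ) i = s + e := by
    simp only [Pi.add_apply, sum_add_distrib, e1, hs]
  have g1 := add hADD (h (Q + a • P)) (single hP0 l he)
    (by rw [← hs, add_assoc, ← add_smul]; exact hn _ (by omega))
    (by rw [e1, zero_add]; exact nt_ne hP (by omega))
    (by
      rw [e1, zero_add, ← hs, Ne, ← sub_eq_zero, add_assoc, ← add_smul, add_sub_assoc, ← sub_smul]
      exact hn _ (by omega))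
  have g2 := add hADD g1 (const P (-(a • P)))
    (by rw [e2, add_zero, add_assoc, ← add_smul]; exact hn _ (by omega))
    (by simpa using nt_ne hP ha.1.ne')
    (by
      have : ∑ i, (0 : Fin k → ℤ) i = 0 := by simp
      rw [e2, this, zero_smul, add_zero, add_zero, Ne, ← sub_eq_zero, sub_neg_eq_add, add_assoc,
        add_assoc, ← add_smul, ← add_smul]
      exact hn _ (by omega))
  simpa using g2

lemma stepn (hADD : S_ADD) {P : Pt A B K} (hP : NT P) {b : Fin k → ℤ} (h : ∀ Q, Good P Q b)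
    (l : Fin k) (n : ℤ) : ∀ Q, Good P Q (b + Pi.single l n) := by
  induction n using Int.induction_on with
  | zero => simpa using h
  | succ n ih =>
    intro Q
    rw [Pi.single_add, ← add_assoc]
    exact step hADD hP ih l (.inl rfl) Q
  | pred n ih =>
    intro Q
    rw [sub_eq_add_neg, Pi.single_add, ← add_assoc]
    exact step hADD hP ih l (.inr rfl) Q

end RATx

theorem p_RAT (hADD : S_ADD) :
    S_RAT := by
  intro K _ _ A B P hP k b Q
  have h : ∀ t : Finset (Fin k), ∀ Q, RATx.Good P Q (∑ l ∈ t, Pi.single l (b l)) := by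
    intro t
    induction t using Finset.induction_on with
    | empty => simpa using RATx.const P
    | insert l t hl ih =>
      rw [sum_insert hl, add_comm]
      exact RATx.stepn hADD hP ih l (b l)
  have := h univ Q
  rwa [univ_sum_single] at this

end Pool.Agent.P.MP_ab3ecb_nt.AM
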