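import Pool.Agent.P.MP_ab3ecb_nt.AM.Iface

/-! Step REL. -/

set_option autoImplicit false

namespace Pool.Agent.P.MP_ab3ecb_nt.AM

open Filter Topology NumberField IsDedekindDomain Finset Real Pool.Agent.P.MP_ab3ecb_nt.TK
open scoped Classical NNReal

namespace RELx

lemma res {k : ℕ} (U : Ultrafilter (Fin k → ℤ)) {n : ℕ} (hn : 0 < n) :
    ∃ r : Fin k → ℤ, ∀ᶠ m in (U : Filter (Fin k → ℤ)), ∀ l, (n : ℤ) ∣ m l - r l := by
  have h : ∀ᶠ m in (U : Filter (Fin k → ℤ)), ∃ r ∈ Set.pi Set.univ fun _ : Fin k => Set.Ico (0 : ℤ) n,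
      ∀ l, (n : ℤ) ∣ m l - r l :=
    Eventually.of_forall fun m => ⟨fun l => m l % n, fun l _ => ⟨Int.emod_nonneg _ (by omega),
      Int.emod_lt_of_pos _ (by omega)⟩, fun l => Int.dvd_self_sub_emod⟩
  obtain ⟨r, -, hr⟩ := (Ultrafilter.eventually_exists_mem_iff
    (Set.Finite.pi fun _ => Set.finite_Ico _ _)).1 h
  exact ⟨r, hr⟩

lemma one {α : Type} {S : Set α} (hS : S.Finite) (Q : α → ℕ → Prop)
    (hm : ∀ t N N', N ∣ N' → Q t N' → Q t N) (h : ∀ N, 0 < N → ∃ t ∈ S, Q t N) :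
    ∃ t ∈ S, ∀ N, 0 < N → Q t N := by
  by_contra h1
  push Not at h1
  choose! f hf1 hf2 using h1
  obtain ⟨t, ht, h2⟩ := h (∏ t ∈ hS.toFinset, f t)
    (prod_pos fun t ht => hf1 t (hS.mem_toFinset.1 ht))
  exact hf2 t ht (hm t _ _ (dvd_prod_of_mem f (hS.mem_toFinset.2 ht)) h2)

lemma box (k C : ℕ) :
    {e : (Fin k → ℤ) × ℤ | (e.1 ≠ 0 ∨ e.2 ≠ 0) ∧ (∀ l, |e.1 l| ≤ C) ∧ |e.2| ≤ C}.Finite := by
  refine (((Set.Finite.pi fun _ : Fin k => Set.finite_Icc (-(C : ℤ)) C)).prod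
    (Set.finite_Icc (-(C : ℤ)) C)).subset ?_
  rintro e ⟨-, h1, h2⟩
  exact ⟨fun l _ => abs_le.1 (h1 l), abs_le.1 h2⟩

end RELx

theorem p_REL (hKEY : S_KEY) (hGEN : S_GEN) (hHYP : S_HYP) :
    S_REL := by
  intro K _ _ A B hD P hP S hS n k F Q G hF h1
  obtain ⟨g, hg, hG⟩ := hGEN K A B hD P hP n k F Q G hF h1
  obtain ⟨C, hC⟩ := hKEY K A B hD P hP S hS k g hg
  refine ⟨{e | e.1 ≠ 0 ∧ (e.1 ≠ 0 ∨ e.2 ≠ 0) ∧ (∀ l, |e.1 l| ≤ C) ∧ |e.2| ≤ C},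
    (RELx.box k C).subset fun e he => he.2, fun e he => he.1, fun a U ha hU => ?_⟩
  obtain ⟨e, he, h2⟩ := RELx.one (RELx.box k C)
    (fun e N => ∀ᶠ m : Fin k → ℤ in U, (N : ℤ) ∣ ∑ l, e.1 l * m l - e.2)
    (fun t N N' h2 h3 => h3.mono fun m hm => (Int.natCast_dvd_natCast.2 h2).trans hm)
    fun N hN => by
      obtain ⟨M, hM, h2, h3⟩ := hC N hN
      obtain ⟨r, hr⟩ := RELx.res U hM
      obtain ⟨b, c, h4, h5, h6, h7⟩ := h3 r fun v hv ρ =>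
        (hr.and (hHYP K A B hD P n k F Q G g v (a ⟨v, hv⟩) U (hG _) (ha ⟨v, hv⟩)
          (hU ⟨v, hv⟩) ρ)).exists
      refine ⟨(b, c), ⟨h4, h5, h6⟩, hr.mono fun m hm => (Int.natCast_dvd_natCast.2 h2).trans ?_⟩
      have h8 : (M : ℤ) ∣ ∑ l, b l * (m l - r l) := dvd_sum fun l _ => (hm l).mul_left _
      have h9 := h7.add h8
      simp only [mul_sub, sum_sub_distrib] at h9
      convert h9 using 1
      ring
  refine ⟨e, ⟨fun h0 => ?_, he⟩, h2⟩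
  have hc : e.2 ≠ 0 := he.1.resolve_left (not_not.2 h0)
  obtain ⟨m, hm⟩ := (h2 (e.2.natAbs + 1) (Nat.succ_pos _)).exists
  simp only [h0, Pi.zero_apply, zero_mul, sum_const_zero, zero_sub, dvd_neg] at hm
  have h3 := Nat.le_of_dvd (Int.natAbs_pos.2 hc) (Int.natCast_dvd.1 hm)
  omega

end Pool.Agent.P.MP_ab3ecb_nt.AM
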