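import Pool.Agent.P.MP_ab3ecb_nt.AM.Iface

/-! Step SIZE. -/

set_option autoImplicit false

namespace Pool.Agent.P.MP_ab3ecb_nt.AM

open Filter Topology NumberField IsDedekindDomain Finset Real Pool.Agent.P.MP_ab3ecb_nt.TK
open scoped Classical NNReal

theorem p_SIZE :
    S_SIZE := by
  intro k
  have hk : (1 : ℝ) ≤ 2 * (k.factorial : ℝ) := by
    have : (1 : ℝ) ≤ k.factorial := by exact_mod_cast k.factorial_pos
    linarith
  have hl := log_nonneg hk
  refine ⟨log (2 * (k.factorial : ℝ)) + 3 * k + 1, by positivity, fun c h => ?_⟩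
  have hM : (1 : ℝ) ≤ c.M := by exact_mod_cast c.hM
  have hM' : (0 : ℤ) < c.M := by exact_mod_cast c.hM
  have hb : ∀ j l, |c.b j l| ≤ (c.M : ℤ) := fun j l => by exact_mod_cast h.1 j l
  have ht : ∀ j, (c.t j : ℤ) ≤ c.M := fun j => by exact_mod_cast h.2 j
  have hβ : ∀ j l, AbsoluteValue.abs (c.β j l) ≤ 2 * (c.M : ℤ) := fun j l => by
    have e : (c.M : ℤ) * c.β j l = c.t 0 * c.b j.succ l - c.t j.succ * c.b 0 l := by
      simp only [Cfg.β, Matrix.of_apply]
      linear_combination (c.t 0 : ℤ) * c.hu j.succ l - (c.t j.succ : ℤ) * c.hu 0 l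
    have p : ∀ i i', |(c.t i : ℤ) * c.b i' l| ≤ (c.M : ℤ) * c.M := fun i i' => by
      rw [abs_mul, Nat.abs_cast]
      exact mul_le_mul (ht i) (hb i' l) (abs_nonneg _) hM'.le
    have q : (c.M : ℤ) * |c.β j l| ≤ c.M * (2 * c.M) := by
      rw [← abs_of_pos hM', ← abs_mul, e, abs_of_pos hM']
      linarith [abs_sub ((c.t 0 : ℤ) * c.b j.succ l) (c.t j.succ * c.b 0 l), p 0 j.succ, p j.succ 0]
    exact le_of_mul_le_mul_left q hM'
  have hd : |c.β.det| ≤ (k.factorial : ℤ) * (2 * c.M) ^ k := by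
    simpa using Matrix.det_le hβ
  have hp : ∏ j, (c.t j : ℤ) ≤ (c.M : ℤ) ^ (k + 1) := by
    simpa using prod_le_prod (s := univ) (fun j _ => Int.natCast_nonneg (c.t j)) fun j _ => ht j
  have hp0 : 0 ≤ ∏ j, (c.t j : ℤ) := prod_nonneg fun j _ => Int.natCast_nonneg _
  have hτ : |c.τ| ≤ 2 * (k.factorial : ℤ) * (2 * c.M) ^ k * (c.M : ℤ) ^ (k + 1) := by
    rw [Cfg.τ, abs_mul, abs_mul, abs_two, abs_of_nonneg hp0, mul_assoc 2 (k.factorial : ℤ)]
    exact mul_le_mul (by linarith) hp hp0 (by positivity)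
  have hτ' : |(c.τ : ℝ)| ≤ 2 * (k.factorial : ℝ) * (2 * c.M) ^ k * (c.M : ℝ) ^ (k + 1) := by
    exact_mod_cast hτ
  have h0 : 0 < |(c.τ : ℝ)| := abs_pos.2 (by exact_mod_cast c.τ_ne)
  refine (log_le_log h0 hτ').trans ?_
  rw [log_mul (by positivity) (by positivity), log_mul (by positivity) (by positivity), log_pow,
    log_pow]
  have a1 := log_le_self (show (0 : ℝ) ≤ 2 * c.M by positivity)
  have a2 := log_le_self (show (0 : ℝ) ≤ c.M by positivity)
  have a3 := mul_le_mul_of_nonneg_left a1 (Nat.cast_nonneg (α := ℝ) k)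
  have a4 := mul_le_mul_of_nonneg_left a2 (Nat.cast_nonneg (α := ℝ) (k + 1))
  have a5 := mul_le_mul_of_nonneg_left hM hl
  push_cast at a4 ⊢
  linarith

end Pool.Agent.P.MP_ab3ecb_nt.AM
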