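import Pool.Agent.P.MP_ab3ecb_nt.AM.Iface

/-! Step TAU. -/

set_option autoImplicit false

namespace Pool.Agent.P.MP_ab3ecb_nt.AM

open Filter Topology NumberField IsDedekindDomain Finset Real Pool.Agent.P.MP_ab3ecb_nt.TK
open scoped Classical NNReal

theorem p_TAU :
    S_TAU := by
  intro K _ _ W n hn
  have h1 : (1 : ℝ) ≤ |(n : ℝ)| := by exact_mod_cast Int.one_le_abs hn
  have h0 : ∀ i, 0 < W.ab i (n : Om K) := fun i => (W.ab i).pos (by exact_mod_cast hn)
  have h2 : ∀ i, log (W.ab i (n : Om K)) ≤ log |(n : ℝ)| * W.th i := fun i => by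
    have h3 := W.sum_le i (range n.natAbs) (fun _ => 1) zero_le_one fun _ _ => (map_one _).le
    rw [sum_const, card_range, nsmul_one, mul_one, Nat.cast_natAbs, Nat.cast_natAbs,
      Int.cast_abs (R := ℝ)] at h3
    have h4 : W.ab i ((|n| : ℤ) : Om K) = W.ab i (n : Om K) := by
      rcases abs_choice n with h | h <;> rw [h]
      rw [Int.cast_neg, AbsoluteValue.map_neg]
    rw [mul_comm, ← log_pow]
    exact log_le_log (h0 i) (h4 ▸ h3)
  rw [mul_comm]
  refine W.pf_bd (x := (n : K)⁻¹) (inv_ne_zero (by exact_mod_cast hn)) (fun _ => posLog_nonneg)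
    (fun i => ?_) (W.thd.mul (log_nonneg h1))
  rw [map_inv₀ (algebraMap K (Om K)), map_intCast, map_inv₀, posLog_apply, log_inv]
  refine max_le (by linarith [h2 i]) (le_add_of_nonneg_left ?_)
  exact mul_nonneg (log_nonneg h1) (Nat.cast_nonneg _)

end Pool.Agent.P.MP_ab3ecb_nt.AM
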