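import Pool.Agent.P.MP_ab3ecb_nt.AM.Iface

/-! Step TAY. -/

set_option autoImplicit false

namespace Pool.Agent.P.MP_ab3ecb_nt.AM

open Filter Topology NumberField IsDedekindDomain Finset Real Pool.Agent.P.MP_ab3ecb_nt.TK
open scoped Classical NNReal

namespace TAYx

theorem est {L : Type} [Field L] (w : Valuation L ℝ≥0) (d Λ : ℝ≥0) (x y a b z u : L)
    (h1 : 1 ≤ Λ) (hd : d ≤ 1) (hdΛ : d * Λ ≤ 1) (hx : w x ≤ Λ) (hy : w y ^ 2 ≤ Λ ^ 3)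
    (ha : w a ≤ 1) (hb : w b ≤ 1) (hz : w z ≤ d) (hu : w u ≤ d ^ 2) (s : L) (hs : w s ≤ 1) :
    w ((3 * x ^ 2 + a) * u * s - 2 * y * (z * u * (a * u + b * u ^ 2 + 2 * x - x ^ 2 * u)) +
      2 * y ^ 2 * u ^ 2) ≤ d ^ 2 * Λ ^ 2 := by
  have h2 : w 2 ≤ 1 := by simpa using v_z w 2
  have h3 : w 3 ≤ 1 := by simpa using v_z w 3
  have hΛ2 : 1 ≤ Λ ^ 2 := one_le_pow₀ h1
  have hu1 : w u ≤ 1 := hu.trans (pow_le_one₀ (zero_le) hd)
  have hy2 : w y ≤ Λ ^ 2 := by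
    refine le_of_pow_le_pow_left₀ two_ne_zero zero_le ?_
    refine hy.trans ?_
    rw [← pow_mul]
    exact pow_le_pow_right₀ h1 (by norm_num)
  have e1 : w (3 * x ^ 2 + a) ≤ Λ ^ 2 := by
    refine w.map_add_le ?_ (ha.trans hΛ2)
    rw [map_mul, map_pow]
    exact (mul_le_of_le_one_left' h3).trans (pow_le_pow_left' hx 2)
  have e2 : w (a * u + b * u ^ 2 + 2 * x - x ^ 2 * u) ≤ Λ := by
    refine w.map_sub_le (w.map_add_le (w.map_add_le ?_ ?_) ?_) ?_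
    · rw [map_mul]
      exact (mul_le_one' ha hu1).trans h1
    · rw [map_mul, map_pow]
      exact (mul_le_one' hb (pow_le_one' hu1 2)).trans h1
    · rw [map_mul]
      exact (mul_le_of_le_one_left' h2).trans hx
    · rw [map_mul, map_pow]
      calc w x ^ 2 * w u ≤ Λ ^ 2 * d ^ 2 := mul_le_mul' (pow_le_pow_left' hx 2) hu
        _ = (d * Λ) ^ 2 := by ring
        _ ≤ 1 := pow_le_one' hdΛ 2
        _ ≤ Λ := h1
  refine w.map_add_le (w.map_sub_le ?_ ?_) ?_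
  · rw [map_mul, map_mul]
    calc w (3 * x ^ 2 + a) * w u * w s ≤ Λ ^ 2 * d ^ 2 * 1 := mul_le_mul' (mul_le_mul' e1 hu) hs
      _ = d ^ 2 * Λ ^ 2 := by ring
  · rw [map_mul, map_mul, map_mul, map_mul]
    calc w 2 * w y * (w z * w u * w (a * u + b * u ^ 2 + 2 * x - x ^ 2 * u))
        ≤ 1 * Λ ^ 2 * (d * d ^ 2 * Λ) :=
          mul_le_mul' (mul_le_mul' h2 hy2) (mul_le_mul' (mul_le_mul' hz hu) e2)
      _ = d ^ 2 * Λ ^ 2 * (d * Λ) := by ring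
      _ ≤ d ^ 2 * Λ ^ 2 := mul_le_of_le_one_right' hdΛ
  · rw [map_mul, map_mul, map_pow, map_pow]
    calc w 2 * w y ^ 2 * w u ^ 2 ≤ 1 * Λ ^ 3 * (d ^ 2) ^ 2 :=
          mul_le_mul' (mul_le_mul' h2 hy) (pow_le_pow_left' hu 2)
      _ = d ^ 2 * Λ ^ 2 * (d * Λ * d) := by ring
      _ ≤ d ^ 2 * Λ ^ 2 := mul_le_of_le_one_right' (mul_le_one' hdΛ hd)

end TAYx

theorem p_TAY :
    S_TAY := by
  intro R _ _ A B L _ _ _ w c Λ P U hP h1 hx hU hc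
  rcases hU.1 with rfl | hX
  · simp
  have hU0 : U ≠ 0 := fun h => by simp [h] at hX
  have hX0 : X U ≠ 0 := fun h => by simp [h] at hX
  have hY0 : Y U ≠ 0 := Y_ne hX
  have hd : w (Z U) < 1 := hU.1.Z_lt
  have hdΛ : w (Z U) * Λ ≤ 1 := (mul_le_mul_left hU.2 Λ).trans hc
  have hu : w (X U)⁻¹ = w (Z U) ^ 2 := by
    rw [map_inv₀]
    exact (eq_inv_of_mul_eq_one_left (v_Z hX)).symm
  have hs : w (1 - X P * (X U)⁻¹) = 1 := by
    refine w.map_one_sub_of_lt ?_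
    rw [map_mul, hu]
    calc w (X P) * w (Z U) ^ 2 ≤ Λ * w (Z U) ^ 2 := mul_le_mul_left hx _
      _ = w (Z U) * Λ * w (Z U) := by ring
      _ ≤ w (Z U) := mul_le_of_le_one_left' hdΛ
      _ < 1 := hd
  have hs0 : 1 - X P * (X U)⁻¹ ≠ 0 := fun h => by simp [h] at hs
  have hf := (Lb.LBx.form hP (Or.inr hX0) rfl rfl rfl hs0).2.1
  have hk : Y U * (X U)⁻¹ ^ 2 = Z U * (1 + A * (X U)⁻¹ ^ 2 + B * (X U)⁻¹ ^ 3) := by
    have e := eqn hU0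
    rw [Z]
    field_simp
    linear_combination e
  have key := TAYx.est w (w (Z U)) Λ (X P) (Y P) A B (Z U) (X U)⁻¹ h1 hd.le hdΛ hx (v_Y_le h1 hx)
    (v_int w A) (v_int w B) le_rfl hu.le _ hs.le
  rw [hk] at hf
  rw [hf]
  generalize (X U)⁻¹ = u at *
  have e : X P + ((3 * X P ^ 2 + A) * u * (1 - X P * u) -
      2 * Y P * (Z U * (1 + A * u ^ 2 + B * u ^ 3) - Y P * u ^ 2)) / (1 - X P * u) ^ 2 - X P +
      2 * Y P * Z U = ((3 * X P ^ 2 + A) * u * (1 - X P * u) -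
        2 * Y P * (Z U * u * (A * u + B * u ^ 2 + 2 * X P - X P ^ 2 * u)) +
        2 * Y P ^ 2 * u ^ 2) / (1 - X P * u) ^ 2 := by
    field_simp
    ring
  rw [e, map_div₀, map_pow, hs, one_pow, div_one]
  exact key.trans (mul_le_mul_left (pow_le_pow_left' hU.2 2) _)

end Pool.Agent.P.MP_ab3ecb_nt.AM
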