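import Pool.Agent.P.MP_ab3ecb_nt.AM.Iface

/-! Step TOP. -/

set_option autoImplicit false

namespace Pool.Agent.P.MP_ab3ecb_nt.AM

open Filter Topology NumberField IsDedekindDomain Finset Real Pool.Agent.P.MP_ab3ecb_nt.TK
open scoped Classical NNReal

namespace TOPx

variable {K : Type} [Field K] [NumberField K] {A B : 𝓞 K} {n : ℕ}
  {I : Set (MvPolynomial (Fin n × Fin 3) K)} {S : Set (Pl K)}

lemma con_union {κ : Type} [Finite κ] {C : κ → Set (Fin n → Pt A B K)}
    (h : ∀ j, Con I S (C j)) : Con I S (⋃ j, C j) := by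
  choose T h1 h2 h3 using h
  refine ⟨⋃ j, T j, Set.finite_iUnion h1, fun t ht x hx => ?_, fun a ha hU => ?_⟩
  · obtain ⟨j, hj⟩ := Set.mem_iUnion.1 ht
    exact ⟨Set.mem_iUnion.2 ⟨j, (h2 j t hj x hx).1⟩, (h2 j t hj x hx).2⟩
  · obtain ⟨U, hU, hL⟩ := hU
    have h4 : ∀ᶠ x in (U : Filter (Fin n → Pt A B K)), ∃ j, x ∈ C j :=
      Filter.mem_of_superset hU fun x hx => Set.mem_iUnion.1 hx
    obtain ⟨j, hj⟩ := Ultrafilter.eventually_exists_iff.1 h4
    obtain ⟨t, ht, h5⟩ := h3 j a ha ⟨U, hj, hL⟩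
    exact ⟨t, Set.mem_iUnion.2 ⟨j, ht⟩, h5⟩

lemma con_single (hS : S.Nonempty) (Q : Fin n → Pt A B K) : Con I S {Q} := by
  refine ⟨{t | t = (Q, ⊥) ∧ On I Q}, (Set.finite_singleton (Q, ⊥)).subset fun t ht => ht.1,
    ?_, fun a ha hU => ?_⟩
  · rintro t ⟨rfl, ht⟩ x hx
    rw [AddSubgroup.mem_bot.1 hx, add_zero]
    exact ⟨rfl, ht⟩
  · obtain ⟨U, hU, hL⟩ := hU
    obtain ⟨v, hv⟩ := hS
    have e : a ⟨v, hv⟩ = fun i => bc (Kv v) (Q i) := funext fun i => by
      have h0 : ToO (U : Filter (Fin n → Pt A B K)) fun _ => loc v (Q i) - a ⟨v, hv⟩ i :=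
        fun r => by
          filter_upwards [hU, hL ⟨v, hv⟩ i r] with x hx h
          rwa [Set.mem_singleton_iff.1 hx] at h
      have h1 : ToO (U : Filter (Fin n → Pt A B K)) fun _ => loc v (Q i) - loc v (Q i) :=
        fun r => .of_forall fun _ => .inl (sub_self _)
      let _ : NontriviallyNormedField (Kv v) :=
        Valued.toNontriviallyNormedField (Kv v) (WithZero (Multiplicative ℤ))
      exact lim_unique (L := Kv v) (P := fun _ => loc v (Q i)) h0 h1
    refine ⟨(Q, ⊥), ⟨rfl, on_iff.2 fun F hF => ?_⟩, U, Filter.mem_of_superset hU fun x hx => ?_, hL⟩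
    · have h1 := on_iff.1 (ha ⟨v, hv⟩) F hF
      rw [e, evr_bc] at h1
      exact (map_eq_zero _).1 h1
    · rw [Set.mem_singleton_iff.1 hx]
      exact AddSubgroup.mem_bot.2 (sub_self _)

end TOPx

theorem p_TOP (hINF : S_INF) (hCOS : S_COS) :
    S_TOP := by
  rintro K _ _ A B hD Γ ⟨P, hP⟩ S hS n I hI
  have hfin : Finite (Γ ⧸ AddSubgroup.zmultiples P) := AddSubgroup.finite_quotient_of_finiteIndex
  by_cases hN : NT (P : Pt A B K)
  · have e : {Q : Fin n → Pt A B K | ∀ i, Q i ∈ Γ} =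
        ⋃ c : Fin n → Γ ⧸ AddSubgroup.zmultiples P, Set.range (pt (P : Pt A B K)
          (fun i => ((c i).out : Γ)) (fun i l : Fin n => if i = l then 1 else 0)) := by
      ext Q
      refine ⟨fun hQ => ?_, fun hQ i => ?_⟩
      · have h1 : ∀ i, ∃ m : ℤ, Q i =
            (((QuotientAddGroup.mk ⟨Q i, hQ i⟩ : Γ ⧸ AddSubgroup.zmultiples P).out : Γ) :
              Pt A B K) + m • (P : Pt A B K) := fun i => by
          obtain ⟨⟨h, m, rfl⟩, hm⟩ :=
            QuotientAddGroup.mk_out_eq_add (AddSubgroup.zmultiples P) ⟨Q i, hQ i⟩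
          refine ⟨-m, ?_⟩
          rw [hm]
          simp
        choose m hm using h1
        refine Set.mem_iUnion.2 ⟨fun i => QuotientAddGroup.mk ⟨Q i, hQ i⟩, m, funext fun i => ?_⟩
        rw [hm i]
        simp [pt]
      · obtain ⟨c, m, rfl⟩ := Set.mem_iUnion.1 hQ
        exact Γ.add_mem (c i).out.2 (Γ.zsmul_mem P.2 _)
    rw [e]
    exact TOPx.con_union fun c => hCOS K A B hD P hN S hS n I hI n _ _
  · have h1 : IsOfFinAddOrder P :=
      (Γ.subtype_injective.isOfFinAddOrder_iff (x := P)).1 (not_not.1 (mt nt_iff.2 hN))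
    have h2 : Finite (AddSubgroup.zmultiples P) := h1.finite_zmultiples
    have h3 : Finite Γ := Finite.of_addSubgroup_quotient (AddSubgroup.zmultiples P)
    have h4 : S.Nonempty := by
      have := hINF K
      exact (Set.infinite_of_finite_compl hS).nonempty
    have e : {Q : Fin n → Pt A B K | ∀ i, Q i ∈ Γ} =
        ⋃ c : Fin n → Γ, {fun i => (c i : Pt A B K)} := by
      ext Q
      refine ⟨fun hQ => Set.mem_iUnion.2 ⟨fun i => ⟨Q i, hQ i⟩, rfl⟩, fun hQ i => ?_⟩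
      obtain ⟨c, rfl⟩ := Set.mem_iUnion.1 hQ
      exact (c i).2
    rw [e]
    exact TOPx.con_union fun c => TOPx.con_single h4 _

end Pool.Agent.P.MP_ab3ecb_nt.AM
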