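import Pool.Agent.P.MP_ab3ecb_nt.AM.Iface

/-! Step ULIM. -/

set_option autoImplicit false

namespace Pool.Agent.P.MP_ab3ecb_nt.AM

open Filter Topology NumberField IsDedekindDomain Finset Real Pool.Agent.P.MP_ab3ecb_nt.TK
open scoped Classical NNReal

namespace ULIMx

lemma lim_of_bd {L ι : Type} [NontriviallyNormedField L] [ProperSpace L] (U : Ultrafilter ι)
    (f : ι → L) (r : ℝ) (h : ∀ᶠ i in (U : Filter ι), ‖f i‖ ≤ r) :
    ∃ x : L, Tendsto f U (𝓝 x) := by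
  obtain ⟨x, -, hx⟩ := (isCompact_closedBall (0 : L) r).ultrafilter_le_nhds (U.map f) (by
    rw [Ultrafilter.coe_map, le_principal_iff, Filter.mem_map]
    exact h.mono fun i hi => by simpa using hi)
  exact ⟨x, hx⟩

end ULIMx

theorem p_ULIM :
    S_ULIM := by
  intro R _ A B L ι _ _ _ _ _ _ hD U P
  by_cases h : ToO (U : Filter ι) P
  · exact ⟨0, by simpa using h⟩
  unfold ToO at h
  push Not at h
  obtain ⟨r, hr⟩ := h
  have h1 : ∀ᶠ i in (U : Filter ι), P i ≠ 0 ∧ ‖X (P i)‖ < r := hr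
  obtain ⟨x, hx⟩ := ULIMx.lim_of_bd U (fun i => X (P i)) r (h1.mono fun i hi => hi.2.le)
  have h2 : Tendsto (fun i => X (P i) ^ 3 + (A : L) * X (P i) + (B : L)) U
      (𝓝 (x ^ 3 + (A : L) * x + (B : L))) :=
    ((hx.pow 3).add (hx.const_mul _)).add_const _
  have h3 : Tendsto (fun i => Y (P i) ^ 2) U (𝓝 (x ^ 3 + (A : L) * x + (B : L))) :=
    h2.congr' (h1.mono fun i hi => (eqn hi.1).symm)
  have h4 : ∀ᶠ i in (U : Filter ι), ‖Y (P i)‖ ≤ ‖x ^ 3 + (A : L) * x + (B : L)‖ + 2 := by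
    refine (h3.norm.eventually (gt_mem_nhds (lt_add_one _))).mono fun i hi => ?_
    rw [norm_pow] at hi
    nlinarith [norm_nonneg (Y (P i)), norm_nonneg (x ^ 3 + (A : L) * x + (B : L)),
      sq_nonneg (‖Y (P i)‖ - 1)]
  obtain ⟨y, hy⟩ := ULIMx.lim_of_bd U (fun i => Y (P i)) _ h4
  obtain ⟨z, hz, rfl, rfl⟩ := exists_pt (L := L) hD (tendsto_nhds_unique (hy.pow 2) h3)
  exact ⟨z, la ⟨hz, h1.mono fun i hi => hi.1, hx, hy⟩⟩

end Pool.Agent.P.MP_ab3ecb_nt.AM
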