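import Pool.Agent.P.MP_ab3ecb_nt.AM.TPLC
import Pool.Agent.P.MP_ab3ecb_nt.AM.TINF
import Pool.Agent.P.MP_ab3ecb_nt.AM.TTAU
import Pool.Agent.P.MP_ab3ecb_nt.AM.TEVB
import Pool.Agent.P.MP_ab3ecb_nt.AM.TPD
import Pool.Agent.P.MP_ab3ecb_nt.AM.TLIP
import Pool.Agent.P.MP_ab3ecb_nt.AM.TGAL
import Pool.Agent.P.MP_ab3ecb_nt.AM.TLIO
import Pool.Agent.P.MP_ab3ecb_nt.AM.TIND
import Pool.Agent.P.MP_ab3ecb_nt.AM.TASM
import Pool.Agent.P.MP_ab3ecb_nt.AM.TLADD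
import Pool.Agent.P.MP_ab3ecb_nt.AM.TLADI
import Pool.Agent.P.MP_ab3ecb_nt.AM.TQUAD
import Pool.Agent.P.MP_ab3ecb_nt.AM.TLADB
import Pool.Agent.P.MP_ab3ecb_nt.AM.TCNT
import Pool.Agent.P.MP_ab3ecb_nt.AM.TDIVL
import Pool.Agent.P.MP_ab3ecb_nt.AM.THB
import Pool.Agent.P.MP_ab3ecb_nt.AM.TCAN
import Pool.Agent.P.MP_ab3ecb_nt.AM.TFIN
import Pool.Agent.P.MP_ab3ecb_nt.AM.TGLOB
import Pool.Agent.P.MP_ab3ecb_nt.AM.TTAY
import Pool.Agent.P.MP_ab3ecb_nt.AM.TLOCB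
import Pool.Agent.P.MP_ab3ecb_nt.AM.TDEEP
import Pool.Agent.P.MP_ab3ecb_nt.AM.TPAR
import Pool.Agent.P.MP_ab3ecb_nt.AM.TCOV
import Pool.Agent.P.MP_ab3ecb_nt.AM.TLAT
import Pool.Agent.P.MP_ab3ecb_nt.AM.TSIZE
import Pool.Agent.P.MP_ab3ecb_nt.AM.TKEYA
import Pool.Agent.P.MP_ab3ecb_nt.AM.TKEY
import Pool.Agent.P.MP_ab3ecb_nt.AM.TADD
import Pool.Agent.P.MP_ab3ecb_nt.AM.TRAT
import Pool.Agent.P.MP_ab3ecb_nt.AM.TNORM
import Pool.Agent.P.MP_ab3ecb_nt.AM.TGEN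
import Pool.Agent.P.MP_ab3ecb_nt.AM.TULIM
import Pool.Agent.P.MP_ab3ecb_nt.AM.TDIVO
import Pool.Agent.P.MP_ab3ecb_nt.AM.TCOC
import Pool.Agent.P.MP_ab3ecb_nt.AM.TCLO
import Pool.Agent.P.MP_ab3ecb_nt.AM.THYP
import Pool.Agent.P.MP_ab3ecb_nt.AM.TREL
import Pool.Agent.P.MP_ab3ecb_nt.AM.TPROJ
import Pool.Agent.P.MP_ab3ecb_nt.AM.TCOS
import Pool.Agent.P.MP_ab3ecb_nt.AM.TTOP

/-! The steps put together. -/

set_option autoImplicit false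

namespace Pool.Agent.P.MP_ab3ecb_nt.AM

theorem r_PLC : S_PLC := p_PLC

theorem r_INF : S_INF := p_INF

theorem r_TAU : S_TAU := p_TAU

theorem r_EVB : S_EVB := p_EVB

theorem r_PD : S_PD := p_PD

theorem r_LIP : S_LIP := p_LIP

theorem r_GAL : S_GAL := p_GAL

theorem r_LIO : S_LIO := p_LIO r_EVB r_GAL

theorem r_IND : S_IND := p_IND r_PD r_LIO

theorem r_ASM : S_ASM := p_ASM

theorem r_LADD : S_LADD := p_LADD

theorem r_LADI : S_LADI := p_LADI r_ASM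

theorem r_QUAD : S_QUAD := p_QUAD r_EVB

theorem r_LADB : S_LADB := p_LADB r_ASM r_LADI

theorem r_CNT : S_CNT := p_CNT r_LADD r_LADI

theorem r_DIVL : S_DIVL := p_DIVL r_LADD r_LADI

theorem r_HB : S_HB := p_HB r_LADD r_LADI r_QUAD r_LADB r_GAL

theorem r_CAN : S_CAN := p_CAN

theorem r_FIN : S_FIN := p_FIN

theorem r_GLOB : S_GLOB := p_GLOB r_CNT r_HB r_CAN

theorem r_TAY : S_TAY := p_TAY

theorem r_LOCB : S_LOCB := p_LOCB r_PD r_LIP r_TAY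

theorem r_DEEP : S_DEEP := p_DEEP r_LIP r_DIVL r_LOCB

theorem r_PAR : S_PAR := p_PAR

theorem r_COV : S_COV := p_COV r_PAR

theorem r_LAT : S_LAT := p_LAT r_COV

theorem r_SIZE : S_SIZE := p_SIZE

theorem r_KEYA : S_KEYA := p_KEYA r_TAU r_IND r_GLOB r_DEEP

theorem r_KEY : S_KEY := p_KEY r_PLC r_FIN r_LAT r_SIZE r_KEYA

theorem r_ADD : S_ADD := p_ADD

theorem r_RAT : S_RAT := p_RAT r_ADD

theorem r_NORM : S_NORM := p_NORM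

theorem r_GEN : S_GEN := p_GEN r_RAT r_NORM

theorem r_ULIM : S_ULIM := p_ULIM

theorem r_DIVO : S_DIVO := p_DIVO r_ULIM

theorem r_COC : S_COC := p_COC

theorem r_CLO : S_CLO := p_CLO r_COC

theorem r_HYP : S_HYP := p_HYP r_ULIM

theorem r_REL : S_REL := p_REL r_KEY r_GEN r_HYP

theorem r_PROJ : S_PROJ := p_PROJ

theorem r_COS : S_COS := p_COS r_REL r_PROJ r_DIVO

theorem r_TOP : S_TOP := p_TOP r_INF r_COS

end Pool.Agent.P.MP_ab3ecb_nt.AM
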