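import Pool.Agent.P.MP_ab3ecb_nt.AM.BaseL
import Pool.Agent.P.MP_ab3ecb_nt.R1.HFin

/-! Definitions and basic lemmas used in the steps. -/

set_option autoImplicit false
set_option linter.unusedSectionVars false

namespace Pool.Agent.P.MP_ab3ecb_nt.AM

open Filter Topology NumberField IsDedekindDomain Finset Real Pool.Agent.P.MP_ab3ecb_nt.TK
open scoped Classical NNReal

/-! ### The formal group -/

section FG

variable {R : Type} [CommRing R] [Algebra.IsIntegral ℤ R] {A B : R} {L G : Type} [Field L]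
  [Algebra R L] [DecidableEq L] [LinearOrderedCommGroupWithZero G] {v : Valuation L G}

lemma fg {P Q : Pt A B L} (hP : E1 v P) (hQ : E1 v Q) :
    E1 v (P + Q) ∧ v (Z (P + Q) - Z P - Z Q) ≤ max (v (Z P)) (v (Z Q)) ^ 5 :=
  Lb.p_FG A B L G v P Q hP hQ

lemma sm_add {c : G} {P Q : Pt A B L} (hP : Sm v c P) (hQ : Sm v c Q) : Sm v c (P + Q) := by
  obtain ⟨a, b⟩ := fg hP.1 hQ.1
  refine ⟨a, ?_⟩
  rw [show Z (P + Q) = Z (P + Q) - Z P - Z Q + Z P + Z Q by ring]
  exact v.map_add_le (v.map_add_le (b.trans ((pow_le_of_le_one zero_le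
    (max_le hP.1.Z_lt.le hQ.1.Z_lt.le) (by norm_num)).trans (max_le hP.2 hQ.2))) hP.2) hQ.2

lemma sm_sub {c : G} {P Q : Pt A B L} (hP : Sm v c P) (hQ : Sm v c Q) : Sm v c (P - Q) := by
  rw [sub_eq_add_neg]; exact sm_add hP hQ.neg

lemma sm_zsmul {c : G} {P : Pt A B L} (hP : Sm v c P) (n : ℤ) : Sm v c (n • P) := by
  induction n using Int.induction_on with
  | zero => rw [zero_smul]; exact sm_zero c
  | succ n ih => rw [add_smul, one_smul]; exact sm_add ih hP
  | pred n ih => rw [sub_smul, one_smul]; exact sm_sub ih hP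

/-- The parameter of a multiple. -/
lemma z_zsmul {P : Pt A B L} (hP : E1 v P) (m : ℤ) : v (Z (m • P) - m * Z P) ≤ v (Z P) ^ 5 := by
  have st : ∀ (m : ℤ) (Q : Pt A B L), Sm v (v (Z P)) Q →
      v (Z (m • P + Q) - Z (m • P) - Z Q) ≤ v (Z P) ^ 5 := fun m Q hQ =>
    (fg (sm_zsmul hP.sm m).1 hQ.1).2.trans
      (pow_le_pow_left' (max_le (sm_zsmul hP.sm m).2 hQ.2) 5)
  induction m using Int.induction_on with
  | zero => simp
  | succ m ih =>
    refine le_of_eq_of_le (congrArg v ?_) (v.map_add_le (st m P hP.sm) ih)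
    rw [add_smul, one_smul]; push_cast; ring
  | pred m ih =>
    refine le_of_eq_of_le (congrArg v ?_) (v.map_add_le (st (-m) (-P) hP.sm.neg) ih)
    rw [sub_smul, one_smul, sub_eq_add_neg _ P, Z_neg]; push_cast; ring

/-- Adding a point close to the origin moves the coordinates a little. -/
lemma cl {M : G} {P Q : Pt A B L} (h0 : P ≠ 0) (h1 : 1 ≤ M) (hx : v (X P) ≤ M) (hQ : E1 v Q)
    (hc : v (Z Q) * M ≤ 1) : P + Q ≠ 0 ∧ v (X (P + Q) - X P) ≤ v (Z Q) * M ^ 2 ∧
      v (Y (P + Q) - Y P) ≤ v (Z Q) * M ^ 2 :=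
  Lb.p_CL A B L G v M P Q h0 h1 hx hQ hc

end FG

/-! ### Limits -/

section Lim

variable {R : Type} [CommRing R] {A B : R} {L ι : Type} [NontriviallyNormedField L] [Algebra R L]
  [DecidableEq L] {l : Filter ι} {P Q : ι → Pt A B L} {T T' : Pt A B L}

lemma la (h : ToA l P T) : ToO l fun i => P i - T := Lb.p_LA A B L ι l P T h

lemma lb (h : ToA l P T) (h' : ToO l Q) : ToA l (fun i => P i + Q i) T :=
  Lb.p_LB A B L ι l P Q T h h'

lemma toO_of_co [ProperSpace L] (h : Tendsto (fun i => co (P i)) l (𝓝 (co T))) :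
    ToO l fun i => P i - T :=
  ((Lb.p_CO Lb.p_LA Lb.p_LB A B L ι l P T).1 h).2

lemma lim_unique [ProperSpace L] [l.NeBot] (h : ToO l fun i => P i - T)
    (h' : ToO l fun i => P i - T') : T = T' :=
  (Lb.p_CO Lb.p_LA Lb.p_LB A B L ι l P T).2 T' inferInstance h h'

lemma toO_zero (l : Filter ι) : ToO l fun _ => (0 : Pt A B L) :=
  fun _ => .of_forall fun _ => .inl rfl

lemma toO_congr (h : ToO l P) (h' : ∀ᶠ i in l, P i = Q i) : ToO l Q :=
  fun r => ((h r).and h').mono fun _ hi => hi.2 ▸ hi.1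

variable [Algebra.IsIntegral ℤ R] [IsUltrametricDist L]

lemma toO_iff : ToO l P ↔
    ∀ c : ℝ≥0, 0 < c → ∀ᶠ i in l, Sm (NormedField.valuation (K := L)) c (P i) :=
  Lb.p_TS A B L ι l P

lemma toO_add (h : ToO l P) (h' : ToO l Q) : ToO l fun i => P i + Q i :=
  toO_iff.2 fun c hc => ((toO_iff.1 h c hc).and (toO_iff.1 h' c hc)).mono fun _ hi =>
    sm_add hi.1 hi.2

lemma toO_zsmul (h : ToO l P) (n : ι → ℤ) : ToO l fun i => n i • P i :=
  toO_iff.2 fun c hc => (toO_iff.1 h c hc).mono fun i hi => sm_zsmul hi (n i)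

lemma toO_sum {κ : Type} (s : Finset κ) {P : κ → ι → Pt A B L} (h : ∀ j ∈ s, ToO l (P j)) :
    ToO l fun i => ∑ j ∈ s, P j i := by
  induction s using Finset.induction_on with
  | empty => simpa using toO_zero l
  | insert j s hj ih =>
    simp only [sum_insert hj]
    exact toO_add (h j (mem_insert_self _ _)) (ih fun j hj => h j (mem_insert_of_mem hj))

end Lim

/-! ### The curve -/

section Curve

variable {R : Type} [CommRing R] {A B : R} {L : Type} [Field L] [Algebra R L]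

lemma ell [CharZero L] [FaithfulSMul R L] (hD : 4 * A ^ 3 + 27 * B ^ 2 ≠ 0) :
    ((⟨0, 0, 0, A, B⟩ : WeierstrassCurve R).baseChange L).IsElliptic := by
  refine ⟨isUnit_iff_ne_zero.2 fun h => hD ?_⟩
  have h3 : ((4 * A ^ 3 + 27 * B ^ 2 : R) : L) = 0 := by
    rw [WeierstrassCurve.baseChange, WeierstrassCurve.map_Δ] at h
    have e : (⟨0, 0, 0, A, B⟩ : WeierstrassCurve R).Δ = -16 * (4 * A ^ 3 + 27 * B ^ 2) := by
      simp only [WeierstrassCurve.Δ, WeierstrassCurve.b₂, WeierstrassCurve.b₄, WeierstrassCurve.b₆,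
        WeierstrassCurve.b₈]
      ring
    rw [e, map_mul, mul_eq_zero] at h
    exact h.resolve_left (by simp [map_ofNat])
  exact_mod_cast h3

/-- Over an algebraically closed field every element is the first coordinate of a point. -/
lemma exists_X [IsAlgClosed L] [CharZero L] [FaithfulSMul R L] (hD : 4 * A ^ 3 + 27 * B ^ 2 ≠ 0)
    (x : L) : ∃ P : Pt A B L, P ≠ 0 ∧ X P = x := by
  obtain ⟨y, hy⟩ := IsAlgClosed.exists_pow_nat_eq (x ^ 3 + A * x + B) two_pos
  obtain ⟨P, h1, h2, -⟩ := exists_pt hD hy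
  exact ⟨P, h1, h2⟩

@[simp] lemma rep_zero : rep (0 : Pt A B L) = ![0, 1, 0] := rfl

lemma rep_ne {P : Pt A B L} (h : P ≠ 0) : rep P = ![X P, Y P, 1] := by
  rcases P with _ | ⟨x, y, h'⟩
  · exact absurd rfl h
  · rfl

/-- The first coordinate as a point of the projective line. -/
def xr : Pt A B L → L × L
  | .zero => (1, 0)
  | .some x _ _ => (x, 1)

@[simp] lemma xr_zero : xr (0 : Pt A B L) = (1, 0) := rfl

lemma xr_ne {P : Pt A B L} (h : P ≠ 0) : xr P = (X P, 1) := by
  rcases P with _ | ⟨x, y, h'⟩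
  · exact absurd rfl h
  · rfl

/-- The pair `p` represents the first coordinate of `P`. -/
def Rp (p : L × L) (P : Pt A B L) : Prop := ∃ c : L, c ≠ 0 ∧ p.1 = c * (xr P).1 ∧ p.2 = c * (xr P).2

lemma Rp.ne {p : L × L} {P : Pt A B L} (h : Rp p P) (h0 : P ≠ 0) : p.2 ≠ 0 ∧ p.1 = p.2 * X P := by
  obtain ⟨c, h1, h2, h3⟩ := h
  rw [xr_ne h0] at h2 h3
  rw [h2, h3, mul_one]
  exact ⟨h1, rfl⟩

lemma Rp.zero {p : L × L} (h : Rp p (0 : Pt A B L)) : p.1 ≠ 0 ∧ p.2 = 0 := by
  obtain ⟨c, h1, h2, h3⟩ := h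
  rw [h2, h3]
  simpa using h1

variable [DecidableEq L]

lemma nt_ne {P : Pt A B L} (h : NT P) {n : ℤ} (hn : n ≠ 0) : n • P ≠ 0 := fun h0 => hn (h n h0)

lemma nt_zsmul {P : Pt A B L} (h : NT P) {n : ℤ} (hn : n ≠ 0) : NT (n • P) := fun m hm =>
  (mul_eq_zero.1 (h (m * n) (by rw [mul_smul, hm]))).resolve_right hn

lemma nt_iff {P : Pt A B L} : NT P ↔ ¬ IsOfFinAddOrder P := by
  rw [isOfFinAddOrder_iff_zsmul_eq_zero]
  exact ⟨fun h ⟨n, h1, h2⟩ => h1 (h n h2), fun h n h2 => by_contra fun h1 => h ⟨n, h1, h2⟩⟩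

/-- A point with second coordinate zero has order at most two. -/
lemma two_of_Y {P : Pt A B L} (h : Y P = 0) : (2 : ℤ) • P = 0 := by
  by_cases h0 : P = 0
  · rw [h0, smul_zero]
  rw [two_smul, add_eq_zero_iff_eq_neg]
  exact pt_ext h0 (neg_ne_zero.2 h0) (X_neg P).symm (by rw [Y_neg, h, neg_zero])

end Curve

/-! ### The ladder -/

section Ladder

variable {S S' : Type} [CommRing S] [CommRing S']

/-- The first form of the addition and subtraction map. -/
def g0 (a b u v w : S) : S := u ^ 2 - 2 * a * u * w - 4 * b * v * w + a ^ 2 * w ^ 2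

/-- The second form of the addition and subtraction map. -/
def g1 (a b u v w : S) : S := 2 * v * u + 2 * a * v * w + 4 * b * w ^ 2

/-- The third form of the addition and subtraction map. -/
def g2 (u v w : S) : S := v ^ 2 - 4 * u * w

/-- The first form at the symmetric product of two pairs. -/
def f0 (a b : S) (p q : S × S) : S := g0 a b (p.1 * q.1) (p.1 * q.2 + p.2 * q.1) (p.2 * q.2)

/-- The second form at the symmetric product of two pairs. -/
def f1 (a b : S) (p q : S × S) : S := g1 a b (p.1 * q.1) (p.1 * q.2 + p.2 * q.1) (p.2 * q.2)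

/-- The third form at the symmetric product of two pairs. -/
def f2 (p q : S × S) : S := g2 (p.1 * q.1) (p.1 * q.2 + p.2 * q.1) (p.2 * q.2)

/-- The pair `p` is obtained from `(x, 1)` by the ladder for multiplication by `m`. -/
inductive Lad (a b x : S) : ℕ → S × S → Prop
  | one : Lad a b x 1 (x, 1)
  | dbl {k : ℕ} {p : S × S} : Lad a b x k p → Lad a b x (2 * k) (f0 a b p p, f1 a b p p)
  | stp {k : ℕ} {p q : S × S} : Lad a b x (k + 1) p → Lad a b x k q →
      Lad a b x (2 * k + 1) (f1 a b p q - x * f2 p q, f2 p q)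

lemma Lad.pos {a b x : S} {m : ℕ} {p : S × S} (h : Lad a b x m p) : 0 < m := by
  induction h <;> omega

lemma Lad.map {a b x : S} {m : ℕ} {p : S × S} (h : Lad a b x m p) (f : S →+* S') :
    Lad (f a) (f b) (f x) m (f p.1, f p.2) := by
  induction h with
  | one => simpa using Lad.one
  | dbl _ ih => simpa [f0, f1, g0, g1, map_ofNat] using ih.dbl
  | stp _ _ ih ih' => simpa [f1, f2, g1, g2, map_ofNat] using ih.stp ih'

lemma Lad.aeval {R L : Type} [CommRing R] [Field L] [Algebra R L] {A B : R} {m : ℕ}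
    {φ ψ : Polynomial R} (h : Lad (Polynomial.C A) (Polynomial.C B) Polynomial.X m (φ, ψ))
    (x : L) : Lad (A : L) (B : L) x m (Polynomial.aeval x φ, Polynomial.aeval x ψ) := by
  simpa using h.map (Polynomial.aeval x : Polynomial R →ₐ[R] L).toRingHom

/-- The largest of three sizes. -/
def n3 {L : Type} (ab : L → ℝ) (u v w : L) : ℝ := max (ab u) (max (ab v) (ab w))

end Ladder

/-! ### Sums over places -/

section Bd

variable {ι : Type} {f g : ι → ℝ} {b c : ℝ}

/-- All finite sums of values of `f` are at most `b`. -/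
def Bd (f : ι → ℝ) (b : ℝ) : Prop := ∀ s : Finset ι, ∑ i ∈ s, f i ≤ b

lemma Bd.nonneg (h : Bd f b) : 0 ≤ b := by simpa using h ∅

lemma Bd.mono (h : Bd f b) (h1 : ∀ i, g i ≤ f i) (h2 : b ≤ c) : Bd g c :=
  fun s => ((sum_le_sum fun i _ => h1 i).trans (h s)).trans h2

lemma Bd.add (h : Bd f b) (h' : Bd g c) : Bd (fun i => f i + g i) (b + c) :=
  fun s => by rw [sum_add_distrib]; exact add_le_add (h s) (h' s)

lemma Bd.mul (h : Bd f b) (hc : 0 ≤ c) : Bd (fun i => c * f i) (c * b) :=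
  fun s => by rw [← mul_sum]; exact mul_le_mul_of_nonneg_left (h s) hc

lemma Bd.sum {κ : Type} (t : Finset κ) {f : κ → ι → ℝ} {b : κ → ℝ} (h : ∀ j ∈ t, Bd (f j) (b j)) :
    Bd (fun i => ∑ j ∈ t, f j i) (∑ j ∈ t, b j) :=
  fun s => by rw [sum_comm]; exact sum_le_sum fun j hj => h j hj s

lemma Bd.comp {κ : Type} (h : Bd f b) {e : κ → ι} (he : Function.Injective e) :
    Bd (fun j => f (e j)) b :=
  fun s => by simpa only [sum_map, Function.Embedding.coeFn_mk] using h (s.map ⟨e, he⟩)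

end Bd

/-- The algebraic closure. -/
abbrev Om (K : Type) [Field K] : Type := AlgebraicClosure K

/-- The finite places. -/
abbrev Pl (K : Type) [Field K] : Type := HeightOneSpectrum (𝓞 K)

variable {K : Type} [Field K] [NumberField K]

/-- The completion at a finite place. -/
abbrev Kv (v : Pl K) : Type := v.adicCompletion K

/-- The absolute value at a finite place. -/
noncomputable def nv (v : Pl K) (x : K) : ℝ := ‖algebraMap K (Kv v) x‖

instance (v : Pl K) : ProperSpace (Kv v) := Lb.p_PROP v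

instance (v : Pl K) : IsUltrametricDist (Kv v) := inferInstance

instance (v : Pl K) : CharZero (Kv v) := algebraRat.charZero _

/-- One extension to the algebraic closure of every place of `K`, complex places twice. -/
structure Plc (K : Type) [Field K] [NumberField K] where
  /-- the index set -/
  ι : Type
  /-- the absolute values -/
  ab : ι → AbsoluteValue (Om K) ℝ
  /-- one for the infinite places, zero for the finite ones -/
  th : ι → ℕ
  /-- the number of infinite places -/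
  d : ℕ
  /-- the index of a finite place -/
  e : Pl K → ι
  /-- the valuation at a finite place -/
  w : Pl K → Valuation (Om K) ℝ≥0
  th1 : ∀ i, th i ≤ 1
  thd : Bd (fun i => (th i : ℝ)) d
  na : ∀ i, th i = 0 → IsNonarchimedean (ab i)
  int : ∀ a : 𝓞 K, ∃ c : ℝ, 1 ≤ c ∧ ∀ i, ab i (a : Om K) ≤ c ^ th i
  pf : ∀ x : K, x ≠ 0 → ∀ s : Finset ι, ∃ s', s ⊆ s' ∧
    ∑ i ∈ s', log (ab i (algebraMap K (Om K) x)) = 0
  ht : ∀ x : K, Bd (fun i => log⁺ (ab i (algebraMap K (Om K) x))) (Height.logHeight₁ x)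
  einj : Function.Injective e
  hw : ∀ v x, ab (e v) x = w v x
  hK : ∀ v x, ab (e v) (algebraMap K (Om K) x) = nv v x

namespace Plc

variable (W : Plc K)

lemma add_le (i : W.ι) (a b : Om K) : W.ab i (a + b) ≤ 2 ^ W.th i * max (W.ab i a) (W.ab i b) := by
  rcases Nat.le_one_iff_eq_zero_or_eq_one.1 (W.th1 i) with h | h
  · rw [h, pow_zero, one_mul]; exact W.na i h a b
  · rw [h, pow_one]
    linarith [(W.ab i).add_le a b, le_max_left (W.ab i a) (W.ab i b),
      le_max_right (W.ab i a) (W.ab i b)]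

lemma sum_le (i : W.ι) {κ : Type} (s : Finset κ) (f : κ → Om K) {b : ℝ} (hb : 0 ≤ b)
    (h : ∀ j ∈ s, W.ab i (f j) ≤ b) : W.ab i (∑ j ∈ s, f j) ≤ (#s : ℝ) ^ W.th i * b := by
  rcases Nat.le_one_iff_eq_zero_or_eq_one.1 (W.th1 i) with h1 | h1
  · rw [h1, pow_zero, one_mul]
    induction s using Finset.induction_on with
    | empty => simpa using hb
    | insert j s hj ih =>
      rw [sum_insert hj]
      exact (W.na i h1 _ _).trans (max_le (h j (mem_insert_self _ _))
        (ih fun j hj => h j (mem_insert_of_mem hj)))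
  · rw [h1, pow_one]
    exact ((W.ab i).sum_le s f).trans (by simpa using sum_le_card_nsmul s _ b h)

/-- The product formula as an inequality. -/
lemma pf_le {x : K} (hx : x ≠ 0) (s : Finset W.ι) {f g : W.ι → ℝ} {b : ℝ}
    (h : ∀ i ∈ s, f i + log (W.ab i (algebraMap K (Om K) x)) ≤ g i)
    (h' : ∀ i, log (W.ab i (algebraMap K (Om K) x)) ≤ g i) (hg : Bd g b) :
    ∑ i ∈ s, f i ≤ b := by
  obtain ⟨s', h1, h2⟩ := W.pf x hx s
  have h3 := hg s'
  rw [← sum_sdiff h1] at h2 h3
  have h4 := sum_le_sum h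
  have h5 := sum_le_sum fun i (_ : i ∈ s' \ s) => h' i
  rw [sum_add_distrib] at h4
  linarith

lemma pf_bd {x : K} (hx : x ≠ 0) {f g : W.ι → ℝ} {b : ℝ} (hf : ∀ i, 0 ≤ f i)
    (h : ∀ i, f i ≤ g i + log (W.ab i (algebraMap K (Om K) x))) (hg : Bd g b) : Bd f b :=
  fun s => W.pf_le (inv_ne_zero hx) s
    (fun i _ => by rw [map_inv₀, map_inv₀, log_inv]; linarith [h i])
    (fun i => by rw [map_inv₀, map_inv₀, log_inv]; linarith [h i, hf i]) hg

/-- The local height of a finite family of vectors. -/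
noncomputable def lam {α σ : Type} [Fintype σ] (J : Finset α) (x : α → σ → Om K) (i : W.ι) : ℝ :=
  ∑ a ∈ J, ∑ l, log⁺ (W.ab i (x a l))

lemma lam_nonneg {α σ : Type} [Fintype σ] (J : Finset α) (x : α → σ → Om K) (i : W.ι) :
    0 ≤ W.lam J x i :=
  sum_nonneg fun _ _ => sum_nonneg fun _ _ => posLog_nonneg

lemma le_lam {α σ : Type} [Fintype σ] {J : Finset α} (x : α → σ → Om K) (i : W.ι) {a : α}
    (ha : a ∈ J) (l : σ) : log⁺ (W.ab i (x a l)) ≤ W.lam J x i :=
  (single_le_sum (f := fun l => log⁺ (W.ab i (x a l))) (fun _ _ => posLog_nonneg)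
    (mem_univ l)).trans (single_le_sum (f := fun a => ∑ l, log⁺ (W.ab i (x a l)))
      (fun _ _ => sum_nonneg fun _ _ => posLog_nonneg) ha)

end Plc

/-- The finite family of vectors is permuted by the Galois group. -/
def Gal {α σ : Type} (J : Finset α) (x : α → σ → Om K) : Prop :=
  ∀ τ : Om K ≃ₐ[K] Om K, ∃ e : α → α, Function.Injective e ∧
    ∀ a ∈ J, e a ∈ J ∧ ∀ l, x (e a) l = τ (x a l)

/-! ### The auxiliary points -/

/-- The lattice data. -/
structure Cfg (k : ℕ) where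
  /-- the modulus -/
  M : ℕ
  /-- the residues -/
  r : Fin k → ℤ
  /-- the short vectors -/
  b : Fin (k + 1) → Fin k → ℤ
  /-- the quotients -/
  u : Fin (k + 1) → Fin k → ℤ
  /-- the last coordinates -/
  t : Fin (k + 1) → ℕ
  hM : 0 < M
  ht : ∀ j, 0 < t j
  hb : ∀ j l, b j l ≠ 0
  hu : ∀ j l, M * u j l = b j l - t j * r l
  hd : (Matrix.of fun j l => t 0 * u j.succ l - t j.succ * u 0 l : Matrix (Fin k) (Fin k) ℤ).det ≠ 0

namespace Cfg

variable {k : ℕ} (c : Cfg k)

/-- The matrix of differences. -/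
def β : Matrix (Fin k) (Fin k) ℤ := .of fun j l => c.t 0 * c.u j.succ l - c.t j.succ * c.u 0 l

/-- The product of all denominators. -/
def τ : ℤ := 2 * c.β.det * ∏ j, (c.t j : ℤ)

lemma τ_ne : c.τ ≠ 0 :=
  mul_ne_zero (mul_ne_zero two_ne_zero c.hd)
    (prod_ne_zero_iff.2 fun j _ => by exact_mod_cast (c.ht j).ne')

/-- The short vectors have size at most `L`. -/
def Le (L : ℝ) : Prop := (∀ j l, |(c.b j l : ℝ)| ≤ L) ∧ ∀ j, (c.t j : ℝ) ≤ L

variable {R : Type} [CommRing R] {A B : R} {L : Type} [Field L] [Algebra R L] [DecidableEq L]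

/-- The auxiliary points. -/
noncomputable def y (P : Pt A B L) (a : Fin (k + 1) × Pt A B L) (l : Fin k) : Pt A B L :=
  c.r l • P + c.u a.1 l • a.2

/-- The index set of the auxiliary points. -/
def In (P : Pt A B L) (a : Fin (k + 1) × Pt A B L) : Prop := (c.t a.1 : ℤ) • a.2 = (c.M : ℤ) • P

lemma In.smul {c : Cfg k} {P : Pt A B L} {a : Fin (k + 1) × Pt A B L} (h : c.In P a) (l : Fin k) :
    (c.t a.1 : ℤ) • c.y P a l = c.b a.1 l • P := by
  rw [y, smul_add, smul_comm _ (c.u a.1 l), h, smul_smul, smul_smul, ← add_smul, mul_comm (c.u _ _),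
    c.hu, add_sub_cancel]

lemma In.nt {c : Cfg k} {P : Pt A B L} {a : Fin (k + 1) × Pt A B L} (h : c.In P a) (hP : NT P)
    (l : Fin k) : NT (c.y P a l) := fun n hn => by
  have h1 : (n * c.b a.1 l) • P = 0 := by rw [mul_smul, ← h.smul, smul_comm, hn, smul_zero]
  exact (mul_eq_zero.1 (hP _ h1)).resolve_right (c.hb _ _)

end Cfg

section Poly

variable {R : Type} [CommRing R] {k : ℕ}

open MvPolynomial in
/-- A derivative times the cubic. -/
noncomputable def dl (A B : R) (f : MvPolynomial (Fin k) R) (l : Fin k) : MvPolynomial (Fin k) R :=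
  (MvPolynomial.X l ^ 3 + C A * MvPolynomial.X l + C B) * pderiv l f

variable {L : Type} [Field L] [Algebra R L]

/-- If a polynomial vanishes at all the vectors, its derivatives are small there. -/
def PB (A B : R) (ab : L → ℝ) (ζ ρ : ℝ) (x : Fin (k + 1) → Fin k → L) : Prop :=
  ∀ f : MvPolynomial (Fin k) R, (∀ j, MvPolynomial.aeval (x j) f = 0) →
    ∀ j l, ab (MvPolynomial.aeval (x j) (dl A B f l)) ≤ ζ * ρ ^ (f.totalDegree + 6)

variable {A B : R} [DecidableEq L]

/-- Some `m l • P` is close to the origin or `g` is small at the first coordinates. -/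
def Cls (ab : L → ℝ) (P : Pt A B L) (g : MvPolynomial (Fin k) R) (ρ : ℝ) (m : Fin k → ℤ) : Prop :=
  (∃ l, m l • P = 0 ∨ ρ ≤ ab (X (m l • P))) ∨
    ρ * ab (MvPolynomial.aeval (fun l => X (m l • P)) g) ≤ 1

/-- The hypothesis of the key statement at one place. -/
def Hyp (ab : L → ℝ) (P : Pt A B L) (g : MvPolynomial (Fin k) R) (M : ℕ) (r : Fin k → ℤ) : Prop :=
  ∀ ρ : ℝ, ∃ m : Fin k → ℤ, (∀ l, (M : ℤ) ∣ m l - r l) ∧ Cls ab P g ρ m

omit [DecidableEq L] in
/-- The affine coordinates of a vector of points. -/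
def xy (z : Fin k → Pt A B L) : Fin k × Fin 2 → L := fun s => ![X (z s.1), Y (z s.1)] s.2

end Poly

/-- A short relation modulo `M`. -/
def Rel {k : ℕ} (C M : ℕ) (r : Fin k → ℤ) : Prop :=
  ∃ (a : Fin k → ℤ) (c : ℤ), (a ≠ 0 ∨ c ≠ 0) ∧ (∀ l, |a l| ≤ C) ∧ |c| ≤ C ∧
    (M : ℤ) ∣ ∑ l, a l * r l - c

section Glob

variable {A B : 𝓞 K} {k n : ℕ} {L : Type} [Field L] [Algebra K L]

omit [NumberField K] in
lemma nt_bc {P : Pt A B K} (h : NT P) : NT (bc L P) := fun n hn =>
  h n ((bc_eq_zero (L := L)).1 (by rw [map_zsmul, hn]))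

omit [NumberField K] in
lemma aeval_alg {σ : Type} (x : σ → K) (g : MvPolynomial σ (𝓞 K)) :
    MvPolynomial.aeval (fun l => algebraMap K L (x l)) g =
      algebraMap K L (MvPolynomial.aeval x g) :=
  (MvPolynomial.comp_aeval_apply x (IsScalarTower.toAlgHom (𝓞 K) K L) g).symm

omit [NumberField K] in
lemma cls_bc {ab : K → ℝ} {ab' : L → ℝ} (h : ∀ x, ab' (algebraMap K L x) = ab x) (P : Pt A B K)
    (g : MvPolynomial (Fin k) (𝓞 K)) (ρ : ℝ) (m : Fin k → ℤ) :
    Cls ab' (bc L P) g ρ m ↔ Cls ab P g ρ m := by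
  simp only [Cls, ← map_zsmul, bc_eq_zero, X_bc, aeval_alg, h]

omit [NumberField K] in
lemma rep_bc (P : Pt A B K) (j : Fin 3) : rep (bc L P) j = algebraMap K L (rep P j) := by
  by_cases h : P = 0
  · rw [h, map_zero]; fin_cases j <;> simp
  · rw [rep_ne h, rep_ne (mt bc_eq_zero.1 h)]; fin_cases j <;> simp

/-- The value of a form at a vector of points. -/
noncomputable def evr (F : MvPolynomial (Fin n × Fin 3) K) (a : Fin n → Pt A B L) : L :=
  MvPolynomial.aeval (fun s => rep (a s.1) s.2) F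

omit [NumberField K] in
lemma on_iff {I : Set (MvPolynomial (Fin n × Fin 3) K)} {a : Fin n → Pt A B L} :
    On I a ↔ ∀ F ∈ I, evr F a = 0 := Iff.rfl

omit [NumberField K] in
lemma evr_bc (F : MvPolynomial (Fin n × Fin 3) K) (a : Fin n → Pt A B K) :
    evr F (fun i => bc L (a i)) = algebraMap K L (evr F a) := by
  simp only [evr, rep_bc]
  exact (MvPolynomial.comp_aeval_apply _ (Algebra.ofId K L) F).symm

/-- The polynomial is homogeneous in each of the `n` triples of variables. -/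
def Hom (F : MvPolynomial (Fin n × Fin 3) K) : Prop :=
  ∃ d : Fin n → ℕ, F.IsWeightedHomogeneous (fun s => Pi.single s.1 1) d

/-- A constant plus a combination of variable points. -/
noncomputable def cmb (Q : Pt A B K) (b : Fin k → ℤ) (z : Fin k → Pt A B L) : Pt A B L :=
  bc L Q + ∑ l, b l • z l

/-- The point `Q + G m P`. -/
noncomputable def pt (P : Pt A B K) (Q : Fin n → Pt A B K) (G : Fin n → Fin k → ℤ)
    (m : Fin k → ℤ) : Fin n → Pt A B K :=
  fun i => Q i + (∑ l, G i l * m l) • P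

/-- The polynomial `g` vanishes at the first coordinates of `z` if `F` vanishes at `Q + G z`. -/
def Gen (F : MvPolynomial (Fin n × Fin 3) K) (Q : Fin n → Pt A B K) (G : Fin n → Fin k → ℤ)
    (g : MvPolynomial (Fin k) (𝓞 K)) (L : Type) [Field L] [Algebra K L] : Prop :=
  ∀ z : Fin k → Pt A B L, (∀ l, z l ≠ 0) → evr F (fun i => cmb (Q i) (G i) z) = 0 →
    MvPolynomial.aeval (fun l => X (z l)) g = 0

/-- The points `f m` tend to `a` at all places of `S`. -/
def Lim {ι : Type} (l : Filter ι) (f : ι → Fin n → Pt A B K) {S : Set (Pl K)}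
    (a : ∀ v : S, Fin n → Loc A B v.1) : Prop :=
  ∀ v i, ToO l fun m => loc v.1 (f m i) - a v i

/-- The family `a` is a limit of points of `T`. -/
def Apx (T : Set (Fin n → Pt A B K)) {S : Set (Pl K)} (a : ∀ v : S, Fin n → Loc A B v.1) : Prop :=
  ∃ U : Ultrafilter (Fin n → Pt A B K), T ∈ U ∧ Lim U id a

lemma Lim.apx {ι : Type} {U : Ultrafilter ι} {f : ι → Fin n → Pt A B K} {S : Set (Pl K)}
    {a : ∀ v : S, Fin n → Loc A B v.1} (h : Lim U f a) {T : Set (Fin n → Pt A B K)}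
    (hT : ∀ᶠ m in U, f m ∈ T) : Apx T a :=
  ⟨U.map f, hT, fun v i r => h v i r⟩

lemma Apx.range {ι : Type} {f : ι → Fin n → Pt A B K} {S : Set (Pl K)}
    {a : ∀ v : S, Fin n → Loc A B v.1} (h : Apx (Set.range f) a) :
    ∃ U : Ultrafilter ι, Lim U f a := by
  obtain ⟨U, h1, h2⟩ := h
  obtain ⟨_, m0, -⟩ := U.nonempty_of_mem h1
  have : Nonempty ι := ⟨m0⟩
  refine ⟨U.map (Function.invFun f), fun v i r => ?_⟩
  rw [Ultrafilter.coe_map, eventually_map]
  filter_upwards [h1, h2 v i r] with Q hQ h3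
  rwa [Function.invFun_eq hQ]

/-- The conclusion of the theorem for the set `C` of rational points. -/
def Con (I : Set (MvPolynomial (Fin n × Fin 3) K)) (S : Set (Pl K)) (C : Set (Fin n → Pt A B K)) :
    Prop :=
  ∃ T : Set ((Fin n → Pt A B K) × AddSubgroup (Fin n → Pt A B K)), T.Finite ∧
    (∀ t ∈ T, ∀ h ∈ t.2, t.1 + h ∈ C ∧ On I (t.1 + h)) ∧
    ∀ a : ∀ v : S, Fin n → Loc A B v.1, (∀ v, On I (a v)) → Apx C a →
      ∃ t ∈ T, Apx {Q | Q - t.1 ∈ t.2} a

end Glob

end Pool.Agent.P.MP_ab3ecb_nt.AM
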