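import Pool.Agent.P.MP_ab3ecb_nt.AM.Defs
import Pool.Agent.P.MP_ab3ecb_nt.TK.Base

/-! The formal group and limits of points. -/

set_option autoImplicit false
set_option linter.unusedSectionVars false

namespace Pool.Agent.P.MP_ab3ecb_nt.AM.Lb

open Filter Topology NumberField IsDedekindDomain Pool.Agent.P.MP_ab3ecb_nt.TK
open scoped Classical NNReal

def S_FG : Prop := ∀ {R : Type} [CommRing R] [Algebra.IsIntegral ℤ R] (A B : R)
  (L G : Type) [Field L] [Algebra R L] [DecidableEq L]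
  [LinearOrderedCommGroupWithZero G] (v : Valuation L G) (P Q : Pt A B L), E1 v P → E1 v Q →
    E1 v (P + Q) ∧ v (Z (P + Q) - Z P - Z Q) ≤ max (v (Z P)) (v (Z Q)) ^ 5

def S_CL : Prop := ∀ {R : Type} [CommRing R] [Algebra.IsIntegral ℤ R] (A B : R)
  (L G : Type) [Field L] [Algebra R L] [DecidableEq L]
  [LinearOrderedCommGroupWithZero G] (v : Valuation L G) (M : G) (P Q : Pt A B L), P ≠ 0 →
    1 ≤ M → v (X P) ≤ M → E1 v Q → v (Z Q) * M ≤ 1 → P + Q ≠ 0 ∧
      v (X (P + Q) - X P) ≤ v (Z Q) * M ^ 2 ∧ v (Y (P + Q) - Y P) ≤ v (Z Q) * M ^ 2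

def S_LA : Prop := ∀ {R : Type} [CommRing R] (A B : R)
  (L ι : Type) [NormedField L] [Algebra R L] [DecidableEq L] (l : Filter ι)
  (P : ι → Pt A B L) (Q : Pt A B L), ToA l P Q → ToO l fun i => P i - Q

def S_LB : Prop := ∀ {R : Type} [CommRing R] (A B : R)
  (L ι : Type) [NontriviallyNormedField L] [Algebra R L] [DecidableEq L]
  (l : Filter ι) (P Q : ι → Pt A B L) (T : Pt A B L), ToA l P T → ToO l Q →
    ToA l (fun i => P i + Q i) T

def S_CO : Prop := ∀ {R : Type} [CommRing R] (A B : R)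
  (L ι : Type) [NontriviallyNormedField L] [Algebra R L] [ProperSpace L]
  [DecidableEq L] (l : Filter ι) (P : ι → Pt A B L) (Q : Pt A B L),
    (Tendsto (fun i => co (P i)) l (𝓝 (co Q)) → (Q ≠ 0 → ToA l P Q) ∧ ToO l fun i => P i - Q) ∧
    ∀ Q', l.NeBot → (ToO l fun i => P i - Q) → (ToO l fun i => P i - Q') → Q = Q'

def S_TS : Prop := ∀ {R : Type} [CommRing R] [Algebra.IsIntegral ℤ R] (A B : R)
  (L ι : Type) [NormedField L] [Algebra R L] [IsUltrametricDist L] (l : Filter ι)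
  (P : ι → Pt A B L), ToO l P ↔
    ∀ c : ℝ≥0, 0 < c → ∀ᶠ i in l, Sm (NormedField.valuation (K := L)) c (P i)

namespace FGx

variable {L G : Type} [Field L] [LinearOrderedCommGroupWithZero G] {v : Valuation L G}

lemma alg {x1 x2 l n a b y1 y2 x3 y3 : L} (h1 : y1 = l * x1 + n) (h2 : y2 = l * x2 + n)
    (ha : a = l * (y1 + y2) - (x1 ^ 2 + x1 * x2 + x2 ^ 2)) (hb : b = y1 ^ 2 - x1 ^ 3 - a * x1)
    (h3 : x3 = l ^ 2 - x1 - x2) (h4 : y3 = l * x3 + n) :
    l * (y1 ^ 2 * y2 ^ 2 - a * x1 * y2 * (y1 + y2) - b * (y1 ^ 2 + y1 * y2 + y2 ^ 2)) +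
      n * (x1 ^ 2 * y2 ^ 2 + x1 * x2 * y1 * y2 + x2 ^ 2 * y1 ^ 2 + a * y1 ^ 2) = 0 ∧
    y1 * y2 * y3 = n ^ 3 + a * l ^ 2 * n - b * l ^ 3 ∧
    x1 * y2 * y3 + x2 * y1 * y3 + x3 * y1 * y2 = 2 * a * l * n - 3 * b * l ^ 2 := by
  subst h4 h3 hb ha h2 h1
  refine ⟨by ring, by ring, by ring⟩

lemma vm {x y : L} {s t : G} (h1 : v x ≤ s) (h2 : v y ≤ t) : v (x * y) ≤ s * t := by
  rw [map_mul]; exact mul_le_mul' h1 h2

lemma vp {x : L} {s : G} (h : v x ≤ s) (n : ℕ) : v (x ^ n) ≤ s ^ n := by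
  rw [map_pow]; exact pow_le_pow_left' h n

lemma vi {a x : L} {s : G} (ha : v a ≤ 1) (h : v x ≤ s) : v (a * x) ≤ s := by
  simpa using vm ha h

lemma core {a b z1 z2 w1 w2 l n : L} {c : G} (hc : c < 1) (ha : v a ≤ 1) (hb : v b ≤ 1)
    (hz1 : v z1 ≤ c) (hz2 : v z2 ≤ c) (hw1 : v w1 ≤ c ^ 3) (hw2 : v w2 ≤ c ^ 3)
    (h1 : l * z1 + n * w1 = 1)
    (h2 : l * (1 - (a * (z1 * (w1 + w2)) + b * (w2 ^ 2 + w1 * w2 + w1 ^ 2))) +
      n * (z1 ^ 2 + z1 * z2 + z2 ^ 2 + a * w2 ^ 2) = 0) :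
    n ≠ 0 ∧ v (l / n) ≤ c ^ 2 ∧ v (1 / n) ≤ c ^ 3 := by
  have h31 : c ^ 3 ≤ c := by simpa using pow_le_pow_right_of_le_one' hc.le (show 1 ≤ 3 by norm_num)
  have h21 : c ^ 2 ≤ c := by simpa using pow_le_pow_right_of_le_one' hc.le (show 1 ≤ 2 by norm_num)
  have k1 := hw1.trans h31
  have k2 := hw2.trans h31
  have hU : v (1 - (a * (z1 * (w1 + w2)) + b * (w2 ^ 2 + w1 * w2 + w1 ^ 2))) = 1 := by
    refine v.map_one_sub_of_lt (lt_of_le_of_lt (h21.trans' ?_) hc)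
    refine v.map_add_le (vi ha ?_) (vi hb (v.map_add_le (v.map_add_le (vp k2 2) ?_) (vp k1 2)))
    · rw [sq]; exact vm hz1 (v.map_add_le k1 k2)
    · rw [sq c]; exact vm k1 k2
  have hN : v (z1 ^ 2 + z1 * z2 + z2 ^ 2 + a * w2 ^ 2) ≤ c ^ 2 := by
    refine v.map_add_le (v.map_add_le (v.map_add_le (vp hz1 2) ?_) (vp hz2 2)) (vi ha (vp k2 2))
    rw [sq]; exact vm hz1 hz2
  have h3 := congrArg v (eq_neg_of_add_eq_zero_left h2)
  rw [map_mul, hU, mul_one, v.map_neg, map_mul] at h3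
  have hn : n ≠ 0 := by
    rintro rfl
    rw [map_zero, zero_mul, v.zero_iff] at h3
    simp [h3] at h1
  have hv : v n ≠ 0 := v.ne_zero_iff.2 hn
  have h4 : v (l / n) ≤ c ^ 2 := by
    rw [map_div₀, h3, mul_div_cancel_left₀ _ hv]; exact hN
  refine ⟨hn, h4, ?_⟩
  have e : 1 / n = l / n * z1 + w1 := by
    rw [← h1]; field_simp
  rw [e]
  exact v.map_add_le (by rw [pow_succ c 2]; exact vm h4 hz1) hw1

lemma fin {a b z1 z2 y1 y2 x3 y3 l n : L} {c : G} (hc : c < 1) (ha : v a ≤ 1) (hb : v b ≤ 1)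
    (hz1 : v z1 ≤ c) (hz2 : v z2 ≤ c) (hn : n ≠ 0) (h4 : v (l / n) ≤ c ^ 2)
    (h5 : v (1 / n) ≤ c ^ 3) (h3 : y3 = l * x3 + n)
    (e2 : y1 * y2 * y3 = n ^ 3 + a * l ^ 2 * n - b * l ^ 3)
    (e3 : z1 * y1 * y2 * y3 + z2 * y2 * y1 * y3 + x3 * y1 * y2 = 2 * a * l * n - 3 * b * l ^ 2) :
    1 < v y3 ∧ v (z1 + z2 + x3 / y3) ≤ c ^ 5 := by
  have h21 : c ^ 2 ≤ c := by simpa using pow_le_pow_right_of_le_one' hc.le (show 1 ≤ 2 by norm_num)
  have h51 : c ^ 5 ≤ c := by simpa using pow_le_pow_right_of_le_one' hc.le (show 1 ≤ 5 by norm_num)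
  have h31 : c ^ 3 ≤ c := by simpa using pow_le_pow_right_of_le_one' hc.le (show 1 ≤ 3 by norm_num)
  have k := h4.trans h21
  have hD : v (1 + (a * (l / n) ^ 2 - b * (l / n) ^ 3)) = 1 :=
    v.map_one_add_of_lt (lt_of_le_of_lt (v.map_sub_le (vi ha ((vp k 2).trans h21))
      (vi hb ((vp k 3).trans h31))) hc)
  have hD0 : 1 + (a * (l / n) ^ 2 - b * (l / n) ^ 3) ≠ 0 := fun h => by simp [h] at hD
  have e4 : y1 * y2 * y3 = n ^ 3 * (1 + (a * (l / n) ^ 2 - b * (l / n) ^ 3)) := by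
    rw [e2]; field_simp; ring
  have hy : y1 * y2 * y3 ≠ 0 := by rw [e4]; exact mul_ne_zero (pow_ne_zero _ hn) hD0
  have hy3 : y3 ≠ 0 := right_ne_zero_of_mul hy
  have e5 : (z1 + z2 + x3 / y3) * (1 + (a * (l / n) ^ 2 - b * (l / n) ^ 3)) =
      ((2 : ℤ) * (a * (l / n)) - (3 : ℤ) * (b * (l / n * (l / n)))) * (1 / n) := by
    have e6 : (z1 + z2 + x3 / y3) * (y1 * y2 * y3) = 2 * a * l * n - 3 * b * l ^ 2 := by
      rw [← e3]; field_simp
    rw [e4] at e6
    apply mul_left_cancel₀ (pow_ne_zero 3 hn)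
    rw [mul_left_comm, e6]
    push_cast
    field_simp
  have hS : v (z1 + z2 + x3 / y3) ≤ c ^ 5 := by
    have h6 := congrArg v e5
    rw [map_mul, hD, mul_one] at h6
    rw [h6, show c ^ 5 = c ^ 2 * c ^ 3 by rw [← pow_add]]
    exact vm (v.map_sub_le (vi (v_z v 2) (vi ha h4))
      (vi (v_z v 3) (vi hb (vi (k.trans hc.le) h4)))) h5
  refine ⟨?_, hS⟩
  have hz3 : v (x3 / y3) ≤ c := by
    rw [show x3 / y3 = (z1 + z2 + x3 / y3) - (z1 + z2) by ring]
    exact v.map_sub_le (hS.trans h51) (v.map_add_le hz1 hz2)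
  have e7 : 1 / y3 = 1 / n - l / n * (x3 / y3) := by
    field_simp
    rw [h3]; ring
  have h7 : v (1 / y3) < 1 := by
    rw [e7]
    exact lt_of_le_of_lt (v.map_sub_le (h5.trans h31) (vi (k.trans hc.le) hz3)) hc
  rw [map_div₀, map_one, one_div] at h7
  exact (inv_lt_one₀ (zero_lt_iff.2 (v.ne_zero_iff.2 hy3))).1 h7

lemma v_w {R : Type} [CommRing R] [Algebra.IsIntegral ℤ R] [Algebra R L] {A B : R}
    {P : Pt A B L} (h : 1 < v (X P)) : v (1 / Y P) = v (Z P) ^ 3 := by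
  have h0 : v (Y P) ≠ 0 := v.ne_zero_iff.2 (Y_ne h)
  rw [Z, map_div₀, map_div₀, div_pow, ← v_Y h, map_one]
  field_simp

end FGx

open FGx in
theorem p_FG :
    S_FG := by
  intro R _ _ A B L G _ _ _ _ v P Q hP hQ
  by_cases h0 : P = 0
  · subst h0; simpa using hQ
  by_cases h1 : Q = 0
  · subst h1; simpa using hP
  by_cases h2 : P + Q = 0
  · have : Q = -P := eq_neg_of_add_eq_zero_right h2
    rw [h2]
    refine ⟨.inl rfl, ?_⟩
    simp [this]
  have hc : max (v (Z P)) (v (Z Q)) < 1 := max_lt hP.Z_lt hQ.Z_lt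
  have hx := hP.resolve_left h0
  have hx' := hQ.resolve_left h1
  have hy := Y_ne hx
  have hy' := Y_ne hx'
  obtain ⟨l, a1, a2, a3, a4⟩ := add_spec h0 h1 h2
  have b1 : Y P = l * X P + (Y P - l * X P) := by ring
  have b3 : -Y (P + Q) = l * X (P + Q) + (Y P - l * X P) := by rw [a2]; ring
  obtain ⟨e1, e2, e3⟩ := alg (a := (A : L)) (b := (B : L)) (x2 := X Q) (y2 := Y Q) b1
    (by linear_combination a3) (by linear_combination -a4) (by linear_combination -eqn h0) a1 b3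
  generalize Y P - l * X P = n at *
  have hz1 := le_max_left (v (Z P)) (v (Z Q))
  have hz2 := le_max_right (v (Z P)) (v (Z Q))
  obtain ⟨hn, h4, h5⟩ := core (l := l) (n := n) hc (v_int v A) (v_int v B) hz1 hz2
    ((v_w hx).le.trans (pow_le_pow_left' hz1 3)) ((v_w hx').le.trans (pow_le_pow_left' hz2 3))
    (by rw [Z]; field_simp; linear_combination -b1) (by
      simp only [Z]; field_simp; linear_combination e1)
  obtain ⟨h6, h7⟩ := fin (y1 := Y P) (y2 := Y Q) hc (v_int v A) (v_int v B) hz1 hz2 hn h4 h5 b3 e2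
    (by rw [← e3, Z, Z, div_mul_cancel₀ _ hy, div_mul_cancel₀ _ hy'])
  refine ⟨.inr (not_le.1 fun h8 => ?_), ?_⟩
  · have h9 := v_Y_le le_rfl h8
    rw [v.map_neg] at h6
    rw [one_pow] at h9
    exact (one_lt_pow₀ h6 two_ne_zero).not_ge h9
  · rw [← v.map_neg]
    convert h7 using 2
    rw [div_neg, Z]
    ring

theorem p_CL :
    S_CL := by
  intro R _ _ A B L G _ _ _ _ v M P Q P0 M1 hx hQ hc
  rcases hQ with rfl | hQ
  · simp [P0]
  have Q0 : Q ≠ 0 := fun h => by simp [h] at hQ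
  obtain ⟨c, ec⟩ : ∃ c, c = v (Z Q) := ⟨_, rfl⟩
  have c1 : c < 1 := ec ▸ E1.Z_lt (.inr hQ)
  have e1 : c ^ 2 * v (X Q) = 1 := ec ▸ v_Z hQ
  rw [← ec] at hc ⊢
  have c0 : 0 < c := zero_lt_iff.2 fun h => by simp [h] at e1
  have l1 : v (X P) < v (X Q) := by
    refine hx.trans_lt (lt_of_mul_lt_mul_left ?_ (pow_pos c0 2).le)
    rw [e1, sq, mul_assoc]
    exact (mul_le_of_le_one_right' hc).trans_lt c1
  have d1 : v (X Q - X P) = v (X Q) := v.map_sub_eq_of_lt_left l1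
  have S0 : P + Q ≠ 0 := fun h => by
    rw [eq_neg_of_add_eq_zero_left h, X_neg] at l1
    exact l1.false
  have e2 : c ^ 3 * v (Y Q) = 1 := by
    refine (pow_eq_one_iff_of_nonneg zero_le two_ne_zero).1 ?_
    rw [mul_pow, v_Y hQ, ← pow_mul, mul_comm 3 2, pow_mul, ← mul_pow, e1, one_pow]
  have y1 : v (Y P) ≤ M ^ 2 := by
    refine (pow_le_pow_iff_left₀ zero_le zero_le two_ne_zero).1 ((v_Y_le M1 hx).trans ?_)
    rw [← pow_mul]
    exact pow_le_pow_right₀ M1 (by norm_num)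
  obtain ⟨l, a1, a2, a3, a4⟩ := add_spec P0 Q0 S0
  have red : ∀ {s t : L}, s * (X Q - X P) = t → v s = c ^ 2 * v t := fun {s t} h => by
    rw [← h, map_mul, d1, mul_left_comm, e1, mul_one]
  have l2 : c * v l ≤ 1 := by
    rw [red (t := Y Q - Y P) (by linear_combination -a3), ← mul_assoc, ← pow_succ']
    refine (mul_le_mul_right (v.map_sub _ _) _).trans ?_
    rw [mul_max, e2]
    refine max_le le_rfl ((mul_le_mul_right y1 _).trans ?_)
    rw [pow_succ', mul_assoc, ← mul_pow]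
    exact mul_le_one' c1.le (pow_le_one' hc 2)
  have n2 : v 2 ≤ 1 := by simpa using v_z v 2
  have n3 : v 3 ≤ 1 := by simpa using v_z v 3
  have M2 : 1 ≤ M ^ 2 := one_le_pow₀ M1
  have ph : v (3 * X P ^ 2 + A) ≤ M ^ 2 := by
    refine v.map_add_le ?_ ((v_int v A).trans M2)
    rw [map_mul, map_pow]
    exact (mul_le_of_le_one_left' n3).trans (pow_le_pow_left' hx 2)
  have fin : ∀ {s t : L}, c * v s ≤ M ^ 2 → c * v t ≤ M ^ 2 → c ^ 2 * v (s - t) ≤ c * M ^ 2 :=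
    fun {s t} h1 h2 => by
      rw [sq, mul_assoc]
      refine mul_le_mul_right ((mul_le_mul_right (v.map_sub _ _) _).trans ?_) _
      rw [mul_max]
      exact max_le h1 h2
  have y2 : ∀ t : L, c * v t ≤ 1 → c * v (2 * Y P * t) ≤ M ^ 2 := fun t h => by
    rw [map_mul, map_mul, mul_left_comm]
    exact (mul_le_of_le_one_right' h).trans ((mul_le_of_le_one_left' n2).trans y1)
  have r1 : v (X (P + Q) - X P) ≤ c * M ^ 2 := by
    rw [red (t := 3 * X P ^ 2 + A - 2 * Y P * l)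
      (by rw [a1]; linear_combination -l * a3 + a4)]
    exact fin ((mul_le_of_le_one_left' c1.le).trans ph) (y2 l l2)
  refine ⟨S0, r1, ?_⟩
  have r2 : v (X (P + Q) + 2 * X P) ≤ M := by
    rw [show X (P + Q) + 2 * X P = X (P + Q) - X P + 3 * X P by ring]
    refine v.map_add_le (r1.trans ?_) ?_
    · rw [sq, ← mul_assoc]
      exact mul_le_of_le_one_left' hc
    · rw [map_mul]
      exact (mul_le_of_le_one_left' n3).trans hx
  rw [red (t := 2 * Y P * (X (P + Q) + 2 * X P) - l * (3 * X P ^ 2 + A))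
    (by rw [a2, a1]; linear_combination l ^ 2 * a3 - l * a4)]
  refine fin (y2 _ ((mul_le_mul_right r2 _).trans hc)) ?_
  rw [map_mul, ← mul_assoc]
  exact (mul_le_of_le_one_left' l2).trans ph


namespace LAx

lemma big {L ι : Type} [NormedField L] {l : Filter ι} {a b : ι → L} {b0 : L} (hb : b0 ≠ 0)
    (ha : Tendsto a l (𝓝 0)) (h : Tendsto b l (𝓝 b0)) (R : ℝ) :
    ∀ᶠ i in l, ∀ s : L, s * a i = b i → R ≤ ‖s‖ := by
  have h1 : Tendsto (fun i => R * ‖a i‖) l (𝓝 (R * ‖(0 : L)‖)) := ha.norm.const_mul R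
  rw [norm_zero, mul_zero] at h1
  filter_upwards [h1.eventually_lt h.norm (norm_pos_iff.2 hb)] with i hi s hs
  rw [← hs, norm_mul] at hi
  by_contra h2
  exact hi.not_ge (mul_le_mul_of_nonneg_right (not_le.1 h2).le (norm_nonneg _))

end LAx

theorem p_LA :
    S_LA := by
  intro R _ A B L ι _ _ _ l P Q ⟨hQ, hP, hx, hy⟩ r
  set R₀ : ℝ := |r| + 2 * ‖X Q‖ + 2 with hR
  have hx0 : Tendsto (fun i => X (P i) - X Q) l (𝓝 0) := tendsto_sub_nhds_zero_iff.2 hx
  have hy0 : Tendsto (fun i => Y (P i) - Y Q) l (𝓝 0) := tendsto_sub_nhds_zero_iff.2 hy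
  have key : ∀ᶠ i in l, ∀ s : L, s * (X (P i) - X Q) = Y (P i) + Y Q →
      s * (Y (P i) - Y Q) = X (P i) ^ 2 + X (P i) * X Q + X Q ^ 2 + A → R₀ ≤ ‖s‖ := by
    rcases nsing hQ with h | h
    · have h1 : Tendsto (fun i => X (P i) ^ 2 + X (P i) * X Q + X Q ^ 2 + A) l
          (𝓝 (X Q ^ 2 + X Q * X Q + X Q ^ 2 + A)) :=
        (((hx.pow 2).add (hx.mul_const _)).add_const _).add_const _
      refine (LAx.big (fun h2 => h ?_) hy0 h1 R₀).mono fun i hi s _ hs => hi s hs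
      linear_combination h2
    · refine (LAx.big (fun h2 => h ?_) hx0 (hy.add_const (Y Q)) R₀).mono fun i hi s hs _ => hi s hs
      linear_combination h2
  have hn : ∀ᶠ i in l, ‖X (P i)‖ < ‖X Q‖ + 1 :=
    hx.norm.eventually_lt_const (lt_add_one _)
  filter_upwards [hP, key, hn] with i h0 hk hi
  refine or_iff_not_imp_left.2 fun h1 => ?_
  rw [sub_eq_add_neg] at h1 ⊢
  obtain ⟨s, e1, -, e2, e3⟩ := add_spec h0 (neg_ne_zero.2 hQ) h1
  rw [X_neg] at e1 e2 e3
  rw [Y_neg] at e2 e3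
  have h2 := hk s (by rw [e2, sub_neg_eq_add]) (by rw [← e3, sub_eq_add_neg])
  have h3 : ‖s‖ ^ 2 ≤ ‖X (P i + -Q)‖ + ‖X (P i)‖ + ‖X Q‖ := by
    rw [← norm_pow, show s ^ 2 = X (P i + -Q) + X (P i) + X Q by rw [e1]; ring]
    exact norm_add₃_le
  have h4 := le_abs_self r
  have h5 := abs_nonneg r
  have h6 := norm_nonneg (X Q)
  nlinarith

namespace LBx

variable {R : Type} [CommRing R] {A B : R}

theorem ksq {L : Type} [Field L] [Algebra R L] {Q : Pt A B L} (hQ : Q = 0 ∨ X Q ≠ 0) :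
    (Y Q * (X Q)⁻¹ ^ 2) ^ 2 = (X Q)⁻¹ * (1 + A * (X Q)⁻¹ ^ 2 + B * (X Q)⁻¹ ^ 3) := by
  by_cases h0 : Q = 0
  · simp [h0]
  · have h1 := hQ.resolve_left h0
    rw [mul_pow, eqn h0]
    field_simp

theorem form {L : Type} [Field L] [Algebra R L] [DecidableEq L] {P Q : Pt A B L} (hP : P ≠ 0)
    (hQ : Q = 0 ∨ X Q ≠ 0) {u k s : L} (hu : u = (X Q)⁻¹) (hk : k = Y Q * u ^ 2)
    (hs : s = 1 - X P * u) (h0 : s ≠ 0) :
    P + Q ≠ 0 ∧
    X (P + Q) = X P + ((3 * X P ^ 2 + A) * u * s - 2 * Y P * (k - Y P * u ^ 2)) / s ^ 2 ∧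
    Y (P + Q) = -Y P - (3 * X P ^ 2 + A) * (k - Y P * u ^ 2) / s ^ 2 +
      2 * Y P * (1 + A * u ^ 2 + B * u ^ 3 - 2 * Y P * k * u + Y P ^ 2 * u ^ 3) / s ^ 3 := by
  by_cases hz : Q = 0
  · subst hz
    have e1 : u = 0 := by simpa using hu
    have e2 : k = 0 := by simpa using hk
    have e3 : s = 1 := by simpa [e1] using hs
    rw [add_zero, e1, e2, e3]
    refine ⟨hP, by simp, ?_⟩
    simp
    ring
  have h1 := hQ.resolve_left hz
  have h2 : X Q * u = 1 := by rw [hu, mul_inv_cancel₀ h1]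
  have h3 : P + Q ≠ 0 := fun h => by
    have : X P = X Q := by rw [eq_neg_of_add_eq_zero_left h, X_neg]
    exact h0 (by rw [hs, this, h2, sub_self])
  obtain ⟨l, a, b, c, d⟩ := add_spec hP hz h3
  have e := ksq (Or.inr h1 : Q = 0 ∨ X Q ≠ 0)
  rw [← hu, ← hk] at e
  have hu0 : u ≠ 0 := right_ne_zero_of_mul_eq_one h2
  have f1 : l * u * s = k - Y P * u ^ 2 := by
    rw [hs, hk]
    linear_combination (-u ^ 2) * c - l * u * h2
  have f2 : (X (P + Q) - X P) * s = (3 * X P ^ 2 + A - 2 * l * Y P) * u := by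
    rw [a, hs]
    linear_combination (-l * u) * c + u * d - (l ^ 2 - 2 * X P - X Q) * h2
  have f3 : l ^ 2 * u * s ^ 2 =
      1 + A * u ^ 2 + B * u ^ 3 - 2 * Y P * k * u + Y P ^ 2 * u ^ 3 := by
    refine mul_left_cancel₀ hu0 ?_
    linear_combination (l * u * s + k - Y P * u ^ 2) * f1 + e
  refine ⟨h3, ?_, ?_⟩
  · rw [← f1]
    field_simp
    linear_combination f2
  · rw [b, ← f1, ← f3]
    field_simp
    linear_combination (-l) * f2

end LBx

theorem p_LB :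
    S_LB := by
  intro R _ A B L ι _ _ _ l P Q R ⟨hR, hP, hx, hy⟩ hQ
  have hQ1 : ∀ᶠ i in l, Q i = 0 ∨ X (Q i) ≠ 0 := (hQ 1).mono fun i hi =>
    hi.imp_right fun h => norm_pos_iff.1 (zero_lt_one.trans_le h)
  have hu : Tendsto (fun i => (X (Q i))⁻¹) l (𝓝 0) := by
    rw [NormedAddGroup.tendsto_nhds_zero]
    intro ε hε
    filter_upwards [hQ (2 / ε)] with i hi
    rcases hi with h | h
    · simpa [h] using hε
    · rw [norm_inv]
      refine (inv_anti₀ (by positivity) h).trans_lt ?_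
      rw [inv_div]
      linarith
  have hk : Tendsto (fun i => Y (Q i) * (X (Q i))⁻¹ ^ 2) l (𝓝 0) := by
    have h1 : Tendsto (fun i => (Y (Q i) * (X (Q i))⁻¹ ^ 2) ^ 2) l (𝓝 0) := by
      have := hu.mul (((hu.pow 2).const_mul (A : L)).const_add 1 |>.add
        ((hu.pow 3).const_mul (B : L)))
      rw [zero_mul] at this
      exact this.congr' (hQ1.mono fun i hi => (LBx.ksq hi).symm)
    have h2 := h1.norm.sqrt
    rw [norm_zero, Real.sqrt_zero] at h2
    rw [tendsto_zero_iff_norm_tendsto_zero]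
    exact h2.congr fun i => by rw [norm_pow, Real.sqrt_sq (norm_nonneg _)]
  have hs : Tendsto (fun i => 1 - X (P i) * (X (Q i))⁻¹) l (𝓝 1) := by
    simpa using (hx.mul hu).const_sub 1
  have hf := (hP.and (hQ1.and (hs.eventually_ne one_ne_zero))).mono fun i hi =>
    LBx.form hi.1 hi.2.1 rfl rfl rfl hi.2.2
  have hφ := ((hx.pow 2).const_mul 3).add_const (A : L)
  have hw := hk.sub (hy.mul (hu.pow 2))
  refine ⟨hR, hf.mono fun i hi => hi.1, ?_, ?_⟩
  · refine Tendsto.congr' (hf.mono fun i hi => hi.2.1.symm) ?_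
    have := hx.add ((((hφ.mul hu).mul hs).sub ((hy.const_mul 2).mul hw)).div (hs.pow 2)
      (by simp))
    simpa using this
  · refine Tendsto.congr' (hf.mono fun i hi => hi.2.2.symm) ?_
    have := (hy.neg.sub ((hφ.mul hw).div (hs.pow 2) (by simp))).add
      (((hy.const_mul 2).mul ((((((hu.pow 2).const_mul (A : L)).const_add 1).add
        ((hu.pow 3).const_mul (B : L))).sub (((hy.const_mul 2).mul hk).mul hu)).add
          ((hy.pow 2).mul (hu.pow 3)))).div (hs.pow 3) (by simp))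
    convert this using 2
    simp
    ring

namespace COx

variable {R : Type} [CommRing R] {A B : R} {L : Type} [Field L] [Algebra R L]

theorem co_ne {P : Pt A B L} (h : P ≠ 0) :
    co P = (((X P : L) : OnePoint L), ((Y P : L) : OnePoint L)) := by
  rcases P with _ | ⟨x, y, h'⟩
  · exact absurd rfl h
  · rfl

theorem co_zero : co (0 : Pt A B L) = (OnePoint.infty, OnePoint.infty) := rfl

end COx

theorem p_CO (hLA : S_LA) (hLB : S_LB) :
    S_CO := by
  intro R _ A B L ι _ _ _ _ l P Q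
  refine ⟨fun h => ?_, fun Q' hl h h' => ?_⟩
  · have h1 : Tendsto (fun i => (co (P i)).1) l (𝓝 (co Q).1) := (continuous_fst.tendsto _).comp h
    have h2 : Tendsto (fun i => (co (P i)).2) l (𝓝 (co Q).2) := (continuous_snd.tendsto _).comp h
    have hA : Q ≠ 0 → ToA l P Q := fun hQ => by
      rw [COx.co_ne hQ] at h1 h2
      have h3 : ∀ᶠ i in l, P i ≠ 0 := by
        filter_upwards [h1.eventually (OnePoint.isOpen_range_coe.mem_nhds ⟨X Q, rfl⟩)] with i hi h0
        rw [h0, COx.co_zero] at hi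
        exact OnePoint.infty_notMem_range_coe hi
      refine ⟨hQ, h3, ?_, ?_⟩
      · rw [OnePoint.isOpenEmbedding_coe.isInducing.tendsto_nhds_iff]
        exact h1.congr' (h3.mono fun i hi => by simp only [COx.co_ne hi, Function.comp])
      · rw [OnePoint.isOpenEmbedding_coe.isInducing.tendsto_nhds_iff]
        exact h2.congr' (h3.mono fun i hi => by simp only [COx.co_ne hi, Function.comp])
    refine ⟨hA, ?_⟩
    by_cases hQ : Q = 0
    · intro r
      rw [hQ, COx.co_zero] at h1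
      have h4 := (OnePoint.isOpen_compl_image_coe.2
        ⟨Metric.isClosed_closedBall, isCompact_closedBall (0 : L) r⟩).mem_nhds
          OnePoint.infty_notMem_image_coe
      filter_upwards [h1.eventually h4] with i hi
      rw [hQ, sub_zero]
      refine (em (P i = 0)).imp_right fun h0 => ?_
      rw [COx.co_ne h0] at hi
      by_contra h5
      exact hi ⟨X (P i), mem_closedBall_zero_iff.2 (not_le.1 h5).le, rfl⟩
    · exact hLA A B L ι l P Q (hA hQ)
  · by_contra hne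
    have hD : Q - Q' ≠ 0 := sub_ne_zero.2 hne
    obtain ⟨-, h1, h2, -⟩ := hLB A B L ι l _ _ _ (toA_const l hD) h
    have h3 := h2.norm.eventually (gt_mem_nhds (lt_add_one ‖X (Q - Q')‖))
    obtain ⟨i, h4, h5, h6⟩ := (h1.and (h3.and (h' (‖X (Q - Q')‖ + 1)))).exists
    have e : Q - Q' + (P i - Q) = P i - Q' := by abel
    simp only [e] at h4 h5
    exact h6.elim h4 fun h7 => absurd h5 (not_lt.2 h7)

theorem p_TS :
    S_TS := by
  intro R _ _ A B L ι _ _ _ l P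
  have hv : ∀ x : L, ((NormedField.valuation (K := L) x : ℝ≥0) : ℝ) = ‖x‖ := fun x => rfl
  constructor
  · intro h c hc
    refine (h (max 2 ((c : ℝ)⁻¹ ^ 2))).mono fun i hi => ?_
    rcases hi with hi | hi
    · rw [hi]; exact sm_zero c
    have h1 : 1 < NormedField.valuation (K := L) (X (P i)) := by
      rw [← NNReal.coe_lt_coe, hv]
      exact lt_of_lt_of_le (by norm_num) ((le_max_left _ _).trans hi)
    refine ⟨.inr h1, ?_⟩
    have h2 := congrArg (fun x : ℝ≥0 => (x : ℝ)) (v_Z h1)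
    simp only [NNReal.coe_mul, NNReal.coe_pow, hv, NNReal.coe_one] at h2
    rw [← NNReal.coe_le_coe, hv]
    have h3 := (le_max_right _ _).trans hi
    have hc' : (0 : ℝ) < c := hc
    by_contra h4
    push Not at h4
    have h5 : 1 < ‖Z (P i)‖ * (c : ℝ)⁻¹ := by
      rw [← div_eq_mul_inv, one_lt_div hc']; exact h4
    have h6 : ‖Z (P i)‖ ^ 2 * (c : ℝ)⁻¹ ^ 2 ≤ 1 := by
      rw [← h2]; exact mul_le_mul_of_nonneg_left h3 (sq_nonneg _)
    rw [← mul_pow] at h6
    nlinarith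
  · intro h r
    have hp : (0 : ℝ) < |r| + 1 := by positivity
    obtain ⟨c, hc⟩ : ∃ c : ℝ≥0, (c : ℝ) = (|r| + 1)⁻¹ := ⟨.mk _ (by positivity), rfl⟩
    refine (h c (by
      rw [← NNReal.coe_lt_coe, hc]; exact inv_pos.2 hp)).mono fun i hi => ?_
    rcases hi with ⟨h0 | h1, h2⟩
    · exact .inl h0
    right
    have h3 := congrArg (fun x : ℝ≥0 => (x : ℝ)) (v_Z h1)
    simp only [NNReal.coe_mul, NNReal.coe_pow, hv, NNReal.coe_one] at h3
    rw [← NNReal.coe_le_coe, hv, hc, ← one_div, le_div_iff₀ hp] at h2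
    have h4 : ‖Z (P i)‖ * (|r| + 1) ≤ 1 := h2
    have h5 : (‖Z (P i)‖ * (|r| + 1)) ^ 2 ≤ 1 := pow_le_one₀ (by positivity) h4
    have h6 : (|r| + 1) ^ 2 ≤ ‖X (P i)‖ := by
      have h7 := mul_le_mul_of_nonneg_right h5 (norm_nonneg (X (P i)))
      calc (|r| + 1) ^ 2 = (|r| + 1) ^ 2 * (‖Z (P i)‖ ^ 2 * ‖X (P i)‖) := by rw [h3, mul_one]
        _ = (‖Z (P i)‖ * (|r| + 1)) ^ 2 * ‖X (P i)‖ := by ring
        _ ≤ ‖X (P i)‖ := by rwa [one_mul] at h7
    nlinarith [le_abs_self r, abs_nonneg r]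

namespace PROPx

/-- the integers of the completion -/
noncomputable abbrev Ov {K : Type} [Field K] [NumberField K] (v : HeightOneSpectrum (𝓞 K)) :=
  v.adicCompletionIntegers K

theorem prop_apx {K : Type} [Field K] [NumberField K] (v : HeightOneSpectrum (𝓞 K)) (x : Ov v) :
    ∃ a : 𝓞 K, Valued.v ((x - algebraMap (𝓞 K) (Ov v) a : Ov v) : v.adicCompletion K) < 1 := by
  obtain ⟨d, hd⟩ := (v.denseRange_algebraMap K).exists_dist_lt (x : v.adicCompletion K) one_pos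
  rw [dist_eq_norm, Valued.toNormedField.norm_lt_one_iff] at hd
  have h1 : Valued.v (algebraMap K (v.adicCompletion K) d) ≤ 1 := by
    rw [← sub_sub_cancel (x : v.adicCompletion K) (algebraMap K (v.adicCompletion K) d)]
    exact Valuation.map_sub_le _ x.2 hd.le
  have e : ∀ y : K, Valued.v (algebraMap K (v.adicCompletion K) y) = v.valuation K y :=
    v.valuedAdicCompletion_eq_valuation'
  obtain ⟨a, ha⟩ := v.exists_valuation_sub_lt_of_integer (e d ▸ h1) 1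
  refine ⟨a, ?_⟩
  rw [← e, map_sub] at ha
  have : ((x - algebraMap (𝓞 K) (Ov v) a : Ov v) : v.adicCompletion K) = (x - algebraMap K (v.adicCompletion K) d) -
      (algebraMap K (v.adicCompletion K) (algebraMap (𝓞 K) K a) - algebraMap K (v.adicCompletion K) d) := by
    rw [sub_sub_sub_cancel_right]
    rfl
  rw [this]
  exact Valuation.map_sub_lt _ hd ha

theorem prop_fin {K : Type} [Field K] [NumberField K] (v : HeightOneSpectrum (𝓞 K)) :
    Finite (IsLocalRing.ResidueField (Ov v)) := by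
  have ev : ∀ a : 𝓞 K, Valued.v ((algebraMap (𝓞 K) (Ov v) a : Ov v) : v.adicCompletion K) = v.intValuation a :=
    fun a => (v.valuedAdicCompletion_eq_valuation' _).trans (v.valuation_of_algebraMap a)
  have hm : ∀ z : Ov v, z ∈ IsLocalRing.maximalIdeal (Ov v) ↔ Valued.v (z : v.adicCompletion K) < 1 := fun z => by
    rw [IsLocalRing.mem_maximalIdeal, mem_nonunits_iff,
      HeightOneSpectrum.adicCompletionIntegers.isUnit_iff_valued_eq_one]
    exact ⟨fun h => lt_of_le_of_ne z.2 h, fun h => h.ne⟩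
  let ρ : 𝓞 K →+* IsLocalRing.ResidueField (Ov v) :=
    (IsLocalRing.residue (Ov v)).comp (algebraMap (𝓞 K) (Ov v))
  have hρ : Function.Surjective ρ := fun y => by
    obtain ⟨x, rfl⟩ := IsLocalRing.residue_surjective y
    obtain ⟨a, ha⟩ := prop_apx v x
    refine ⟨a, (sub_eq_zero.1 ?_).symm⟩
    rw [RingHom.comp_apply, ← map_sub, IsLocalRing.residue_eq_zero_iff, hm]
    exact ha
  have kρ : RingHom.ker ρ = v.asIdeal := by
    ext a
    rw [RingHom.mem_ker, RingHom.comp_apply, IsLocalRing.residue_eq_zero_iff, hm, ev,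
      v.intValuation_lt_one_iff_mem]
  have h1 : Finite (𝓞 K ⧸ RingHom.ker ρ) :=
    kρ ▸ v.asIdeal.finiteQuotientOfFreeOfNeBot v.ne_bot
  exact Finite.of_equiv _ (RingHom.quotientKerEquivOfSurjective hρ).toEquiv

end PROPx

theorem p_PROP {K : Type} [Field K] [NumberField K] (v : HeightOneSpectrum (𝓞 K)) :
    ProperSpace (v.adicCompletion K) :=
  (Valued.integer.properSpace_iff_completeSpace_and_isDiscreteValuationRing_integer_and_finite_residueField
    (K := v.adicCompletion K)).2 ⟨inferInstance,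
      inferInstanceAs (IsDiscreteValuationRing (PROPx.Ov v)), PROPx.prop_fin v⟩

end Pool.Agent.P.MP_ab3ecb_nt.AM.Lb
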