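import Pool.Agent.P.MP_ab3ecb_nt.TK.Defs

/-!
Closed subvarieties of a power of the curve `y ^ 2 = x ^ 3 + A x + B`, and closures of sets of
rational points in the product of the points over the completions.
-/

namespace Pool.Agent.P.MP_ab3ecb_nt.AM

open NumberField IsDedekindDomain Pool.Agent.P.MP_ab3ecb_nt.TK

/-- The projective coordinates of a point. -/
def rep {R : Type} [CommRing R] {A B : R} {L : Type} [Field L] [Algebra R L] :
    Pt A B L → Fin 3 → L
  | .zero => ![0, 1, 0]
  | .some x y _ => ![x, y, 1]

variable {K : Type} [Field K] {A B : 𝓞 K} {n : ℕ}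

/-- All polynomials of `I` vanish at the projective coordinates of the points `a 1, …, a n`. -/
def On (I : Set (MvPolynomial (Fin n × Fin 3) K)) {L : Type} [Field L] [Algebra K L]
    (a : Fin n → Pt A B L) : Prop :=
  ∀ F ∈ I, MvPolynomial.aeval (fun s => rep (a s.1) s.2) F = 0

variable [NumberField K]

/-- The family `a` lies in the closure of the diagonal image of the set `T` of rational points. -/
def InCl (T : Set (Fin n → Pt A B K)) {S : Set (HeightOneSpectrum (𝓞 K))}
    (a : ∀ v : S, Fin n → Loc A B v.1) : Prop :=
  (fun v i => co (a v i)) ∈ closure ((fun Q (v : S) i => co (loc v.1 (Q i))) '' T)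

end Pool.Agent.P.MP_ab3ecb_nt.AM
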