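import Pool.Agent.P.MP_ab3ecb_nt.AM.Base

/-! The statements of the steps. -/

set_option autoImplicit false

namespace Pool.Agent.P.MP_ab3ecb_nt.AM

open Filter Topology NumberField IsDedekindDomain Finset Real Pool.Agent.P.MP_ab3ecb_nt.TK
open scoped Classical NNReal

/-! ### Places and polynomials -/

-- deps:
def S_PLC : Prop := ∀ (K : Type) [Field K] [NumberField K], Nonempty (Plc K)

-- deps:
def S_INF : Prop := ∀ (K : Type) [Field K] [NumberField K], Infinite (Pl K)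

-- deps:
def S_TAU : Prop := ∀ (K : Type) [Field K] [NumberField K] (W : Plc K) (n : ℤ), n ≠ 0 →
  Bd (fun i => log⁺ (W.ab i (n : Om K)⁻¹)) (W.d * log |(n : ℝ)|)

-- deps:
def S_EVB : Prop := ∀ (K : Type) [Field K] [NumberField K] (W : Plc K) (σ : Type) [Fintype σ]
  (p : MvPolynomial σ (𝓞 K)), ∃ c : ℝ, 1 ≤ c ∧ ∀ (i : W.ι) (x : σ → Om K),
    W.ab i (MvPolynomial.aeval x p) ≤ c ^ W.th i * (∏ l, max 1 (W.ab i (x l))) ^ p.totalDegree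

-- deps:
def S_PD : Prop := ∀ (R : Type) [CommRing R] [IsDomain R] [CharZero R] (k : ℕ)
  (f : MvPolynomial (Fin k) R),
    (∀ l, (MvPolynomial.pderiv l f).totalDegree ≤ f.totalDegree) ∧
    (∀ l, MvPolynomial.pderiv l f ≠ 0 → (MvPolynomial.pderiv l f).totalDegree < f.totalDegree) ∧
    ((∀ l, MvPolynomial.pderiv l f = 0) → ∃ c, f = MvPolynomial.C c) ∧
    ∀ (A B : R) (l : Fin k), (dl A B f l).totalDegree ≤ f.totalDegree + 3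

-- deps:
def S_LIP : Prop := ∀ {R : Type} [CommRing R] [Algebra.IsIntegral ℤ R] (L : Type) [Field L]
  [Algebra R L] (w : Valuation L ℝ≥0) (k : ℕ) (f : MvPolynomial (Fin k) R) (D : ℕ) (Λ δ : ℝ≥0)
  (x x' : Fin k → L), f.totalDegree ≤ D → 1 ≤ Λ → (∀ l, w (x l) ≤ Λ) → (∀ l, w (x' l) ≤ Λ) →
  (∀ l, w (x' l - x l) ≤ δ) →
    w (MvPolynomial.aeval x f) ≤ Λ ^ D ∧
    w (MvPolynomial.aeval x' f - MvPolynomial.aeval x f) ≤ δ * Λ ^ D ∧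
    w (MvPolynomial.aeval x' f - MvPolynomial.aeval x f -
      ∑ l, MvPolynomial.aeval x (MvPolynomial.pderiv l f) * (x' l - x l)) ≤ δ ^ 2 * Λ ^ D

-- deps:
def S_GAL : Prop := ∀ (K : Type) [Field K] [NumberField K] (α σ : Type) (J : Finset α)
  (x : α → σ → Om K) (φ : (σ → Om K) → Om K), Gal J x →
  (∀ (τ : Om K ≃ₐ[K] Om K) (y : σ → Om K), φ (fun l => τ (y l)) = τ (φ y)) →
    ∃ z : K, z ≠ 0 ∧ algebraMap K (Om K) z = ∏ a ∈ J.filter (fun a => φ (x a) ≠ 0), φ (x a)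

-- deps: EVB GAL
def S_LIO : Prop := ∀ (K : Type) [Field K] [NumberField K] (W : Plc K) (σ : Type) [Fintype σ]
  (p : MvPolynomial σ (𝓞 K)), ∃ c : ℝ, 0 ≤ c ∧ ∀ (α : Type) (J : Finset α) (x : α → σ → Om K)
    (H : ℝ) (s : Finset W.ι) (η : W.ι → ℝ), Gal J x → Bd (W.lam J x) H → (#J : ℝ) ≤ H →
    (∀ i ∈ s, ∃ a ∈ J, MvPolynomial.aeval (x a) p ≠ 0 ∧
      W.ab i (MvPolynomial.aeval (x a) p) ≤ exp (-η i)) → ∑ i ∈ s, η i ≤ c * H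

-- deps: PD LIO
def S_IND : Prop := ∀ (K : Type) [Field K] [NumberField K] (W : Plc K) (A B : 𝓞 K) (k : ℕ)
  (f : MvPolynomial (Fin k) (𝓞 K)) (E0 : ℕ), f ≠ 0 → ∃ E : ℝ, 0 ≤ E ∧
  ∀ (α : Type) (J : Finset α) (x : α → Fin k → Om K) (H : ℝ) (s : Finset W.ι) (ζ ρ : W.ι → ℝ)
    (sel : W.ι → Fin (k + 1) → α), Gal J x → (∀ a ∈ J, ∀ l, x a l ^ 3 + A * x a l + B ≠ 0) →
    Bd (W.lam J x) H → (#J : ℝ) ≤ H → (∀ i, 1 ≤ ρ i) → Bd (fun i => log (ρ i)) H →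
    (∀ i ∈ s, 0 < ζ i ∧ (∀ j, sel i j ∈ J) ∧ PB A B (W.ab i) (ζ i) (ρ i) (fun j => x (sel i j)) ∧
      ∀ j, W.ab i (MvPolynomial.aeval (x (sel i j)) f) ≤ ζ i * ρ i ^ E0) →
    ∑ i ∈ s, -log (ζ i) ≤ E * H

/-! ### The ladder -/

-- deps:
def S_ASM : Prop := ∀ {R : Type} [CommRing R] (A B : R) (L : Type) [Field L] [Algebra R L]
  [CharZero L] [FaithfulSMul R L] [DecidableEq L], 4 * A ^ 3 + 27 * B ^ 2 ≠ 0 →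
  ∀ (P Q : Pt A B L) (p q : L × L), Rp p P → Rp q Q → ∃ c : L, c ≠ 0 ∧
    f0 (A : L) B p q = c * ((xr (P + Q)).1 * (xr (P - Q)).1) ∧
    f1 (A : L) B p q = c * ((xr (P + Q)).1 * (xr (P - Q)).2 + (xr (P + Q)).2 * (xr (P - Q)).1) ∧
    f2 p q = c * ((xr (P + Q)).2 * (xr (P - Q)).2)

-- deps:
def S_LADD : Prop := ∀ {R : Type} [CommRing R] (A B : R) (t : ℕ), 0 < t →
  ∃ φ ψ : Polynomial R, Lad (Polynomial.C A) (Polynomial.C B) Polynomial.X t (φ, ψ) ∧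
    φ.natDegree ≤ 2 * t ^ 2 ∧ ψ.natDegree ≤ 2 * t ^ 2

-- deps: ASM
def S_LADI : Prop := ∀ {R : Type} [CommRing R] (A B : R) (L : Type) [Field L] [Algebra R L]
  [CharZero L] [FaithfulSMul R L] [DecidableEq L], 4 * A ^ 3 + 27 * B ^ 2 ≠ 0 →
  ∀ (Q : Pt A B L) (t : ℕ) (p : L × L), Q ≠ 0 → Lad (A : L) B (X Q) t p → Rp p ((t : ℤ) • Q)

-- deps: EVB
def S_QUAD : Prop := ∀ (K : Type) [Field K] [NumberField K] (W : Plc K) (A B : 𝓞 K),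
  4 * A ^ 3 + 27 * B ^ 2 ≠ 0 → ∃ (κ : W.ι → ℝ) (c : ℝ), (∀ i, 1 ≤ κ i) ∧
    Bd (fun i => log (κ i)) c ∧ ∀ (i : W.ι) (u v w : Om K), n3 (W.ab i) u v w ^ 2 ≤
      κ i * n3 (W.ab i) (g0 (A : Om K) B u v w) (g1 (A : Om K) B u v w) (g2 u v w)

-- deps: ASM LADI
def S_LADB : Prop := ∀ {R : Type} [CommRing R] (A B : R) (L : Type) [Field L] [Algebra R L]
  [CharZero L] [FaithfulSMul R L] [DecidableEq L], 4 * A ^ 3 + 27 * B ^ 2 ≠ 0 →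
  ∀ (ab : AbsoluteValue L ℝ) (ρ κ : ℝ), 1 ≤ ρ → 1 ≤ κ →
  (∀ y z, ab (y + z) ≤ ρ * max (ab y) (ab z)) →
  (∀ u v w, n3 ab u v w ^ 2 ≤ κ * n3 ab (g0 (A : L) B u v w) (g1 (A : L) B u v w) (g2 u v w)) →
  ∀ (Q : Pt A B L) (t : ℕ) (p : L × L), Q ≠ 0 → Lad (A : L) B (X Q) t p →
    max 1 (ab (X Q)) ^ t ^ 2 ≤ (κ * ρ ^ 3) ^ (t ^ 2 - 1) * max (ab p.1) (ab p.2)

-- deps: LADD LADI
def S_CNT : Prop := ∀ {R : Type} [CommRing R] (A B : R) (L : Type) [Field L] [Algebra R L]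
  [CharZero L] [FaithfulSMul R L] [DecidableEq L], 4 * A ^ 3 + 27 * B ^ 2 ≠ 0 →
  ∀ (T : Pt A B L) (t : ℕ), NT T → 0 < t →
    ∃ s : Finset (Pt A B L), (∀ Q, Q ∈ s ↔ (t : ℤ) • Q = T) ∧ #s ≤ 4 * t ^ 2

-- deps: LADD LADI
def S_DIVL : Prop := ∀ {R : Type} [CommRing R] [Algebra.IsIntegral ℤ R] (A B : R) (L : Type)
  [Field L] [Algebra R L] [CharZero L] [FaithfulSMul R L] [DecidableEq L] [IsAlgClosed L],
  4 * A ^ 3 + 27 * B ^ 2 ≠ 0 → ∀ (w : Valuation L ℝ≥0) (T : Pt A B L) (t : ℕ), 0 < t →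
    1 < w (X T) * w t ^ 3 → ∃ Q : Pt A B L, (t : ℤ) • Q = T ∧ w t ^ 2 * w (X T) ≤ w (X Q)

-- deps: LADD LADI QUAD LADB GAL
def S_HB : Prop := ∀ (K : Type) [Field K] [NumberField K] (W : Plc K) (A B : 𝓞 K),
  4 * A ^ 3 + 27 * B ^ 2 ≠ 0 → ∃ C : ℝ, 0 ≤ C ∧ ∀ (α : Type) (J : Finset α)
    (y : α → Pt A B (Om K)) (T : Pt A B K) (t : ℕ), 0 < t → T ≠ 0 →
    Gal J (fun a (_ : Unit) => X (y a)) → (∀ a ∈ J, (t : ℤ) • y a = bc (Om K) T) →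
    Bd (fun i => (t : ℝ) ^ 2 * ∑ a ∈ J, log⁺ (W.ab i (X (y a))))
      (#J * (C * t ^ 2 + Height.logHeight₁ (X T)))

/-! ### Heights of multiples -/

-- deps:
def S_CAN : Prop := ∀ (K : Type) [Field K] [NumberField K] (A B : 𝓞 K),
  4 * A ^ 3 + 27 * B ^ 2 ≠ 0 → ∀ P : Pt A B K, NT P →
    ∃ C : ℝ, 0 ≤ C ∧ ∀ n : ℤ, Height.logHeight₁ (X (n • P)) ≤ C * n ^ 2

-- deps:
def S_FIN : Prop := ∀ (K : Type) [Field K] [NumberField K] (A B : 𝓞 K),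
  4 * A ^ 3 + 27 * B ^ 2 ≠ 0 → ∀ P : Pt A B K, NT P → ∀ S : Set (Pl K), Sᶜ.Finite →
    ∃ q : ℝ, 0 < q ∧ ∀ N : ℕ, 0 < N → ∃ C : ℝ, ∀ J : ℕ, ∃ M : ℕ, J < M ∧ N ∣ M ∧
      ∃ s : Finset (Pl K), (∀ v ∈ s, v ∈ S) ∧
        q * M ^ 2 - C ≤ ∑ v ∈ s, log⁺ (nv v (X ((M : ℤ) • P)))

-- deps: CNT HB CAN
def S_GLOB : Prop := ∀ (K : Type) [Field K] [NumberField K] (W : Plc K) (A B : 𝓞 K),
  4 * A ^ 3 + 27 * B ^ 2 ≠ 0 → ∀ P : Pt A B K, NT P → ∀ k : ℕ, ∃ C : ℝ, 0 ≤ C ∧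
    ∀ (c : Cfg k) (L : ℝ), c.Le L → ∃ J : Finset (Fin (k + 1) × Pt A B (Om K)),
      (∀ a, a ∈ J ↔ c.In (bc (Om K) P) a) ∧ Gal J (fun a l => X (c.y (bc (Om K) P) a l)) ∧
      (#J : ℝ) ≤ C * L ^ 2 ∧ Bd (W.lam J fun a l => X (c.y (bc (Om K) P) a l)) (C * L ^ 2)

/-! ### The local analysis -/

-- deps:
def S_TAY : Prop := ∀ {R : Type} [CommRing R] [Algebra.IsIntegral ℤ R] (A B : R) (L : Type)
  [Field L] [Algebra R L] [DecidableEq L] (w : Valuation L ℝ≥0) (c Λ : ℝ≥0) (P U : Pt A B L),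
  P ≠ 0 → 1 ≤ Λ → w (X P) ≤ Λ → Sm w c U → c * Λ ≤ 1 →
    w (X (P + U) - X P + 2 * Y P * Z U) ≤ c ^ 2 * Λ ^ 2

-- deps: PD LIP TAY
def S_LOCB : Prop := ∀ {R : Type} [CommRing R] [IsDomain R] [CharZero R] [Algebra.IsIntegral ℤ R]
  (A B : R) (L : Type) [Field L] [Algebra R L] [DecidableEq L] (w : Valuation L ℝ≥0) (k : ℕ)
  (T : Pt A B L) (y : Fin (k + 1) → Fin k → Pt A B L) (n : Fin k → ℤ)
  (β : Matrix (Fin k) (Fin k) ℤ) (c Λ : ℝ≥0) (f : MvPolynomial (Fin k) R),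
  Sm w c T → 1 ≤ Λ → c * Λ ≤ 1 → (∀ j l, y j l ≠ 0) → (∀ j l, w (X (y j l)) ≤ Λ) →
  (∀ j l, Sm w c (y j l - y 0 l)) → (∀ j l, n j • (y j.succ l - y 0 l) = β j l • T) →
  (∀ j, MvPolynomial.aeval (fun l => X (y j l)) f = 0) → ∀ j l,
    w (MvPolynomial.aeval (fun l => X (y j l)) (dl A B f l)) * (w (Z T) * w ((2 * β.det : ℤ) : L)) ≤
      c ^ 2 * Λ ^ (f.totalDegree + 6)

-- deps: LIP DIVL LOCB
def S_DEEP : Prop := ∀ {R : Type} [CommRing R] [IsDomain R] [CharZero R] [Algebra.IsIntegral ℤ R]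
  (A B : R) (L : Type) [Field L] [Algebra R L] [CharZero L] [FaithfulSMul R L] [DecidableEq L]
  [IsAlgClosed L], 4 * A ^ 3 + 27 * B ^ 2 ≠ 0 → ∀ (w : Valuation L ℝ≥0) (k : ℕ) (c : Cfg k)
  (P : Pt A B L) (Λ : ℝ≥0), NT P → 1 ≤ Λ → (∀ a, c.In P a → ∀ l, w (X (c.y P a l)) ≤ Λ) →
  1 < w (X ((c.M : ℤ) • P)) → w (Z ((c.M : ℤ) • P)) * Λ < w (c.τ : L) ^ 3 →
    ∃ Q : Fin (k + 1) → Pt A B L, (∀ j, c.In P (j, Q j)) ∧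
      PB A B (fun x => (w x : ℝ)) (w (Z ((c.M : ℤ) • P))) (Λ / w (c.τ : L))
        (fun j l => X (c.y P (j, Q j) l)) ∧
      ∀ g : MvPolynomial (Fin k) R, Hyp (fun x => (w x : ℝ)) P g c.M c.r → ∀ j,
        w (MvPolynomial.aeval (fun l => X (c.y P (j, Q j) l)) g) ≤
          w (Z ((c.M : ℤ) • P)) * (Λ / w (c.τ : L)) ^ (g.totalDegree + 2)

/-! ### The lattice -/

-- deps:
def S_PAR : Prop := ∀ (κ : Type) [Fintype κ] (M : ℕ) (ρ : κ → ℤ) (s : Finset (κ → ℤ))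
  (a : (κ → ℤ) → ℂ), 0 < M →
  (∀ ξ ∈ s, ∀ ξ' ∈ s, (M : ℤ) ∣ ∑ i, ξ i * ρ i - ∑ i, ξ' i * ρ i → ξ = ξ') →
    ∑ h ∈ range M, ‖∑ ξ ∈ s, a ξ *
      Complex.exp (2 * π * Complex.I * (h * (∑ i, ξ i * ρ i : ℤ) / M))‖ ^ 2 = M * ∑ ξ ∈ s, ‖a ξ‖ ^ 2

-- deps: PAR
def S_COV : Prop := ∀ (κ : Type) [Fintype κ] (ε : ℝ), 0 < ε → ∃ C : ℕ, ∀ (M : ℕ) (ρ : κ → ℤ),
  0 < M → (∀ ξ : κ → ℤ, (∀ i, |ξ i| ≤ C) → (M : ℤ) ∣ ∑ i, ξ i * ρ i → ξ = 0) →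
    ∀ u : κ → ℝ, ∃ (h : ℤ) (n : κ → ℤ), ∀ i, |(h * ρ i : ℝ) / M - n i - u i| ≤ ε

-- deps: COV
def S_LAT : Prop := ∀ (k : ℕ) (δ : ℝ), 0 < δ → ∃ C : ℕ, ∀ (M : ℕ) (r : Fin k → ℤ), 0 < M →
  ¬ Rel C M r → ∃ c : Cfg k, c.M = M ∧ c.r = r ∧ c.Le (δ * M)

-- deps:
def S_SIZE : Prop := ∀ k : ℕ, ∃ C : ℝ, 0 ≤ C ∧ ∀ c : Cfg k, c.Le c.M → log |(c.τ : ℝ)| ≤ C * c.M

/-! ### The key statement -/

-- deps: TAU IND GLOB DEEP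
def S_KEYA : Prop := ∀ (K : Type) [Field K] [NumberField K] (_ : Plc K) (A B : 𝓞 K),
  4 * A ^ 3 + 27 * B ^ 2 ≠ 0 → ∀ P : Pt A B K, NT P → ∀ (k : ℕ) (g : MvPolynomial (Fin k) (𝓞 K)),
  g ≠ 0 → ∃ E : ℝ, 0 ≤ E ∧ ∀ (c : Cfg k) (L : ℝ) (s : Finset (Pl K)), c.Le L →
    (∀ v ∈ s, Hyp (nv v) P g c.M c.r) →
    ∑ v ∈ s, log⁺ (nv v (X ((c.M : ℤ) • P))) ≤ E * (L ^ 2 + log |(c.τ : ℝ)|)

-- deps: PLC FIN LAT SIZE KEYA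
def S_KEY : Prop := ∀ (K : Type) [Field K] [NumberField K] (A B : 𝓞 K),
  4 * A ^ 3 + 27 * B ^ 2 ≠ 0 → ∀ P : Pt A B K, NT P → ∀ S : Set (Pl K), Sᶜ.Finite →
  ∀ (k : ℕ) (g : MvPolynomial (Fin k) (𝓞 K)), g ≠ 0 → ∃ C : ℕ, ∀ N : ℕ, 0 < N →
    ∃ M : ℕ, 0 < M ∧ N ∣ M ∧ ∀ r : Fin k → ℤ, (∀ v ∈ S, Hyp (nv v) P g M r) → Rel C M r

/-! ### From forms on the power of the curve to polynomials in the first coordinates -/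

-- deps:
def S_ADD : Prop := ∃ T : Fin 3 → MvPolynomial (Fin 2 × Fin 3) ℤ,
  ∀ {R : Type} [CommRing R] (A B : R) (L : Type) [Field L] [Algebra R L] [DecidableEq L]
    (P Q : Pt A B L) (a b : L), ∃ c : L, (∀ j, MvPolynomial.aeval
      (fun s : Fin 2 × Fin 3 => ![a * rep P s.2, b * rep Q s.2] s.1) (T j) = c * rep (P + Q) j) ∧
      (a ≠ 0 → b ≠ 0 → P ≠ 0 → Q ≠ 0 → P ≠ Q → c ≠ 0)

-- deps: ADD
def S_RAT : Prop := ∀ (K : Type) [Field K] [NumberField K] (A B : 𝓞 K) (P : Pt A B K), NT P →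
  ∀ (k : ℕ) (b : Fin k → ℤ) (Q : Pt A B K), ∃ G : Fin 3 → MvPolynomial (Fin k × Fin 2) K,
    (∀ (L : Type) [Field L] [Algebra K L] (z : Fin k → Pt A B L), (∀ l, z l ≠ 0) →
      ∃ c : L, ∀ j, MvPolynomial.aeval (xy z) (G j) = c * rep (cmb Q b z) j) ∧
    ∃ c : K, c ≠ 0 ∧ ∀ j, MvPolynomial.aeval (xy fun _ => P) (G j) =
      c * rep (Q + (∑ l, b l) • P) j

-- deps:
def S_NORM : Prop := ∀ (K : Type) [Field K] [NumberField K] (A B : 𝓞 K),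
  4 * A ^ 3 + 27 * B ^ 2 ≠ 0 → ∀ (k : ℕ) (H : MvPolynomial (Fin k × Fin 2) K)
  (z₀ : Fin k → Pt A B K), (∀ l, z₀ l ≠ 0) → MvPolynomial.aeval (xy z₀) H ≠ 0 →
    ∃ g : MvPolynomial (Fin k) K, g ≠ 0 ∧
      ∀ (L : Type) [Field L] [Algebra K L] (z : Fin k → Pt A B L), (∀ l, z l ≠ 0) →
        MvPolynomial.aeval (xy z) H = 0 → MvPolynomial.aeval (fun l => X (z l)) g = 0

-- deps: RAT NORM
def S_GEN : Prop := ∀ (K : Type) [Field K] [NumberField K] (A B : 𝓞 K),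
  4 * A ^ 3 + 27 * B ^ 2 ≠ 0 → ∀ P : Pt A B K, NT P → ∀ (n k : ℕ)
  (F : MvPolynomial (Fin n × Fin 3) K) (Q : Fin n → Pt A B K) (G : Fin n → Fin k → ℤ), Hom F →
  evr F (pt P Q G fun _ => 1) ≠ 0 → ∃ g : MvPolynomial (Fin k) (𝓞 K), g ≠ 0 ∧
    ∀ (L : Type) [Field L] [Algebra K L], Gen F Q G g L

/-! ### Limits -/

-- deps:
def S_ULIM : Prop := ∀ {R : Type} [CommRing R] (A B : R) (L ι : Type) [NontriviallyNormedField L]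
  [Algebra R L] [ProperSpace L] [CharZero L] [FaithfulSMul R L] [DecidableEq L],
  4 * A ^ 3 + 27 * B ^ 2 ≠ 0 → ∀ (U : Ultrafilter ι) (P : ι → Pt A B L),
    ∃ z : Pt A B L, ToO U fun i => P i - z

-- deps: ULIM
def S_DIVO : Prop := ∀ {R : Type} [CommRing R] [Algebra.IsIntegral ℤ R] (A B : R) (L ι : Type)
  [NontriviallyNormedField L] [Algebra R L] [ProperSpace L] [IsUltrametricDist L] [CharZero L]
  [FaithfulSMul R L] [DecidableEq L], 4 * A ^ 3 + 27 * B ^ 2 ≠ 0 →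
  ∀ (l : Filter ι) (Q : Pt A B L) (e : ι → ℤ), (∀ N : ℕ, 0 < N → ∀ᶠ i in l, (N : ℤ) ∣ e i) →
    ToO l fun i => e i • Q

-- deps:
def S_COC : Prop := ∀ {R : Type} [CommRing R] (A B : R) (L ι : Type) [NontriviallyNormedField L]
  [Algebra R L] [DecidableEq L] (l : Filter ι) (P : ι → Pt A B L) (Q : Pt A B L),
  (ToO l fun i => P i - Q) → Tendsto (fun i => co (P i)) l (𝓝 (co Q))

-- deps: COC
def S_CLO : Prop := ∀ (K : Type) [Field K] [NumberField K] (A B : 𝓞 K) (n : ℕ)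
  (T : Set (Fin n → Pt A B K)) (S : Set (Pl K)) (a : ∀ v : S, Fin n → Loc A B v.1),
    InCl T a ↔ Apx T a

-- deps: ULIM
def S_HYP : Prop := ∀ (K : Type) [Field K] [NumberField K] (A B : 𝓞 K),
  4 * A ^ 3 + 27 * B ^ 2 ≠ 0 → ∀ (P : Pt A B K) (n k : ℕ) (F : MvPolynomial (Fin n × Fin 3) K)
  (Q : Fin n → Pt A B K) (G : Fin n → Fin k → ℤ) (g : MvPolynomial (Fin k) (𝓞 K)) (v : Pl K)
  (a : Fin n → Loc A B v) (U : Ultrafilter (Fin k → ℤ)), Gen F Q G g (Kv v) → evr F a = 0 →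
  (∀ i, ToO U fun m => loc v (pt P Q G m i) - a i) → ∀ ρ : ℝ, ∀ᶠ m in U, Cls (nv v) P g ρ m

-- deps: KEY GEN HYP
def S_REL : Prop := ∀ (K : Type) [Field K] [NumberField K] (A B : 𝓞 K),
  4 * A ^ 3 + 27 * B ^ 2 ≠ 0 → ∀ P : Pt A B K, NT P → ∀ S : Set (Pl K), Sᶜ.Finite → ∀ (n k : ℕ)
  (F : MvPolynomial (Fin n × Fin 3) K) (Q : Fin n → Pt A B K) (G : Fin n → Fin k → ℤ), Hom F →
  evr F (pt P Q G fun _ => 1) ≠ 0 → ∃ E : Set ((Fin k → ℤ) × ℤ), E.Finite ∧ (∀ e ∈ E, e.1 ≠ 0) ∧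
    ∀ (a : ∀ v : S, Fin n → Loc A B v.1) (U : Ultrafilter (Fin k → ℤ)), (∀ v, evr F (a v) = 0) →
      Lim U (pt P Q G) a →
      ∃ e ∈ E, ∀ N : ℕ, 0 < N → ∀ᶠ m : Fin k → ℤ in U, (N : ℤ) ∣ ∑ l, e.1 l * m l - e.2

-- deps:
def S_PROJ : Prop := ∀ (k : ℕ) (a : Fin k → ℤ) (c : ℤ), a ≠ 0 → ∃ k' < k,
  ∃ (G : Fin k → Fin k' → ℤ) (m₁ : Fin k → ℤ) (p : (Fin k → ℤ) → Fin k' → ℤ) (g : ℕ), 0 < g ∧
    ∀ (N : ℤ) (m : Fin k → ℤ), g * N ∣ ∑ l, a l * m l - c →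
      ∀ l, N ∣ m l - (m₁ l + ∑ j, G l j * p m j)

-- deps: REL PROJ DIVO
def S_COS : Prop := ∀ (K : Type) [Field K] [NumberField K] (A B : 𝓞 K),
  4 * A ^ 3 + 27 * B ^ 2 ≠ 0 → ∀ P : Pt A B K, NT P → ∀ S : Set (Pl K), Sᶜ.Finite → ∀ (n : ℕ)
  (I : Set (MvPolynomial (Fin n × Fin 3) K)), (∀ F ∈ I, Hom F) →
  ∀ (k : ℕ) (Q : Fin n → Pt A B K) (G : Fin n → Fin k → ℤ), Con I S (Set.range (pt P Q G))

-- deps: INF COS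
def S_TOP : Prop := ∀ (K : Type) [Field K] [NumberField K] (A B : 𝓞 K),
  4 * A ^ 3 + 27 * B ^ 2 ≠ 0 → ∀ Γ : AddSubgroup (Pt A B K),
  (∃ P : Γ, (AddSubgroup.zmultiples P).FiniteIndex) → ∀ S : Set (Pl K), Sᶜ.Finite → ∀ (n : ℕ)
  (I : Set (MvPolynomial (Fin n × Fin 3) K)), (∀ F ∈ I, Hom F) → Con I S {Q | ∀ i, Q i ∈ Γ}

end Pool.Agent.P.MP_ab3ecb_nt.AM
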