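import Pool.Agent.P.MP_ab3ecb_nt.AM.Iface

/-! Step GEN. -/

set_option autoImplicit false

namespace Pool.Agent.P.MP_ab3ecb_nt.AM

open Filter Topology NumberField IsDedekindDomain Finset Real Pool.Agent.P.MP_ab3ecb_nt.TK
open scoped Classical NNReal

namespace GENx

lemma scale {K L : Type} [Field K] [Field L] [Algebra K L] {n : ℕ}
    {F : MvPolynomial (Fin n × Fin 3) K} {d : Fin n → ℕ}
    (hF : F.IsWeightedHomogeneous (fun s => Pi.single s.1 1) d) (c : Fin n → L)
    (r : Fin n × Fin 3 → L) :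
    MvPolynomial.aeval (fun s => c s.1 * r s) F = (∏ i, c i ^ d i) * MvPolynomial.aeval r F := by
  rw [MvPolynomial.aeval_def, MvPolynomial.aeval_def, MvPolynomial.eval₂_eq',
    MvPolynomial.eval₂_eq', Finset.mul_sum]
  refine Finset.sum_congr rfl fun e he => ?_
  have h := hF (MvPolynomial.mem_support_iff.1 he)
  have h2 : ∀ i, d i = ∑ j, e (i, j) := fun i => by
    rw [← h, Finsupp.weight_apply, Finsupp.sum_fintype _ _ (by simp), Finset.sum_apply,
      Fintype.sum_prod_type, Finset.sum_eq_single i]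
    · simp
    · intro b _ hb
      simp [Pi.single_eq_of_ne hb.symm]
    · simp
  have h3 : ∏ s : Fin n × Fin 3, c s.1 ^ e s = ∏ i, c i ^ d i := by
    rw [Fintype.prod_prod_type]
    refine Finset.prod_congr rfl fun i _ => ?_
    rw [h2 i, ← Finset.prod_pow_eq_pow_sum]
  simp only [mul_pow, Finset.prod_mul_distrib, h3]
  ring

attribute [local instance] MvPolynomial.algebraMvPolynomial in
lemma clear {K : Type} [Field K] [NumberField K] {k : ℕ} (g : MvPolynomial (Fin k) K) :
    ∃ (g' : MvPolynomial (Fin k) (𝓞 K)) (c : K), c ≠ 0 ∧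
      MvPolynomial.map (algebraMap (𝓞 K) K) g' = g * MvPolynomial.C c := by
  obtain ⟨⟨g', _, c, hc, rfl⟩, h⟩ := IsLocalization.surj
    ((nonZeroDivisors (𝓞 K)).map (MvPolynomial.C (σ := Fin k))) g
  refine ⟨g', algebraMap (𝓞 K) K c, ?_, ?_⟩
  · exact fun h0 => nonZeroDivisors.ne_zero hc (RingOfIntegers.coe_injective (by simpa using h0))
  · rw [← MvPolynomial.map_C]
    exact h.symm

end GENx

theorem p_GEN (hRAT : S_RAT) (hNORM : S_NORM) :
    S_GEN := by
  intro K _ _ A B hD P hP n k F Q G hF hne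
  obtain ⟨d, hd⟩ := hF
  choose R hR1 c hc hR2 using fun i => hRAT K A B P hP k (G i) (Q i)
  have hP0 : P ≠ 0 := by simpa using nt_ne hP one_ne_zero
  have hH : MvPolynomial.aeval (xy fun _ : Fin k => P)
      (MvPolynomial.aeval (fun s : Fin n × Fin 3 => R s.1 s.2) F) ≠ 0 := by
    rw [MvPolynomial.comp_aeval_apply]
    simp only [hR2]
    rw [GENx.scale hd c fun s => rep (Q s.1 + (∑ l, G s.1 l) • P) s.2]
    refine mul_ne_zero (Finset.prod_ne_zero_iff.2 fun i _ => pow_ne_zero _ (hc i)) ?_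
    simpa [evr, pt] using hne
  obtain ⟨g, hg, hg2⟩ := hNORM K A B hD k _ (fun _ => P) (fun _ => hP0) hH
  obtain ⟨g', a, ha, hg'⟩ := GENx.clear g
  refine ⟨g', fun h0 => ?_, fun L _ _ z hz h0 => ?_⟩
  · rw [h0, map_zero] at hg'
    exact mul_ne_zero hg (MvPolynomial.C_ne_zero.2 ha) hg'.symm
  · choose e he using fun i => hR1 i L z hz
    have h1 : MvPolynomial.aeval (xy z)
        (MvPolynomial.aeval (fun s : Fin n × Fin 3 => R s.1 s.2) F) = 0 := by
      rw [MvPolynomial.comp_aeval_apply]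
      simp only [he]
      rw [GENx.scale hd e fun s => rep (cmb (Q s.1) (G s.1) z) s.2]
      exact mul_eq_zero_of_right _ h0
    rw [← MvPolynomial.aeval_map_algebraMap K, hg', map_mul, hg2 L z hz h1, zero_mul]

end Pool.Agent.P.MP_ab3ecb_nt.AM
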