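import Pool.Agent.P.MP_ab3ecb_nt.AM.Iface

/-! Step LADD. -/

set_option autoImplicit false

namespace Pool.Agent.P.MP_ab3ecb_nt.AM

open Filter Topology NumberField IsDedekindDomain Finset Real Pool.Agent.P.MP_ab3ecb_nt.TK
open scoped Classical NNReal

namespace LADDx

open Polynomial

variable {R : Type} [CommRing R]

theorem ex {S : Type} [CommRing S] (a b x : S) (t : ℕ) : 0 < t → ∃ p, Lad a b x t p := by
  induction t using Nat.strong_induction_on with
  | _ t ih =>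
    intro ht
    obtain ⟨k, rfl | rfl⟩ := Nat.even_or_odd' t
    · obtain ⟨p, hp⟩ := ih k (by omega) (by omega)
      exact ⟨_, hp.dbl⟩
    · rcases Nat.eq_zero_or_pos k with rfl | hk
      · exact ⟨_, Lad.one⟩
      · obtain ⟨p, hp⟩ := ih (k + 1) (by omega) (by omega)
        obtain ⟨q, hq⟩ := ih k (by omega) hk
        exact ⟨_, hp.stp hq⟩

theorem gd (A B : R) {u v w : R[X]} {n : ℕ} (hu : u.natDegree ≤ n) (hv : v.natDegree ≤ n)
    (hw : w.natDegree ≤ n) : (g0 (C A) (C B) u v w).natDegree ≤ 2 * n ∧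
      (g1 (C A) (C B) u v w).natDegree ≤ 2 * n ∧ (g2 u v w).natDegree ≤ 2 * n := by
  have h : ∀ (c : R) {x y : R[X]}, x.natDegree ≤ n → y.natDegree ≤ n →
      (C c * (x * y)).natDegree ≤ 2 * n := fun c x y hx hy =>
    (natDegree_C_mul_le _ _).trans (natDegree_mul_le.trans (by omega))
  have ad : ∀ {x y : R[X]}, x.natDegree ≤ 2 * n → y.natDegree ≤ 2 * n →
      (x + y).natDegree ≤ 2 * n := fun hx hy => (natDegree_add_le _ _).trans (max_le hx hy)
  have e0 : g0 (C A) (C B) u v w = C 1 * (u * u) + C (-(2 * A)) * (u * w) +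
      C (-(4 * B)) * (v * w) + C (A ^ 2) * (w * w) := by
    simp only [g0, map_neg, map_mul, map_pow, map_one, map_ofNat]; ring
  have e1 : g1 (C A) (C B) u v w = C 2 * (v * u) + C (2 * A) * (v * w) + C (4 * B) * (w * w) := by
    simp only [g1, map_mul, map_ofNat]; ring
  have e2 : g2 u v w = C 1 * (v * v) + C (-4) * (u * w) := by
    simp only [g2, map_neg, map_one, map_ofNat]; ring
  rw [e0, e1, e2]
  exact ⟨ad (ad (ad (h _ hu hu) (h _ hu hw)) (h _ hv hw)) (h _ hw hw),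
    ad (ad (h _ hv hu) (h _ hv hw)) (h _ hw hw), ad (h _ hv hv) (h _ hu hw)⟩

theorem fd (A B : R) {p q : R[X] × R[X]} {m n : ℕ} (h1 : p.1.natDegree ≤ m)
    (h2 : p.2.natDegree ≤ m) (h3 : q.1.natDegree ≤ n) (h4 : q.2.natDegree ≤ n) :
    (f0 (C A) (C B) p q).natDegree ≤ 2 * (m + n) ∧ (f1 (C A) (C B) p q).natDegree ≤ 2 * (m + n) ∧
      (f2 p q).natDegree ≤ 2 * (m + n) :=
  gd A B (natDegree_mul_le.trans (add_le_add h1 h3))
    ((natDegree_add_le _ _).trans (max_le (natDegree_mul_le.trans (add_le_add h1 h4))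
      (natDegree_mul_le.trans (add_le_add h2 h3)))) (natDegree_mul_le.trans (add_le_add h2 h4))

theorem dg (A B : R) {m : ℕ} {p : R[X] × R[X]} (h : Lad (C A) (C B) Polynomial.X m p) :
    ∃ n, n + 1 ≤ 2 * m ^ 2 ∧ p.1.natDegree ≤ n ∧ p.2.natDegree ≤ n := by
  induction h with
  | one => exact ⟨1, by norm_num, natDegree_X_le, by simp⟩
  | dbl _ ih =>
    obtain ⟨n, hn, h1, h2⟩ := ih
    have h := fd A B h1 h2 h1 h2
    exact ⟨2 * (n + n), by nlinarith, h.1, h.2.1⟩
  | stp _ _ ih ih' =>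
    obtain ⟨m, hm, h1, h2⟩ := ih
    obtain ⟨n, hn, h3, h4⟩ := ih'
    have h := fd A B h1 h2 h3 h4
    refine ⟨2 * (m + n) + 1, by nlinarith, (natDegree_sub_le _ _).trans (max_le
      (h.2.1.trans (Nat.le_succ _)) (natDegree_mul_le.trans ?_)), h.2.2.trans (Nat.le_succ _)⟩
    have := natDegree_X_le (R := R)
    have := h.2.2
    omega

end LADDx

theorem p_LADD :
    S_LADD := by
  intro R _ A B t ht
  obtain ⟨p, hp⟩ := LADDx.ex (Polynomial.C A) (Polynomial.C B) Polynomial.X t ht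
  obtain ⟨n, hn, h1, h2⟩ := LADDx.dg A B hp
  exact ⟨p.1, p.2, hp, by omega, by omega⟩

end Pool.Agent.P.MP_ab3ecb_nt.AM
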