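import Pool.Agent.P.MP_ab3ecb_nt.AM.Iface

/-! Step LOCB. -/

set_option autoImplicit false

namespace Pool.Agent.P.MP_ab3ecb_nt.AM

open Filter Topology NumberField IsDedekindDomain Finset Real Pool.Agent.P.MP_ab3ecb_nt.TK
open scoped Classical NNReal

namespace LOCBx

lemma adj {L : Type} [Field L] {k : ℕ} (β : Matrix (Fin k) (Fin k) ℤ) (a : Fin k → L) (l : Fin k) :
    (β.det : L) * a l = ∑ j, (β.adjugate l j : L) * ∑ m, (β j m : L) * a m := by
  have h : ∀ m, ∑ j, (β.adjugate l j : L) * (β j m : L) = if l = m then (β.det : L) else 0 := by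
    intro m
    have := congrFun (congrFun β.adjugate_mul l) m
    rw [Matrix.mul_apply, Matrix.smul_apply, Matrix.one_apply] at this
    have e := congrArg (Int.cast : ℤ → L) this
    push_cast at e
    rw [e]
    split_ifs <;> simp
  simp only [mul_sum, ← mul_assoc]
  rw [sum_comm]
  simp only [← sum_mul, h, ite_mul, zero_mul, sum_ite_eq, mem_univ, if_true]

end LOCBx

open LOCBx in
theorem p_LOCB (hPD : S_PD) (hLIP : S_LIP) (hTAY : S_TAY) :
    S_LOCB := by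
  intro R _ _ _ _ A B L _ _ _ w k T y n β c Λ f hT h1 hc h0 hx hU hn hf j l
  obtain ⟨d1, -, -, d4⟩ := hPD R k f
  generalize hD : f.totalDegree = D at d1 d4 ⊢
  have c1 : c ≤ 1 := (le_mul_of_one_le_right' h1).trans hc
  have pw : ∀ {a b : ℕ}, a ≤ b → Λ ^ a ≤ Λ ^ b := fun h => pow_le_pow_right₀ h1 h
  have hy : ∀ j l, y 0 l + (y j l - y 0 l) = y j l := fun j l => add_sub_cancel _ _
  have hY : ∀ l, w (Y (y 0 l)) ≤ Λ ^ 2 := fun l =>
    (pow_le_pow_iff_left₀ zero_le zero_le two_ne_zero).1 ((v_Y_le h1 (hx 0 l)).trans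
      (by rw [← pow_mul]; exact pw (by norm_num)))
  have dx : ∀ j l, w (X (y j l) - X (y 0 l)) ≤ c * Λ ^ 2 := fun j l => by
    have := (cl (h0 0 l) h1 (hx 0 l) (hU j l).1
      ((mul_le_mul_left (hU j l).2 Λ).trans hc)).2.1
    rw [hy] at this
    exact this.trans (mul_le_mul_left (hU j l).2 _)
  have lip := fun (g : MvPolynomial (Fin k) R) (E : ℕ) (hg : g.totalDegree ≤ E) (j : Fin (k + 1)) =>
    hLIP L w k g E Λ (c * Λ ^ 2) (fun l => X (y 0 l)) (fun l => X (y j l)) hg h1 (hx 0) (hx j) (dx j)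
  obtain ⟨pd, hpd⟩ : ∃ pd : Fin k → L, ∀ l,
    MvPolynomial.aeval (fun l => X (y 0 l)) (MvPolynomial.pderiv l f) = pd l := ⟨_, fun _ => rfl⟩
  have wp : ∀ l, w (pd l) ≤ Λ ^ D := fun l => hpd l ▸ (lip _ D (d1 l) 0).1
  have w2 : w (2 : L) ≤ 1 := by simpa using v_z w 2
  have wa : ∀ l, w (2 * Y (y 0 l) * pd l) ≤ Λ ^ (D + 2) := fun l => by
    rw [map_mul, map_mul]
    calc _ ≤ 1 * Λ ^ 2 * Λ ^ D := mul_le_mul' (mul_le_mul' w2 (hY l)) (wp l)
      _ = _ := by ring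
  have s1 : ∀ j, w (∑ l, 2 * Y (y 0 l) * pd l * Z (y j l - y 0 l)) ≤ c ^ 2 * Λ ^ (D + 4) := by
    intro j
    have a := (lip f D hD.le j).2.2
    simp only [hf, hpd] at a
    have b : w (∑ l, pd l * (X (y j l) - X (y 0 l) + 2 * Y (y 0 l) * Z (y j l - y 0 l))) ≤
        c ^ 2 * Λ ^ (D + 4) := w.map_sum_le fun l _ => by
      have t := hTAY A B L w c Λ _ _ (h0 0 l) h1 (hx 0 l) (hU j l) hc
      rw [hy] at t
      rw [map_mul]
      calc _ ≤ Λ ^ D * (c ^ 2 * Λ ^ 2) := mul_le_mul' (wp l) t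
        _ = c ^ 2 * Λ ^ (D + 2) := by ring
        _ ≤ _ := mul_le_mul_right (pw (by omega)) _
    refine le_of_eq_of_le (congrArg w ?_) (w.map_add_le b (a.trans_eq (by ring)))
    rw [sub_zero, zero_sub, ← sub_eq_add_neg, ← sum_sub_distrib]
    exact sum_congr rfl fun l _ => by ring
  have s2 : ∀ j, w (∑ l, (β j l : L) * (2 * Y (y 0 l) * pd l * Z T)) ≤ c ^ 2 * Λ ^ (D + 4) := by
    intro j
    have a : w ((n j : L) * ∑ l, 2 * Y (y 0 l) * pd l * Z (y j.succ l - y 0 l)) ≤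
        c ^ 2 * Λ ^ (D + 4) := by
      rw [map_mul]
      exact (mul_le_of_le_one_left' (v_z w _)).trans (s1 _)
    have b : w (∑ l, 2 * Y (y 0 l) * pd l * ((β j l : L) * Z T -
        (n j : L) * Z (y j.succ l - y 0 l))) ≤ c ^ 2 * Λ ^ (D + 4) := w.map_sum_le fun l _ => by
      have t1 := (z_zsmul (hU j.succ l).1 (n j)).trans (pow_le_pow_left' (hU j.succ l).2 5)
      have t2 := (z_zsmul hT.1 (β j l)).trans (pow_le_pow_left' hT.2 5)
      rw [hn] at t1
      have t := w.map_sub_le t1 t2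
      rw [sub_sub_sub_cancel_left] at t
      rw [map_mul]
      calc _ ≤ Λ ^ (D + 2) * c ^ 5 := mul_le_mul' (wa l) t
        _ ≤ Λ ^ (D + 4) * c ^ 2 :=
          mul_le_mul' (pw (by omega)) (pow_le_pow_of_le_one zero_le c1 (by norm_num))
        _ = _ := mul_comm _ _
    refine le_of_eq_of_le (congrArg w ?_) (w.map_add_le a b)
    rw [mul_sum, ← sum_add_distrib]
    exact sum_congr rfl fun l _ => by ring
  have s3 : w ((β.det : L) * (2 * Y (y 0 l) * pd l * Z T)) ≤ c ^ 2 * Λ ^ (D + 4) := by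
    rw [adj β (fun l => 2 * Y (y 0 l) * pd l * Z T) l]
    refine w.map_sum_le fun j _ => ?_
    rw [map_mul]
    exact (mul_le_of_le_one_left' (v_z w _)).trans (s2 j)
  have e0 : MvPolynomial.aeval (fun l => X (y 0 l)) (dl A B f l) = Y (y 0 l) ^ 2 * pd l := by
    rw [dl, map_mul, hpd, eqn (h0 0 l)]
    simp only [map_add, map_mul, map_pow, MvPolynomial.aeval_X, MvPolynomial.aeval_C]
  have e1 := (lip _ _ (d4 A B l) j).2.1
  rw [e0] at e1
  rw [← map_mul, ← map_mul]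
  generalize MvPolynomial.aeval (fun l => X (y j l)) (dl A B f l) = z at e1 ⊢
  rw [show z * (Z T * ((2 * β.det : ℤ) : L)) = (z - Y (y 0 l) ^ 2 * pd l) * Z T *
    ((2 * β.det : ℤ) : L) + Y (y 0 l) * ((β.det : L) * (2 * Y (y 0 l) * pd l * Z T)) by
      push_cast; ring]
  refine w.map_add_le ?_ ?_
  · rw [map_mul, map_mul]
    calc _ ≤ c * Λ ^ 2 * Λ ^ (D + 3) * c * 1 := mul_le_mul' (mul_le_mul' e1 hT.2) (v_z w _)
      _ = c ^ 2 * Λ ^ (D + 5) := by ring
      _ ≤ _ := mul_le_mul_right (pw (by omega)) _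
  · rw [map_mul]
    exact (mul_le_mul' (hY l) s3).trans_eq (by ring)

end Pool.Agent.P.MP_ab3ecb_nt.AM
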