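import Pool.Agent.P.MP_ab3ecb_nt.AM.Iface

/-! Step PLC. -/

set_option autoImplicit false

namespace Pool.Agent.P.MP_ab3ecb_nt.AM

open Filter Topology NumberField IsDedekindDomain Finset Real Pool.Agent.P.MP_ab3ecb_nt.TK
open scoped Classical NNReal

namespace PLCx

variable {K : Type} [Field K] [NumberField K]

lemma ext_fin (v : Pl K) :
    ∃ w : Valuation (Om K) ℝ≥0, ∀ x : K, (w (algebraMap K (Om K) x) : ℝ) = nv v x := by
  let _ : NontriviallyNormedField (Kv v) := Valued.toNontriviallyNormedField (Kv v) (WithZero (Multiplicative ℤ))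
  let _ := spectralNorm.normedField (Kv v) (AlgebraicClosure (Kv v))
  have : IsUltrametricDist (AlgebraicClosure (Kv v)) :=
    IsUltrametricDist.isUltrametricDist_of_isNonarchimedean_norm isNonarchimedean_spectralNorm
  let φ : Om K →ₐ[K] AlgebraicClosure (Kv v) := IsAlgClosed.lift
  refine ⟨(NormedField.valuation (K := AlgebraicClosure (Kv v))).comap φ.toRingHom, fun x => ?_⟩
  have h : φ (algebraMap K (Om K) x) =
      algebraMap (Kv v) (AlgebraicClosure (Kv v)) (algebraMap K (Kv v) x) := by
    rw [φ.commutes, IsScalarTower.algebraMap_apply K (Kv v) (AlgebraicClosure (Kv v))]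
  change spectralNorm (Kv v) (AlgebraicClosure (Kv v)) (φ (algebraMap K (Om K) x)) = _
  rw [h, spectralNorm_extends, nv]

omit [NumberField K] in
lemma ext_inf (w : InfinitePlace K) :
    ∃ a : AbsoluteValue (Om K) ℝ, ∀ x : K, a (algebraMap K (Om K) x) = w x := by
  let _ := w.embedding.toAlgebra
  let φ : Om K →ₐ[K] ℂ := IsAlgClosed.lift
  refine ⟨NumberField.place φ.toRingHom, fun x => ?_⟩
  change ‖φ (algebraMap K (Om K) x)‖ = _
  rw [φ.commutes, ← w.norm_embedding_eq]
  rfl

/-- The absolute value of a valuation. -/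
noncomputable def avOf {L : Type} [Field L] (w : Valuation L ℝ≥0) : AbsoluteValue L ℝ where
  toFun x := w x
  map_mul' x y := by simp
  nonneg' x := (w x).2
  eq_zero' x := by simp
  add_le' x y := by
    exact_mod_cast (w.map_add x y).trans (max_le_add_of_nonneg zero_le zero_le)

/-- The index set. -/
abbrev Ix (K : Type) [Field K] [NumberField K] : Type :=
  Pl K ⊕ (Σ w : InfinitePlace K, Fin w.mult)

lemma key (F : Ix K → ℝ) (f : FinitePlace K → ℝ) (hf : f.HasFiniteSupport)
    (g : InfinitePlace K → ℝ) (h1 : ∀ v, F (.inl v) = f (.mk v)) (h2 : ∀ p, F (.inr p) = g p.1)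
    (s : Finset (Ix K)) :
    ∃ s', s ⊆ s' ∧ ∑ i ∈ s', F i = ∑ w, w.mult * g w + ∑ᶠ v, f v := by
  have h3 : (fun v : Pl K => f (.mk v)).HasFiniteSupport :=
    hf.preimage (FinitePlace.equivHeightOneSpectrum (K := K)).symm.injective.injOn
  have h4 : ∑ᶠ v : Pl K, f (.mk v) = ∑ᶠ v, f v :=
    finsum_comp_equiv (FinitePlace.equivHeightOneSpectrum (K := K)).symm (f := f)
  refine ⟨(s.toLeft ∪ h3.toFinset).disjSum univ, fun i hi => ?_, ?_⟩
  · rcases i with v | p
    · simp [hi]
    · simp
  · rw [sum_disjSum, ← h4, finsum_eq_sum_of_support_subset (s := s.toLeft ∪ h3.toFinset) _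
      (fun v hv => by simp [Function.mem_support.1 hv]), add_comm]
    simp [h1, h2, Fintype.sum_sigma]

lemma pf_prod {g : K} (hg : g ≠ 0) :
    ∑ w : InfinitePlace K, w.mult * log (w g) + ∑ᶠ v : FinitePlace K, log (v g) = 0 := by
  have h1 := congrArg Real.log (prod_abs_eq_one hg)
  have h2 : ∀ w : InfinitePlace K, w g ^ w.mult ≠ 0 := fun w =>
    pow_ne_zero _ (InfinitePlace.pos_iff.2 hg).ne'
  have h3 : ∀ v : FinitePlace K, 0 < v g := fun v => FinitePlace.pos_iff.2 hg
  rw [Real.log_mul (prod_ne_zero_iff.2 fun w _ => h2 w) (right_ne_zero_of_mul_eq_one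
    (prod_abs_eq_one hg)), Real.log_prod fun w _ => h2 w, Real.log_finprod h3, Real.log_one] at h1
  simpa using h1

lemma pf_fin (a : K) : (fun v : FinitePlace K => log⁺ (v a)).HasFiniteSupport := by
  by_cases h : a = 0
  · simp [h, Function.HasFiniteSupport]
  · exact (FinitePlace.hasFiniteMulSupport h).subset fun v hv h1 =>
      hv (by simp [show v a = 1 from h1])

end PLCx

open PLCx in
theorem p_PLC :
    S_PLC := by
  intro K _ _
  choose w hw using ext_fin (K := K)
  choose a ha using ext_inf (K := K)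
  refine ⟨{
    ι := Ix K
    ab := Sum.elim (fun v => avOf (w v)) fun p => a p.1
    th := Sum.elim (fun _ => 0) fun _ => 1
    d := ∑ u : InfinitePlace K, u.mult
    e := .inl
    w := w
    th1 := by rintro (v | p) <;> simp
    thd := fun s => ?_
    na := ?_
    int := fun b => ⟨1 + ∑ u : InfinitePlace K, a u b, ?_, ?_⟩
    pf := fun x hx s => ?_
    ht := fun x s => ?_
    einj := Sum.inl_injective
    hw := fun _ _ => rfl
    hK := hw }⟩
  · obtain ⟨s', h1, h2⟩ := key (fun i => ((Sum.elim (fun _ => 0) (fun _ => 1) i : ℕ) : ℝ)) (fun _ => 0)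
      (by simp [Function.HasFiniteSupport]) (fun _ => 1) (by simp) (by simp) s
    refine (sum_le_sum_of_subset_of_nonneg h1 fun _ _ _ => Nat.cast_nonneg _).trans ?_
    rw [h2]
    simp
  · rintro (v | p) h
    · intro x y
      exact_mod_cast (w v).map_add x y
    · simp at h
  · exact le_add_of_nonneg_right (sum_nonneg fun u _ => (a u).nonneg _)
  · rintro (v | p)
    · have := v_int (w v) b
      simpa [avOf] using this
    · have := single_le_sum (f := fun u => a u b) (fun u _ => (a u).nonneg _) (mem_univ p.1)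
      simp only [Sum.elim_inr, pow_one]
      linarith
  · obtain ⟨s', h1, h2⟩ := key (fun i => log (Sum.elim (fun v => avOf (w v)) (fun p => a p.1) i
      (algebraMap K (Om K) x))) (fun v => log (v x))
      ((FinitePlace.hasFiniteMulSupport hx).subset fun v hv h1 => hv (by simp [show v x = 1 from h1]))
      (fun u => log (u x)) (fun v => congrArg log (hw v x)) (fun p => congrArg log (ha p.1 x)) s
    exact ⟨s', h1, h2.trans (pf_prod hx)⟩
  · obtain ⟨s', h1, h2⟩ := key (fun i => log⁺ (Sum.elim (fun v => avOf (w v)) (fun p => a p.1) i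
      (algebraMap K (Om K) x))) (fun v => log⁺ (v x)) (pf_fin x)
      (fun u => log⁺ (u x)) (fun v => congrArg posLog (hw v x)) (fun p => congrArg posLog (ha p.1 x)) s
    refine (sum_le_sum_of_subset_of_nonneg h1 fun _ _ _ => posLog_nonneg).trans ?_
    rw [h2, NumberField.logHeight₁_eq]

end Pool.Agent.P.MP_ab3ecb_nt.AM
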